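import Mathlib
import Pool.Agent.Work.MP_c971ef_nt.LS.Defs

set_option autoImplicit false

/-!
MP_c971ef_nt, block US (shifted index). Definitions. FIXED.
-/

namespace PoolUS

open Finset

/-- the number of `u` in `U` congruent to `b` modulo `q` -/
def zc (U : Finset ℕ) (q b : ℕ) : ℕ := #(U.filter (fun u => u ≡ b [MOD q]))

/-- `∑_{u ∈ U} e(a u / e)` -/
noncomputable def TT (U : Finset ℕ) (e a : ℕ) : ℂ := ∑ u ∈ U, PoolLS.ef e a u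

/-- the part of the counting function with denominator exactly `e` -/
noncomputable def UE (U : Finset ℕ) (e b : ℕ) : ℂ :=
  ∑ a ∈ (range e).filter (fun a => Nat.Coprime a e), TT U e a * (starRingEnd ℂ) (PoolLS.ef e a b)

/-- `∑ |TT|^2` over the reduced fractions with denominator `e` -/
noncomputable def SS (U : Finset ℕ) (e : ℕ) : ℝ :=
  ∑ a ∈ (range e).filter (fun a => Nat.Coprime a e), ‖TT U e a‖ ^ 2

/-- the `y`-smooth part of `q` (primes `< y`) -/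
noncomputable def sm (y q : ℕ) : ℕ :=
  ∏ p ∈ q.primeFactors.filter (fun p => p < y), p ^ (q.factorization p)

/-- `e` has a prime factor `≥ y` -/
def Rough (y e : ℕ) : Prop := ∃ p : ℕ, p.Prime ∧ y ≤ p ∧ p ∣ e

/-- a solution of `D ∣ 2 W k + 1` (when `D` is prime to `2 W`) -/
noncomputable def kk (W D : ℕ) : ℕ := (-((2 * W : ℕ) : ZMod D)⁻¹).val

/-- sieve weights: upper weights `lp`, error weights `dp`, on the finite set `P` of primes, level `D`,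
`V` the product, `η` the relative error -/
structure SW (P : Finset ℕ) (D V η : ℝ) (lp dp : Finset ℕ → ℝ) : Prop where
  l1 : ∀ d, |lp d| ≤ 1
  d1 : ∀ d, |dp d| ≤ 1
  sup : ∀ d, lp d ≠ 0 ∨ dp d ≠ 0 → d ⊆ P ∧ ((∏ p ∈ d, p : ℕ) : ℝ) ≤ D
  up : ∀ B ⊆ P, (if B = ∅ then (1 : ℝ) else 0) ≤ ∑ d ∈ B.powerset, lp d
  df : ∀ B ⊆ P, ∑ d ∈ B.powerset, lp d - (if B = ∅ then (1 : ℝ) else 0) ≤ ∑ d ∈ B.powerset, dp d
  lo : V ≤ ∑ d ∈ P.powerset, lp d / ((∏ p ∈ d, p : ℕ) : ℝ)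
  hi : ∑ d ∈ P.powerset, lp d / ((∏ p ∈ d, p : ℕ) : ℝ) ≤ (1 + η) * V
  d0 : 0 ≤ ∑ d ∈ P.powerset, dp d / ((∏ p ∈ d, p : ℕ) : ℝ)
  dh : ∑ d ∈ P.powerset, dp d / ((∏ p ∈ d, p : ℕ) : ℝ) ≤ η * V

/-- the primes in `[y, z)` not dividing `2 W` -/
def PW (y z W : ℕ) : Finset ℕ := (range z).filter (fun p => p.Prime ∧ y ≤ p ∧ ¬ p ∣ 2 * W)

/-- `∏ (1 - 1/p)` -/
noncomputable def VV (P : Finset ℕ) : ℝ := ∏ p ∈ P, (1 - (1 : ℝ) / p)

/-- `∏ (1 + 1/p)` -/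
noncomputable def PI (P : Finset ℕ) : ℝ := ∏ p ∈ P, (1 + (1 : ℝ) / p)

/-- the composite lower bound weights -/
def lam (lp₁ dp₁ lp₂ dp₂ : Finset ℕ → ℝ) (d₁ d₂ : Finset ℕ) : ℝ :=
  lp₁ d₁ * lp₂ d₂ - dp₁ d₁ * lp₂ d₂ - lp₁ d₁ * dp₂ d₂

/-- the sifted count for the pair `(n, j)` -/
def SN (U : Finset ℕ) (W : ℕ) (P₁ P₂ : Finset ℕ) (F : Finset ℕ → Finset ℕ → ℝ) (n j : ℕ) : ℝ :=
  ∑ u ∈ U.filter (fun u => n ∣ u - j),
    ∑ d₁ ∈ (P₁.filter (fun p => p ∣ 2 * (W * ((u - j) / n)) + 1)).powerset,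
      ∑ d₂ ∈ (P₂.filter (fun p => p ∣ 2 * (W * ((u - j) / n)) + 1)).powerset, F d₁ d₂

end PoolUS
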