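import Mathlib
import Pool.Agent.Work.MP_c971ef_nt.US.Defs
import Pool.Agent.Work.MP_c971ef_nt.LS.Aq

set_option autoImplicit false

/-!
Module Aef (size M). The coefficients A_e of the large sieve, a bound without loss in the level.

PROOF. (i) Fix a pair s = (n, d), D := ∏ p ∈ d, p. e ∣ n D implies (e/gcd(e,D)) ∣ n; the number of such
n ≤ 2N is ≤ 2N gcd(e,D)/e and each has 1/n ≤ 1/N, so the sum over n ∈ G of 1/n is ≤ 2 gcd(e,D)/e (compare the
private lemma aq_inner of LS/Aq.lean). Sum over d: ≤ (2F/e) ∑_{d ⊆ P} gcd(e,∏d)/∏d.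
(ii) gcd(e, ∏ p ∈ d, p) = ∏ p ∈ d, gcd(e,p) for sets of primes, so the last sum is
∏_{p ∈ P} (1 + gcd(e,p)/p) (Finset.prod_one_add / Finset.prod_add) ≤ ∏_{p ∈ P, p ∣ e} 2 · ∏_{p ∈ P, p ∤ e} (1+1/p)
≤ 2^#(e.primeFactors) PI P.
(iii) 2^#(primeFactors e) ≤ 64 e^(1/4): multiply over p ∣ e: 2 ≤ p^(1/4) for p ≥ 16, and there are 6
primes < 16.
-/

namespace PoolUS

open Finset

theorem two_pow_omega (e : ℕ) (he : 1 ≤ e) :
    (2 : ℝ) ^ (#e.primeFactors) ≤ 64 * (e : ℝ) ^ ((1 : ℝ) / 4) := by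
  classical
  have hsplit : #e.primeFactors = #(e.primeFactors.filter (fun p => p < 16)) +
      #(e.primeFactors.filter (fun p => ¬ p < 16)) := by
    rw [Finset.card_filter_add_card_filter_not]
  have h1 : #(e.primeFactors.filter (fun p => p < 16)) ≤ 6 := by
    have hsub : e.primeFactors.filter (fun p => p < 16) ⊆ (range 16).filter Nat.Prime := by
      intro p hp
      obtain ⟨hp1, hp2⟩ := Finset.mem_filter.1 hp
      exact Finset.mem_filter.2 ⟨Finset.mem_range.2 hp2, Nat.prime_of_mem_primeFactors hp1⟩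
    refine (Finset.card_le_card hsub).trans ?_
    decide
  have h2 : (2 : ℝ) ^ (#(e.primeFactors.filter (fun p => p < 16))) ≤ 64 := by
    calc (2 : ℝ) ^ (#(e.primeFactors.filter (fun p => p < 16))) ≤ 2 ^ 6 :=
        pow_le_pow_right₀ (by norm_num) h1
      _ = 64 := by norm_num
  have h3 : (2 : ℝ) ^ (#(e.primeFactors.filter (fun p => ¬ p < 16))) ≤ (e : ℝ) ^ ((1 : ℝ) / 4) := by
    have h4 : (2 : ℝ) ^ (#(e.primeFactors.filter (fun p => ¬ p < 16))) ≤
        ∏ p ∈ e.primeFactors.filter (fun p => ¬ p < 16), ((p : ℝ) ^ ((1 : ℝ) / 4)) := by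
      rw [← Finset.prod_const]
      refine Finset.prod_le_prod (fun _ _ => by norm_num) ?_
      intro p hp
      obtain ⟨_, hp2⟩ := Finset.mem_filter.1 hp
      have h16 : (16 : ℝ) ≤ p := by
        have : 16 ≤ p := not_lt.1 hp2
        exact_mod_cast this
      calc (2 : ℝ) = (16 : ℝ) ^ ((1 : ℝ) / 4) := by
            rw [show (16 : ℝ) = 2 ^ (4 : ℝ) by norm_num, ← Real.rpow_mul (by norm_num)]
            norm_num
        _ ≤ (p : ℝ) ^ ((1 : ℝ) / 4) := Real.rpow_le_rpow (by norm_num) h16 (by norm_num)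
    refine h4.trans ?_
    rw [Real.finsetProd_rpow _ _ (fun p _ => Nat.cast_nonneg p)]
    refine Real.rpow_le_rpow (Finset.prod_nonneg fun p _ => Nat.cast_nonneg p) ?_ (by norm_num)
    have h5 : ∏ p ∈ e.primeFactors.filter (fun p => ¬ p < 16), p ≤ e := by
      refine Nat.le_of_dvd he ?_
      exact (Finset.prod_dvd_prod_of_subset _ _ _ (Finset.filter_subset _ _)).trans
        (Nat.prod_primeFactors_dvd e)
    calc ∏ p ∈ e.primeFactors.filter (fun p => ¬ p < 16), ((p : ℕ) : ℝ)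
        = ((∏ p ∈ e.primeFactors.filter (fun p => ¬ p < 16), p : ℕ) : ℝ) := by push_cast; rfl
      _ ≤ e := by exact_mod_cast h5
  rw [hsplit, pow_add]
  exact mul_le_mul h2 h3 (by positivity) (by norm_num)

private theorem aef_inner (N q e : ℕ) (hq : 1 ≤ q) (he : 1 ≤ e) (G : Finset ℕ)
    (hG : G ⊆ Ioc N (2 * N)) (F c : ℝ) (hc0 : 0 ≤ c) (hc : c ≤ F) :
    ∑ n ∈ G.filter (fun n => q ∣ n * e), c / ((n * e : ℕ) : ℝ) ≤
      2 * F / q * ((Nat.gcd q e : ℕ) / (e : ℝ)) := by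
  have hF : 0 ≤ F := le_trans hc0 hc
  have hq0 : (0 : ℝ) < q := by exact_mod_cast hq
  rcases Nat.eq_zero_or_pos N with hN | hN
  · subst hN
    have hG0 : G = ∅ := by
      apply Finset.subset_empty.1
      refine hG.trans ?_
      simp
    rw [hG0]
    simp only [Finset.filter_empty, Finset.sum_empty]
    positivity
  have hN0 : (0 : ℝ) < N := by exact_mod_cast hN
  have he0 : (0 : ℝ) < e := by exact_mod_cast he
  have hg : 0 < Nat.gcd q e := Nat.gcd_pos_of_pos_left _ hq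
  have hqk : q / Nat.gcd q e * Nat.gcd q e = q := Nat.div_mul_cancel (Nat.gcd_dvd_left q e)
  have hk0 : 0 < q / Nat.gcd q e := Nat.div_pos (Nat.le_of_dvd hq (Nat.gcd_dvd_left q e)) hg
  have hk0' : (0 : ℝ) < (q / Nat.gcd q e : ℕ) := by exact_mod_cast hk0
  have hsub : G.filter (fun n => q ∣ n * e) ⊆
      (Ioc 0 (2 * N)).filter (fun n => q / Nat.gcd q e ∣ n) := by
    intro n hn
    obtain ⟨hn1, hn2⟩ := Finset.mem_filter.1 hn
    have hn3 := Finset.mem_Ioc.1 (hG hn1)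
    refine Finset.mem_filter.2 ⟨Finset.mem_Ioc.2 ⟨by omega, hn3.2⟩, ?_⟩
    have hcop : Nat.Coprime (q / Nat.gcd q e) (e / Nat.gcd q e) := Nat.coprime_div_gcd_div_gcd hg
    refine hcop.dvd_of_dvd_mul_right ?_
    have h1 : q / Nat.gcd q e ∣ n * e / Nat.gcd q e := Nat.div_dvd_div (Nat.gcd_dvd_left q e) hn2
    rwa [Nat.mul_div_assoc _ (Nat.gcd_dvd_right q e)] at h1
  have hcard : (((G.filter (fun n => q ∣ n * e)).card : ℕ) : ℝ) ≤
      (2 * N : ℝ) / (q / Nat.gcd q e : ℕ) := by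
    have h1 := Finset.card_le_card hsub
    rw [Nat.Ioc_filter_dvd_card_eq_div] at h1
    have h2 : (((G.filter (fun n => q ∣ n * e)).card : ℕ) : ℝ) ≤
        ((2 * N / (q / Nat.gcd q e) : ℕ) : ℝ) := by exact_mod_cast h1
    refine h2.trans ?_
    refine Nat.cast_div_le.trans ?_
    push_cast
    exact le_rfl
  have hterm : ∀ n ∈ G.filter (fun n => q ∣ n * e), c / ((n * e : ℕ) : ℝ) ≤ F / (N * e) := by
    intro n hn
    have hn3 := Finset.mem_Ioc.1 (hG (Finset.mem_filter.1 hn).1)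
    have hn4 : (N : ℝ) ≤ n := by exact_mod_cast hn3.1.le
    rw [Nat.cast_mul]
    exact div_le_div₀ hF hc (by positivity) (mul_le_mul_of_nonneg_right hn4 he0.le)
  have hsum := Finset.sum_le_card_nsmul _ _ _ hterm
  refine hsum.trans ?_
  rw [nsmul_eq_mul]
  have h3 : (((G.filter (fun n => q ∣ n * e)).card : ℕ) : ℝ) * (F / (N * e)) ≤
      (2 * N : ℝ) / (q / Nat.gcd q e : ℕ) * (F / (N * e)) :=
    mul_le_mul_of_nonneg_right hcard (by positivity)
  refine h3.trans (le_of_eq ?_)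
  have hq' : (q : ℝ) = (q / Nat.gcd q e : ℕ) * (Nat.gcd q e : ℕ) := by
    rw [← Nat.cast_mul, hqk]
  have hg' : (0 : ℝ) < (Nat.gcd q e : ℕ) := by exact_mod_cast hg
  rw [hq']
  generalize ((q / Nat.gcd q e : ℕ) : ℝ) = A at hk0' ⊢
  generalize ((Nat.gcd q e : ℕ) : ℝ) = g at hg' ⊢
  field_simp

private theorem gcd_prod_dvd (e : ℕ) (d : Finset ℕ) :
    Nat.gcd e (∏ p ∈ d, p) ∣ ∏ p ∈ d, Nat.gcd e p := by
  classical
  induction d using Finset.induction_on with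
  | empty => simp
  | insert a s ha ih =>
    rw [Finset.prod_insert ha, Finset.prod_insert ha]
    exact (Nat.gcd_mul_right_dvd_mul_gcd e a _).trans (Nat.mul_dvd_mul_left _ ih)

theorem aef (N e : ℕ) (he : 1 ≤ e) (G P : Finset ℕ) (hG : G ⊆ Ioc N (2 * N))
    (hP : ∀ p ∈ P, p.Prime) (f : Finset ℕ → ℝ) (F : ℝ) (hF : ∀ d, |f d| ≤ F) :
    ∑ s ∈ (G ×ˢ P.powerset).filter (fun s => e ∣ s.1 * ∏ p ∈ s.2, p),
      |f s.2| / ((s.1 * ∏ p ∈ s.2, p : ℕ) : ℝ) ≤
      128 * F * PI P * ((e : ℝ) ^ ((1 : ℝ) / 4) / e) := by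
  classical
  have hF0 : 0 ≤ F := le_trans (abs_nonneg _) (hF ∅)
  have he0 : (0 : ℝ) < e := by exact_mod_cast he
  have hpos : ∀ d ∈ P.powerset, 1 ≤ ∏ p ∈ d, p := by
    intro d hd
    refine Nat.one_le_iff_ne_zero.2 (Finset.prod_ne_zero_iff.2 fun p hp => ?_)
    exact (hP p (Finset.mem_powerset.1 hd hp)).pos.ne'
  have hstep : ∑ s ∈ (G ×ˢ P.powerset).filter (fun s => e ∣ s.1 * ∏ p ∈ s.2, p),
      |f s.2| / ((s.1 * ∏ p ∈ s.2, p : ℕ) : ℝ) =
      ∑ d ∈ P.powerset, ∑ n ∈ G.filter (fun n => e ∣ n * ∏ p ∈ d, p),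
        |f d| / ((n * ∏ p ∈ d, p : ℕ) : ℝ) := by
    rw [Finset.sum_filter, Finset.sum_product_right]
    refine Finset.sum_congr rfl fun d _ => ?_
    rw [Finset.sum_filter]
  rw [hstep]
  have hle : ∀ d ∈ P.powerset, ∑ n ∈ G.filter (fun n => e ∣ n * ∏ p ∈ d, p),
      |f d| / ((n * ∏ p ∈ d, p : ℕ) : ℝ) ≤ 2 * F / e * ∏ p ∈ d, (((Nat.gcd e p : ℕ) : ℝ) / p) := by
    intro d hd
    refine (aef_inner N e _ he (hpos d hd) G hG F _ (abs_nonneg _) (hF d)).trans ?_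
    refine mul_le_mul_of_nonneg_left ?_ (by positivity)
    rw [Finset.prod_div_distrib]
    have h1 : (((Nat.gcd e (∏ p ∈ d, p) : ℕ)) : ℝ) ≤ ∏ p ∈ d, ((Nat.gcd e p : ℕ) : ℝ) := by
      rw [← Nat.cast_prod]
      have h2 : 0 < ∏ p ∈ d, Nat.gcd e p :=
        Finset.prod_pos fun p _ => Nat.gcd_pos_of_pos_left _ he
      exact_mod_cast Nat.le_of_dvd h2 (gcd_prod_dvd e d)
    rw [Nat.cast_prod]
    exact div_le_div_of_nonneg_right h1 (Finset.prod_nonneg fun p _ => Nat.cast_nonneg p)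
  refine (Finset.sum_le_sum hle).trans ?_
  rw [← Finset.mul_sum, ← Finset.prod_one_add]
  have hprod : ∏ p ∈ P, (1 + ((Nat.gcd e p : ℕ) : ℝ) / p) ≤
      (2 : ℝ) ^ (#e.primeFactors) * PI P := by
    have h1 : ∏ p ∈ P, (1 + ((Nat.gcd e p : ℕ) : ℝ) / p) ≤
        ∏ p ∈ P, ((if p ∣ e then (2 : ℝ) else 1) * (1 + (1 : ℝ) / p)) := by
      refine Finset.prod_le_prod (fun p _ => by positivity) ?_
      intro p hp
      have hpp := hP p hp
      have hp0 : (0 : ℝ) < p := by exact_mod_cast hpp.pos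
      by_cases hpe : p ∣ e
      · rw [if_pos hpe, Nat.gcd_eq_right hpe, div_self hp0.ne']
        have : (0 : ℝ) ≤ 1 / (p : ℝ) := by positivity
        linarith
      · have : Nat.gcd e p = 1 := ((Nat.Prime.coprime_iff_not_dvd hpp).2 hpe).symm
        rw [if_neg hpe, this, Nat.cast_one, one_mul]
    refine h1.trans ?_
    rw [Finset.prod_mul_distrib]
    refine mul_le_mul_of_nonneg_right ?_ ?_
    · rw [Finset.prod_ite, Finset.prod_const, Finset.prod_const_one, mul_one]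
      refine pow_le_pow_right₀ (by norm_num) (Finset.card_le_card ?_)
      intro p hp
      obtain ⟨hp1, hp2⟩ := Finset.mem_filter.1 hp
      exact Nat.mem_primeFactors.2 ⟨hP p hp1, hp2, by omega⟩
    · exact Finset.prod_nonneg fun p _ => by positivity
  have hPI : 0 ≤ PI P := Finset.prod_nonneg fun p _ => by positivity
  calc 2 * F / e * ∏ p ∈ P, (1 + ((Nat.gcd e p : ℕ) : ℝ) / p)
      ≤ 2 * F / e * ((2 : ℝ) ^ (#e.primeFactors) * PI P) :=
        mul_le_mul_of_nonneg_left hprod (by positivity)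
    _ ≤ 2 * F / e * ((64 * (e : ℝ) ^ ((1 : ℝ) / 4)) * PI P) :=
        mul_le_mul_of_nonneg_left (mul_le_mul_of_nonneg_right (two_pow_omega e he) hPI)
          (by positivity)
    _ = 128 * F * PI P * ((e : ℝ) ^ ((1 : ℝ) / 4) / e) := by ring

end PoolUS
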