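import Mathlib

set_option autoImplicit false

/-!
Module Asy (size S-M). Elementary asymptotics.

PROOF. isLittleO_log_rpow_atTop, isLittleO_log_rpow_rpow_atTop, composition with log and natCast; asy3:
(log N)^(3/4) ≤ b log N for log N ≥ b^(-4), then exp and N^b = exp(b log N).
-/

namespace PoolUS

theorem asy1 (K : ℝ) (m : ℕ) (b : ℝ) (hb : 0 < b) : ∃ L₀ : ℝ, ∀ ℓ : ℝ, L₀ ≤ ℓ →
    K * (1 + Real.log ℓ) ^ m ≤ ℓ ^ b := by
  have hc : 0 < b / ((m : ℝ) + 1) := by positivity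
  set c : ℝ := b / ((m : ℝ) + 1) with hcdef
  have h1 : (fun ℓ : ℝ => 1 + Real.log ℓ) =o[Filter.atTop] (fun ℓ : ℝ => ℓ ^ c) := by
    refine Asymptotics.IsLittleO.add ?_ (isLittleO_log_rpow_atTop hc)
    refine (Asymptotics.isLittleO_const_left.2 (Or.inr ?_))
    exact tendsto_norm_atTop_atTop.comp (tendsto_rpow_atTop hc)
  have h6 := h1.bound (c := 1) one_pos
  have h7 : ∀ᶠ ℓ : ℝ in Filter.atTop, |K| ≤ ℓ ^ c := (tendsto_rpow_atTop hc).eventually_ge_atTop _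
  obtain ⟨L₀, hL⟩ := Filter.eventually_atTop.1 (h6.and h7)
  refine ⟨max L₀ 0, fun ℓ hℓ => ?_⟩
  obtain ⟨h8, h9⟩ := hL ℓ ((le_max_left _ _).trans hℓ)
  have h10 : 0 ≤ ℓ := (le_max_right _ _).trans hℓ
  have h11 : 0 ≤ ℓ ^ c := Real.rpow_nonneg h10 c
  rw [one_mul, Real.norm_eq_abs, Real.norm_eq_abs, abs_of_nonneg h11] at h8
  calc K * (1 + Real.log ℓ) ^ m ≤ |K * (1 + Real.log ℓ) ^ m| := le_abs_self _
    _ = |K| * |1 + Real.log ℓ| ^ m := by rw [abs_mul, abs_pow]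
    _ ≤ ℓ ^ c * (ℓ ^ c) ^ m := by
        apply mul_le_mul h9 (pow_le_pow_left₀ (abs_nonneg _) h8 m) (by positivity) h11
    _ = (ℓ ^ c) ^ (m + 1) := by rw [pow_succ]; ring
    _ = ℓ ^ b := by
        rw [← Real.rpow_natCast, ← Real.rpow_mul h10]
        congr 1
        rw [hcdef]
        push_cast
        field_simp

theorem asy2 (K : ℝ) (M : ℕ) (b : ℝ) (hb : 0 < b) : ∃ N₀ : ℕ, ∀ N : ℕ, N₀ ≤ N →
    K * (Real.log N) ^ M ≤ (N : ℝ) ^ b := by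
  have h0 : Filter.Tendsto (fun N : ℕ => (N : ℝ)) Filter.atTop Filter.atTop := tendsto_natCast_atTop_atTop
  have h1 : ∀ᶠ x : ℝ in Filter.atTop, K * (Real.log x) ^ M ≤ x ^ b := by
    have h2 : (fun x : ℝ => K * (Real.log x) ^ M) =O[Filter.atTop] (fun x : ℝ => (Real.log x) ^ (M : ℝ)) := by
      refine (Asymptotics.isBigO_refl _ _).const_mul_left K |>.congr_right ?_
      intro x
      rw [Real.rpow_natCast]
    have h3 := (h2.trans_isLittleO (isLittleO_log_rpow_rpow_atTop (M : ℝ) hb)).bound (c := 1) one_pos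
    filter_upwards [h3, Filter.eventually_ge_atTop (0 : ℝ)] with x hx hx0
    rw [one_mul, Real.norm_eq_abs, Real.norm_eq_abs, abs_of_nonneg (Real.rpow_nonneg hx0 b)] at hx
    exact (le_abs_self _).trans hx
  obtain ⟨N₀, hN⟩ := Filter.eventually_atTop.1 (h0.eventually h1)
  exact ⟨N₀, hN⟩

theorem asy3 (b : ℝ) (hb : 0 < b) : ∃ N₀ : ℕ, ∀ N : ℕ, N₀ ≤ N →
    Real.exp ((Real.log N) ^ ((3 : ℝ) / 4)) ≤ (N : ℝ) ^ b := by
  obtain ⟨N₀, hN⟩ : ∃ N₀ : ℕ, ∀ N : ℕ, N₀ ≤ N → b⁻¹ ^ 4 + 1 ≤ Real.log N := by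
    have h1 : ∀ᶠ N : ℕ in Filter.atTop, b⁻¹ ^ 4 + 1 ≤ Real.log N :=
      (Real.tendsto_log_atTop.comp tendsto_natCast_atTop_atTop).eventually_ge_atTop _
    exact Filter.eventually_atTop.1 h1
  refine ⟨max N₀ 1, fun N hN1 => ?_⟩
  have h2 := hN N ((le_max_left _ _).trans hN1)
  have h3 : (0 : ℝ) < N := by
    have : 1 ≤ N := (le_max_right _ _).trans hN1
    exact_mod_cast this
  set ℓ : ℝ := Real.log N with hℓ
  have hb4 : 0 < b⁻¹ ^ 4 := by positivity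
  have hℓ0 : 0 < ℓ := by linarith
  have h4 : ℓ ^ ((3 : ℝ) / 4) ≤ b * ℓ := by
    have h5 : ℓ = ℓ ^ ((3 : ℝ) / 4) * ℓ ^ ((1 : ℝ) / 4) := by
      rw [← Real.rpow_add hℓ0]
      norm_num
    have h6 : b⁻¹ ≤ ℓ ^ ((1 : ℝ) / 4) := by
      have h7 : (b⁻¹ ^ 4) ^ ((1 : ℝ) / 4) ≤ ℓ ^ ((1 : ℝ) / 4) :=
        Real.rpow_le_rpow hb4.le (by linarith) (by norm_num)
      have h8 : (b⁻¹ ^ 4) ^ ((1 : ℝ) / 4) = b⁻¹ := by
        rw [← Real.rpow_natCast, ← Real.rpow_mul (by positivity)]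
        norm_num
      rwa [h8] at h7
    have h9 : 1 ≤ b * ℓ ^ ((1 : ℝ) / 4) := by
      have := mul_le_mul_of_nonneg_left h6 hb.le
      rwa [mul_inv_cancel₀ hb.ne'] at this
    have h10 : 0 ≤ ℓ ^ ((3 : ℝ) / 4) := Real.rpow_nonneg hℓ0.le _
    calc ℓ ^ ((3 : ℝ) / 4) = ℓ ^ ((3 : ℝ) / 4) * 1 := (mul_one _).symm
      _ ≤ ℓ ^ ((3 : ℝ) / 4) * (b * ℓ ^ ((1 : ℝ) / 4)) := mul_le_mul_of_nonneg_left h9 h10
      _ = b * (ℓ ^ ((3 : ℝ) / 4) * ℓ ^ ((1 : ℝ) / 4)) := by ring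
      _ = b * ℓ := by rw [← h5]
  rw [Real.rpow_def_of_pos h3]
  apply Real.exp_le_exp.2
  rw [← hℓ, mul_comm]
  exact h4

theorem asy4 (K : ℝ) : ∃ N₀ : ℕ, ∀ N : ℕ, N₀ ≤ N → K ≤ Real.log N := by
  have h1 : ∀ᶠ N : ℕ in Filter.atTop, K ≤ Real.log N :=
    (Real.tendsto_log_atTop.comp tendsto_natCast_atTop_atTop).eventually_ge_atTop _
  exact Filter.eventually_atTop.1 h1

end PoolUS
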