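import Mathlib
import Pool.Agent.Work.MP_c971ef_nt.US.Defs
import Pool.Agent.Work.MP_c971ef_nt.LS.Wts

set_option autoImplicit false

/-!
Module Bh2 (size M). The large primes: Brun-Hooley weights with both coefficients bounded by 1.

PROOF. Copy the proof of Pool.Agent.Work.MP_2dba45_nt.Sv.brun_hooley (Sv/BHc.lean) for g p = 1/p and
P = PW y z W; the only change: |dw d| ≤ 1 instead of ≤ #s, because in dw d = ∑_{l ∈ s} [#(d ∩ A l) = b l + 1 and
#(d ∩ A j) ≤ b j for j ≠ l] ± 1 at most one l satisfies the condition (two different l, l' contradict each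
other). (Private lemmas of BHc must be copied; the public ones of BHb: lw_sub, sum_lw, sum_dw.) Windows: every
prime of P is odd (2 ∣ 2W), so P ⊆ PP z and `PoolLS.win` (LS/Mert.lean) bounds the window sums by 8; 1/p ≤ 1/3.
Choose b ≥ b₀ with exp(-b) ≤ 1/8. `hi`: average df over the product measure (private wts_swap in LS/Wts.lean):
∑ lp/∏ - ∏(1-1/p) ≤ ∑ dp/∏ ≤ e^(-b) V. `d0`: the same inequality and `lo`.
∏ p ∈ d, (1/p) = 1/∏ p ∈ d, p.
-/

namespace PoolUS

open Finset Pool.Agent.Work.MP_2dba45_nt.Sv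

private theorem exp_neg_two_mul_le (x : ℝ) (h0 : 0 ≤ x) (h1 : x ≤ 1 / 2) :
    Real.exp (-(2 * x)) ≤ 1 - x := by
  have h2 : 0 < 1 - x := by linarith
  have h3 := Real.one_sub_inv_le_log_of_pos h2
  rw [← Real.le_log_iff_exp_le h2]
  refine le_trans ?_ h3
  have h4 : (1 - x)⁻¹ ≤ 1 + 2 * x := by
    rw [inv_le_comm₀ h2 (by linarith)]
    rw [inv_le_iff_one_le_mul₀ (by linarith)]
    nlinarith
  linarith

/-- the end points of the blocks -/
private noncomputable def yy (z i : ℕ) : ℝ := (z : ℝ) ^ ((1 / 2 : ℝ) ^ i)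

private theorem yy_zero (z : ℕ) : yy z 0 = z := by
  unfold yy
  rw [pow_zero, Real.rpow_one]

private theorem yy_sq (z i : ℕ) : yy z (i + 1) ^ 2 = yy z i := by
  unfold yy
  rw [← Real.rpow_natCast, ← Real.rpow_mul (Nat.cast_nonneg z)]
  congr 1
  rw [pow_succ]
  push_cast
  ring

private theorem one_le_yy (z i : ℕ) (hz : 2 ≤ z) : 1 ≤ yy z i := by
  unfold yy
  exact Real.one_le_rpow (by exact_mod_cast (by omega : 1 ≤ z)) (by positivity)

private theorem yy_succ_le (z i : ℕ) (hz : 2 ≤ z) : yy z (i + 1) ≤ yy z i := by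
  rw [← yy_sq z i]
  have := one_le_yy z (i + 1) hz
  nlinarith

private theorem yy_anti (z : ℕ) (hz : 2 ≤ z) : Antitone (yy z) :=
  antitone_nat_of_succ_le fun i => yy_succ_le z i hz

private theorem yy_last (z : ℕ) : yy z z ≤ 2 := by
  unfold yy
  have h1 : (z : ℝ) ≤ (2 : ℝ) ^ ((2 : ℝ) ^ z) := by
    have h2 : z < 2 ^ z := Nat.lt_two_pow_self
    have h3 : 2 ^ z < 2 ^ (2 ^ z) := Nat.lt_two_pow_self
    have h4 : (z : ℝ) ≤ ((2 ^ (2 ^ z) : ℕ) : ℝ) := by exact_mod_cast (h2.trans h3).le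
    refine h4.trans (le_of_eq ?_)
    push_cast
    rw [← Real.rpow_natCast]
    push_cast
    rfl
  have h5 : (z : ℝ) ^ ((1 / 2 : ℝ) ^ z) ≤ ((2 : ℝ) ^ ((2 : ℝ) ^ z)) ^ ((1 / 2 : ℝ) ^ z) :=
    Real.rpow_le_rpow (Nat.cast_nonneg z) h1 (by positivity)
  refine h5.trans (le_of_eq ?_)
  rw [← Real.rpow_mul (by norm_num), ← mul_pow]
  norm_num

/-- the blocks -/
private noncomputable def blk (P : Finset ℕ) (z i : ℕ) : Finset ℕ :=
  P.filter (fun p : ℕ => yy z (i + 1) ≤ (p : ℝ) ∧ (p : ℝ) < yy z i)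

private theorem blk_disj (P : Finset ℕ) (z : ℕ) (hz : 2 ≤ z) (i j : ℕ) (hij : i ≠ j) :
    Disjoint (blk P z i) (blk P z j) := by
  rw [Finset.disjoint_left]
  intro p hp hq
  have h1 := (Finset.mem_filter.1 hp).2
  have h2 := (Finset.mem_filter.1 hq).2
  rcases lt_or_gt_of_ne hij with h | h
  · have := yy_anti z hz (Nat.succ_le_of_lt h)
    simp only [Nat.succ_eq_add_one] at this
    linarith [h1.1, h2.2]
  · have := yy_anti z hz (Nat.succ_le_of_lt h)
    simp only [Nat.succ_eq_add_one] at this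
    linarith [h1.2, h2.1]

private theorem blk_union (P : Finset ℕ) (z : ℕ) (hz : 2 ≤ z) (hP : ∀ p ∈ P, 2 ≤ p ∧ p < z) :
    (range z).biUnion (blk P z) = P := by
  classical
  ext p
  constructor
  · intro hp
    obtain ⟨i, _, hi⟩ := Finset.mem_biUnion.1 hp
    exact (Finset.mem_filter.1 hi).1
  · intro hp
    obtain ⟨h2, hlt⟩ := hP p hp
    have h2' : (2 : ℝ) ≤ p := by exact_mod_cast h2
    have hlt' : (p : ℝ) < z := by exact_mod_cast hlt
    obtain ⟨m, rfl⟩ : ∃ m, z = m + 1 := ⟨z - 1, by omega⟩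
    have hex : ∃ i, yy (m + 1) (i + 1) ≤ (p : ℝ) :=
      ⟨m, (yy_last (m + 1)).trans h2'⟩
    have h3 := Nat.find_spec hex
    have h4 : Nat.find hex ≤ m := Nat.find_min' hex ((yy_last (m + 1)).trans h2')
    refine Finset.mem_biUnion.2 ⟨Nat.find hex, Finset.mem_range.2 (Nat.lt_succ_of_le h4),
      Finset.mem_filter.2 ⟨hp, h3, ?_⟩⟩
    rcases Nat.eq_zero_or_pos (Nat.find hex) with h5 | h5
    · rw [h5, yy_zero]
      exact hlt'
    · have h6 := Nat.find_min hex (m := Nat.find hex - 1) (by omega)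
      have h7 : Nat.find hex - 1 + 1 = Nat.find hex := by omega
      rw [h7] at h6
      exact not_le.1 h6

private theorem level_sum (b n : ℕ) :
    ∑ j ∈ range n, (1 / 2 : ℝ) ^ j * (2 * b + 2 * j + 3) =
      4 * b + 10 - (1 / 2 : ℝ) ^ n * (4 * b + 4 * n + 10) := by
  induction n with
  | zero => simp
  | succ n ih =>
    rw [Finset.sum_range_succ, ih, pow_succ]
    push_cast
    ring

private theorem level (P : Finset ℕ) (z b : ℕ) (hz : 2 ≤ z) (hP : ∀ p ∈ P, 2 ≤ p ∧ p < z)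
    (d : Finset ℕ) (hd : d ⊆ P) (hc : ∀ j ∈ range z, #(d ∩ blk P z j) ≤ 2 * (b + (j + 1)) + 1) :
    ((∏ p ∈ d, p : ℕ) : ℝ) ≤ (z : ℝ) ^ (4 * b + 10) := by
  classical
  have hz1 : (1 : ℝ) ≤ z := by exact_mod_cast (by omega : 1 ≤ z)
  have h1 : d = (range z).biUnion (fun j => d ∩ blk P z j) := by
    rw [← Finset.inter_biUnion, blk_union P z hz hP]
    exact (Finset.inter_eq_left.2 hd).symm
  have h2 : ((∏ p ∈ d, p : ℕ) : ℝ) = ∏ j ∈ range z, ∏ p ∈ d ∩ blk P z j, (p : ℝ) := by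
    conv_lhs => rw [h1]
    rw [Finset.prod_biUnion]
    · push_cast
      rfl
    · intro i _ j _ hij
      exact Finset.disjoint_of_subset_left Finset.inter_subset_right
        (Finset.disjoint_of_subset_right Finset.inter_subset_right (blk_disj P z hz i j hij))
  rw [h2]
  have h3 : ∀ j ∈ range z, ∏ p ∈ d ∩ blk P z j, (p : ℝ) ≤
      (z : ℝ) ^ ((1 / 2 : ℝ) ^ j * (2 * b + 2 * j + 3)) := by
    intro j hj
    have h4 : ∏ p ∈ d ∩ blk P z j, (p : ℝ) ≤ ∏ _p ∈ d ∩ blk P z j, yy z j := by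
      refine Finset.prod_le_prod (fun p _ => Nat.cast_nonneg p) (fun p hp => ?_)
      exact (Finset.mem_filter.1 (Finset.mem_inter.1 hp).2).2.2.le
    rw [Finset.prod_const] at h4
    refine h4.trans ?_
    have h5 : yy z j ^ #(d ∩ blk P z j) ≤ yy z j ^ (2 * (b + (j + 1)) + 1) :=
      pow_le_pow_right₀ (one_le_yy z j hz) (hc j hj)
    refine h5.trans (le_of_eq ?_)
    unfold yy
    rw [← Real.rpow_natCast, ← Real.rpow_mul (Nat.cast_nonneg z)]
    congr 1
    push_cast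
    ring
  refine (Finset.prod_le_prod (fun j _ => Finset.prod_nonneg fun p _ => Nat.cast_nonneg p) h3).trans
    ?_
  have h6 : ∏ j ∈ range z, (z : ℝ) ^ ((1 / 2 : ℝ) ^ j * (2 * b + 2 * j + 3)) =
      (z : ℝ) ^ (∑ j ∈ range z, (1 / 2 : ℝ) ^ j * (2 * b + 2 * j + 3)) :=
    (Real.rpow_sum_of_pos (by linarith) _ _).symm
  rw [h6, ← Real.rpow_natCast]
  refine Real.rpow_le_rpow_of_exponent_le hz1 ?_
  rw [level_sum]
  push_cast
  have : 0 ≤ (1 / 2 : ℝ) ^ z * (4 * b + 4 * z + 10) := by positivity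
  linarith

private theorem lw_abs {ι : Type*} (s : Finset ι) (A : ι → Finset ℕ) (b : ι → ℕ) (d : Finset ℕ) :
    |lw s A b d| ≤ 1 := by
  unfold lw
  split_ifs
  · rw [abs_pow, abs_neg, abs_one, one_pow]
  · simp

private theorem dw_abs1 {ι : Type*} (s : Finset ι) (A : ι → Finset ℕ) (b : ι → ℕ)
    (d : Finset ℕ) : |dw s A b d| ≤ 1 := by
  classical
  unfold dw
  by_cases h : ∃ l ∈ s, d ⊆ s.biUnion A ∧ #(d ∩ A l) = b l + 1 ∧
      ∀ j ∈ s, j ≠ l → #(d ∩ A j) ≤ b j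
  · obtain ⟨l, hl, h1, h2, h3⟩ := h
    rw [Finset.sum_eq_single_of_mem l hl]
    · split_ifs
      · rw [abs_pow, abs_neg, abs_one, one_pow]
      · simp
    · intro l' hl' hne
      rw [if_neg]
      rintro ⟨h4, h5, h6⟩
      have h7 := h6 l hl (Ne.symm hne)
      have h8 : #(d ∩ A l) ≤ b l := by
        refine le_trans (le_of_eq ?_) h7
        congr
      omega
  · push Not at h
    rw [Finset.sum_eq_zero]
    · simp
    · intro l hl
      rw [if_neg]
      rintro ⟨h4, h5, h6⟩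
      obtain ⟨j, hj, hjl, h7⟩ := h l hl (by convert h4) (by
        refine Eq.trans ?_ h5
        congr)
      have h8 := h6 j hj hjl
      have h9 : #(d ∩ A j) ≤ b j := by
        refine le_trans (le_of_eq ?_) h8
        congr
      omega

private theorem supp {ι : Type*} (s : Finset ι) (A : ι → Finset ℕ) (b : ι → ℕ) (d : Finset ℕ)
    (h : lw s A b d ≠ 0 ∨ dw s A b d ≠ 0) :
    d ⊆ s.biUnion A ∧ ∀ j ∈ s, #(d ∩ A j) ≤ b j + 1 := by
  classical
  rcases h with h | h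
  · unfold lw at h
    have h1 := (ne_eq _ _ ▸ h : ¬ _)
    split_ifs at h with h2
    · refine ⟨by convert h2.1, fun j hj => ?_⟩
      have := h2.2 j hj
      refine le_trans (le_of_eq ?_) (this.trans (Nat.le_succ _))
      congr
    · exact absurd rfl h
  · unfold dw at h
    obtain ⟨l, hl, hne⟩ := Finset.exists_ne_zero_of_sum_ne_zero h
    split_ifs at hne with h2
    · refine ⟨by convert h2.1, fun j hj => ?_⟩
      by_cases hjl : j = l
      · subst hjl
        have := h2.2.1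
        refine le_of_eq (Eq.trans ?_ this)
        congr
      · have := h2.2.2 j hj hjl
        refine le_trans (le_of_eq ?_) (this.trans (Nat.le_succ _))
        congr
    · exact absurd rfl hne

private theorem pow_div_factorial_le (L : ℝ) (hL : 0 ≤ L) (n : ℕ) :
    L ^ n / n.factorial ≤ Real.exp (3 * L) * Real.exp (-n) := by
  have h1 : (3 * L) ^ n / n.factorial ≤ Real.exp (3 * L) :=
    Real.pow_div_factorial_le_exp (3 * L) (by linarith) n
  have h2 : Real.exp n ≤ 3 ^ n := by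
    have h3 : Real.exp (n : ℝ) = Real.exp 1 ^ n := by
      rw [← Real.exp_nat_mul, mul_one]
    rw [h3]
    exact pow_le_pow_left₀ (Real.exp_pos 1).le Real.exp_one_lt_three.le n
  have hf : (0 : ℝ) < n.factorial := by exact_mod_cast Nat.factorial_pos n
  rw [Real.exp_neg, ← div_eq_mul_inv, le_div_iff₀ (Real.exp_pos _)]
  refine le_trans ?_ h1
  rw [mul_pow, div_mul_eq_mul_div]
  refine div_le_div_of_nonneg_right ?_ hf.le
  rw [mul_comm]
  exact mul_le_mul_of_nonneg_right h2 (pow_nonneg hL n)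

private theorem brun_hooley2 (L₀ : ℝ) (hL₀ : 0 ≤ L₀) : ∃ b₀ : ℕ, ∀ b : ℕ, b₀ ≤ b →
    ∀ (z : ℕ) (P : Finset ℕ) (g : ℕ → ℝ), 2 ≤ z → (∀ p ∈ P, 2 ≤ p ∧ p < z) →
      (∀ p ∈ P, 0 ≤ g p ∧ g p ≤ 1 / 2) →
      (∀ y : ℝ, 1 ≤ y → ∑ p ∈ P.filter (fun p : ℕ => y ≤ (p : ℝ) ∧ (p : ℝ) < y ^ 2), g p ≤ L₀) →
      ∃ lp dp : Finset ℕ → ℝ, (∀ d, |lp d| ≤ 1) ∧ (∀ d, |dp d| ≤ 1) ∧
        (∀ d, lp d ≠ 0 ∨ dp d ≠ 0 → d ⊆ P ∧ ((∏ p ∈ d, p : ℕ) : ℝ) ≤ (z : ℝ) ^ (4 * b + 10)) ∧
        (∀ B ⊆ P, (if B = ∅ then (1 : ℝ) else 0) ≤ ∑ d ∈ B.powerset, lp d ∧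
          ∑ d ∈ B.powerset, lp d - (if B = ∅ then (1 : ℝ) else 0) ≤ ∑ d ∈ B.powerset, dp d) ∧
        ∏ p ∈ P, (1 - g p) ≤ ∑ d ∈ P.powerset, lp d * ∏ p ∈ d, g p ∧
        ∑ d ∈ P.powerset, dp d * ∏ p ∈ d, g p ≤ Real.exp (-b) * ∏ p ∈ P, (1 - g p) := by
  classical
  refine ⟨⌈5 * L₀⌉₊ + 1, fun b hb z P g hz hP hg hy => ?_⟩
  have hbL : 5 * L₀ + 1 ≤ b := by
    have h1 : 5 * L₀ ≤ ⌈5 * L₀⌉₊ := Nat.le_ceil _
    have h2 : ((⌈5 * L₀⌉₊ + 1 : ℕ) : ℝ) ≤ b := by exact_mod_cast hb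
    push_cast at h2
    linarith
  set s := range z with hs
  set A : ℕ → Finset ℕ := blk P z with hA
  set bb : ℕ → ℕ := fun j => 2 * (b + (j + 1)) with hbb
  have hdisj : ∀ i ∈ s, ∀ j ∈ s, i ≠ j → Disjoint (A i) (A j) := fun i _ j _ hij =>
    blk_disj P z hz i j hij
  have hun : s.biUnion A = P := blk_union P z hz hP
  have heven : ∀ j ∈ s, Even (bb j) := fun j _ => even_two_mul _
  have hAP : ∀ j, A j ⊆ P := fun j => Finset.filter_subset _ _
  have hgA : ∀ j, ∀ p ∈ A j, 0 ≤ g p ∧ g p ≤ 1 := fun j p hp =>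
    ⟨(hg p (hAP j hp)).1, (hg p (hAP j hp)).2.trans (by norm_num)⟩
  have hsumA : ∀ j, ∑ p ∈ A j, g p ≤ L₀ := by
    intro j
    have h1 := hy (yy z (j + 1)) (one_le_yy z _ hz)
    rw [yy_sq] at h1
    exact h1
  set V : ℕ → ℝ := fun j => ∏ p ∈ A j, (1 - g p) with hV
  have hVpos : ∀ j, Real.exp (-(2 * L₀)) ≤ V j := by
    intro j
    have h1 : ∏ p ∈ A j, Real.exp (-(2 * g p)) ≤ V j := by
      refine Finset.prod_le_prod (fun p _ => (Real.exp_pos _).le) (fun p hp => ?_)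
      exact exp_neg_two_mul_le _ (hg p (hAP j hp)).1 (hg p (hAP j hp)).2
    rw [← Real.exp_sum] at h1
    refine le_trans (Real.exp_le_exp.2 ?_) h1
    rw [Finset.sum_neg_distrib, ← Finset.mul_sum]
    linarith [hsumA j]
  have hV0 : ∀ j, 0 < V j := fun j => lt_of_lt_of_le (Real.exp_pos _) (hVpos j)
  have hVprod : ∏ j ∈ s, V j = ∏ p ∈ P, (1 - g p) := by
    rw [← hun, Finset.prod_biUnion (fun i hi j hj hij => hdisj i hi j hj hij)]
  set c : ℕ → ℝ := fun j => Real.exp (5 * L₀) * Real.exp (-(2 * b + 2 * j + 3)) with hc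
  have hc0 : ∀ j, 0 ≤ c j := fun j => by simp only [hc]; positivity
  have hes : ∀ j, esum (bb j) g (A j) ≤ V j * c j := by
    intro j
    have h1 := esum_le (bb j) g (A j) (fun p hp => (hgA j p hp).1)
    have h2 : (∑ p ∈ A j, g p) ^ (bb j + 1) / (bb j + 1).factorial ≤
        L₀ ^ (bb j + 1) / (bb j + 1).factorial := by
      refine div_le_div_of_nonneg_right ?_ (Nat.cast_nonneg _)
      exact pow_le_pow_left₀ (Finset.sum_nonneg fun p hp => (hgA j p hp).1) (hsumA j) _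
    have h3 := pow_div_factorial_le L₀ hL₀ (bb j + 1)
    refine (h1.trans (h2.trans h3)).trans ?_
    have h4 : Real.exp (-(2 * L₀)) * c j ≤ V j * c j :=
      mul_le_mul_of_nonneg_right (hVpos j) (hc0 j)
    refine le_trans (le_of_eq ?_) h4
    simp only [hc, hbb]
    rw [← Real.exp_add, ← Real.exp_add, ← Real.exp_add]
    congr 1
    push_cast
    ring
  have hys : ∀ j ∈ s, ysum (bb j) g (A j) ≤ V j * (1 + c j) := by
    intro j hj
    have h1 := ysum_le (bb j) (heven j hj) g (A j) (hgA j)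
    have h2 := hes j
    have h3 : ∏ p ∈ A j, (1 - g p) = V j := rfl
    rw [h3] at h1
    linarith
  have hys0 : ∀ j ∈ s, V j ≤ ysum (bb j) g (A j) := fun j hj =>
    ysum_ge (bb j) (heven j hj) g (A j) (hgA j)
  have hcsum : ∑ j ∈ s, c j ≤ Real.exp (-b) / 4 := by
    have h1 : ∀ j ∈ s, c j ≤ Real.exp (-b) / 8 * (1 / 2) ^ j := by
      intro j _
      have he : Real.exp (-1) ≤ 1 / 2 := by
        rw [Real.exp_neg, one_div]
        exact inv_anti₀ (by norm_num) (by linarith [Real.add_one_le_exp (1 : ℝ)])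
      have h2 : c j ≤ Real.exp (-b) * Real.exp (-1) ^ (j + 3) := by
        simp only [hc]
        rw [← Real.exp_nat_mul, ← Real.exp_add, ← Real.exp_add]
        refine Real.exp_le_exp.2 ?_
        push_cast
        have : (0 : ℝ) ≤ j := Nat.cast_nonneg j
        linarith
      refine h2.trans ?_
      have h3 : Real.exp (-1) ^ (j + 3) ≤ (1 / 2) ^ (j + 3) :=
        pow_le_pow_left₀ (Real.exp_pos _).le he _
      have h4 : (1 / 2 : ℝ) ^ (j + 3) = 1 / 8 * (1 / 2) ^ j := by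
        rw [pow_add]; norm_num; ring
      have h5 := mul_le_mul_of_nonneg_left h3 (Real.exp_pos (-(b : ℝ))).le
      rw [h4] at h5
      linarith
    refine (Finset.sum_le_sum h1).trans ?_
    rw [← Finset.mul_sum]
    have h6 : ∑ j ∈ s, (1 / 2 : ℝ) ^ j ≤ 2 := by
      have h7 := geom_sum_eq (x := (1 / 2 : ℝ)) (by norm_num) z
      rw [hs, h7]
      have : 0 < (1 / 2 : ℝ) ^ z := by positivity
      rw [div_le_iff_of_neg (by norm_num)]
      linarith
    have h8 := mul_le_mul_of_nonneg_left h6 (div_nonneg (Real.exp_pos (-(b : ℝ))).le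
      (by norm_num : (0 : ℝ) ≤ 8))
    linarith
  refine ⟨lw s A bb, dw s A bb, lw_abs s A bb, fun d => ?_, fun d hd => ?_, fun B hB => ?_, ?_, ?_⟩
  · exact dw_abs1 s A bb d
  · obtain ⟨h1, h2⟩ := supp s A bb d hd
    rw [hun] at h1
    exact ⟨h1, level P z b hz hP d h1 h2⟩
  · exact lw_sub s A bb heven hdisj B (by rw [hun]; exact hB)
  · rw [← hVprod]
    have h1 := sum_lw s A bb hdisj g
    rw [hun] at h1
    rw [h1]
    exact Finset.prod_le_prod (fun j _ => (hV0 j).le) hys0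
  · have h1 := sum_dw s A bb hdisj g
    rw [hun] at h1
    rw [h1]
    have h2 : ∀ l ∈ s, esum (bb l) g (A l) * ∏ j ∈ s.erase l, ysum (bb j) g (A j) ≤
        c l * ((∏ j ∈ s, V j) * ∏ j ∈ s, (1 + c j)) := by
      intro l hl
      have h3 : ∏ j ∈ s.erase l, ysum (bb j) g (A j) ≤ ∏ j ∈ s.erase l, (V j * (1 + c j)) :=
        Finset.prod_le_prod (fun j hj => (hV0 j).le.trans (hys0 j (Finset.mem_of_mem_erase hj)))
          (fun j hj => hys j (Finset.mem_of_mem_erase hj))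
      have h4 : 0 ≤ ∏ j ∈ s.erase l, (V j * (1 + c j)) :=
        Finset.prod_nonneg fun j _ => mul_nonneg (hV0 j).le (by linarith [hc0 j])
      have h5 : esum (bb l) g (A l) * ∏ j ∈ s.erase l, ysum (bb j) g (A j) ≤
          (V l * c l) * ∏ j ∈ s.erase l, (V j * (1 + c j)) :=
        mul_le_mul (hes l) h3 (Finset.prod_nonneg fun j hj =>
          (hV0 j).le.trans (hys0 j (Finset.mem_of_mem_erase hj)))
          (mul_nonneg (hV0 l).le (hc0 l))
      refine h5.trans ?_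
      have h6 : (∏ j ∈ s, V j) * ∏ j ∈ s, (1 + c j) =
          (V l * (1 + c l)) * ∏ j ∈ s.erase l, (V j * (1 + c j)) := by
        rw [← Finset.prod_mul_distrib]
        exact (Finset.mul_prod_erase s (fun j => V j * (1 + c j)) hl).symm
      rw [h6]
      have h7 : V l * c l ≤ c l * (V l * (1 + c l)) := by
        nlinarith [mul_nonneg (mul_nonneg (hV0 l).le (hc0 l)) (hc0 l)]
      have h8 := mul_le_mul_of_nonneg_right h7 h4
      linarith
    refine (Finset.sum_le_sum h2).trans ?_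
    rw [← Finset.sum_mul, hVprod]
    have hVP : 0 ≤ ∏ p ∈ P, (1 - g p) :=
      Finset.prod_nonneg fun p hp => by linarith [(hg p hp).2]
    have h9 : ∏ j ∈ s, (1 + c j) ≤ 4 := by
      have h10 : ∏ j ∈ s, (1 + c j) ≤ ∏ j ∈ s, Real.exp (c j) :=
        Finset.prod_le_prod (fun j _ => by linarith [hc0 j])
          (fun j _ => by linarith [Real.add_one_le_exp (c j)])
      rw [← Real.exp_sum] at h10
      have h11 : ∑ j ∈ s, c j ≤ 1 := by
        refine hcsum.trans ?_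
        have : Real.exp (-(b : ℝ)) ≤ 1 := Real.exp_le_one_iff.2 (by
          have : (0 : ℝ) ≤ b := Nat.cast_nonneg b
          linarith)
        linarith
      have h12 := Real.exp_le_exp.2 h11
      linarith [Real.exp_one_lt_three]
    have h13 : 0 ≤ ∏ j ∈ s, (1 + c j) := Finset.prod_nonneg fun j _ => by linarith [hc0 j]
    have h14 : (∏ p ∈ P, (1 - g p)) * ∏ j ∈ s, (1 + c j) ≤ (∏ p ∈ P, (1 - g p)) * 4 :=
      mul_le_mul_of_nonneg_left h9 hVP
    calc (∑ j ∈ s, c j) * ((∏ p ∈ P, (1 - g p)) * ∏ j ∈ s, (1 + c j))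
        ≤ (Real.exp (-b) / 4) * ((∏ p ∈ P, (1 - g p)) * 4) :=
          mul_le_mul hcsum h14 (mul_nonneg hVP h13) (by positivity)
      _ = Real.exp (-b) * ∏ p ∈ P, (1 - g p) := by ring

private theorem wts_mu (P : Finset ℕ) (g : ℕ → ℝ) {d : Finset ℕ} (hd : d ⊆ P) :
    ∑ B ∈ P.powerset, (if d ⊆ B then (∏ p ∈ B, g p) * ∏ p ∈ P \ B, (1 - g p) else 0) =
      ∏ p ∈ d, g p := by
  classical
  have h1 := Finset.prod_add g (fun i => if i ∈ d then (0 : ℝ) else 1 - g i) P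
  have h2 : ∏ i ∈ P, (g i + (if i ∈ d then (0 : ℝ) else 1 - g i)) = ∏ p ∈ d, g p := by
    have h3 : ∀ i ∈ P, (g i + (if i ∈ d then (0 : ℝ) else 1 - g i)) =
        if i ∈ d then g i else 1 := by
      intro i _
      split_ifs
      · ring
      · ring
    rw [Finset.prod_congr rfl h3, ← Finset.prod_filter]
    congr 1
    ext i
    rw [Finset.mem_filter]
    exact ⟨fun h => h.2, fun h => ⟨hd h, h⟩⟩
  rw [← h2, h1]
  apply Finset.sum_congr rfl
  intro B hB
  split_ifs with hdB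
  · congr 1
    apply Finset.prod_congr rfl
    intro i hi
    rw [Finset.mem_sdiff] at hi
    rw [if_neg (fun h => hi.2 (hdB h))]
  · symm
    apply mul_eq_zero_of_right
    rw [Finset.not_subset] at hdB
    obtain ⟨i, hid, hiB⟩ := hdB
    exact Finset.prod_eq_zero (Finset.mem_sdiff.2 ⟨hd hid, hiB⟩) (if_pos hid)

private theorem wts_swap (P : Finset ℕ) (g : ℕ → ℝ) (f : Finset ℕ → ℝ) :
    ∑ B ∈ P.powerset, ((∏ p ∈ B, g p) * ∏ p ∈ P \ B, (1 - g p)) * ∑ d ∈ B.powerset, f d =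
      ∑ d ∈ P.powerset, f d * ∏ p ∈ d, g p := by
  classical
  have h1 : ∀ B ∈ P.powerset, ((∏ p ∈ B, g p) * ∏ p ∈ P \ B, (1 - g p)) *
      ∑ d ∈ B.powerset, f d = ∑ d ∈ P.powerset, f d *
        (if d ⊆ B then (∏ p ∈ B, g p) * ∏ p ∈ P \ B, (1 - g p) else 0) := by
    intro B hB
    rw [Finset.mem_powerset] at hB
    rw [Finset.mul_sum]
    have h2 : B.powerset = P.powerset.filter (fun d => d ⊆ B) := by
      ext d
      rw [Finset.mem_filter, Finset.mem_powerset, Finset.mem_powerset]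
      exact ⟨fun h => ⟨h.trans hB, h⟩, fun h => h.2⟩
    rw [h2, Finset.sum_filter]
    apply Finset.sum_congr rfl
    intro d _
    split_ifs
    · ring
    · ring
  rw [Finset.sum_congr rfl h1, Finset.sum_comm]
  apply Finset.sum_congr rfl
  intro d hd
  rw [Finset.mem_powerset] at hd
  rw [← Finset.mul_sum, wts_mu P g hd]

/-- the upper bound of the mean of the upper weights -/
private theorem wts_up (P : Finset ℕ) (g : ℕ → ℝ) (hg : ∀ p ∈ P, 0 ≤ g p ∧ g p ≤ 1)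
    (lp dp : Finset ℕ → ℝ)
    (h : ∀ B ⊆ P, ∑ d ∈ B.powerset, lp d - (if B = ∅ then (1 : ℝ) else 0) ≤
      ∑ d ∈ B.powerset, dp d) :
    ∑ d ∈ P.powerset, lp d * ∏ p ∈ d, g p ≤
      ∏ p ∈ P, (1 - g p) + ∑ d ∈ P.powerset, dp d * ∏ p ∈ d, g p := by
  classical
  rw [← wts_swap P g lp, ← wts_swap P g dp]
  have h1 : ∏ p ∈ P, (1 - g p) = ∑ B ∈ P.powerset,
      ((∏ p ∈ B, g p) * ∏ p ∈ P \ B, (1 - g p)) * (if B = ∅ then (1 : ℝ) else 0) := by
    rw [Finset.sum_eq_single_of_mem ∅ (Finset.empty_mem_powerset P)]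
    · simp
    · intro B _ hB
      rw [if_neg hB, mul_zero]
  rw [h1, ← Finset.sum_add_distrib]
  apply Finset.sum_le_sum
  intro B hB
  rw [Finset.mem_powerset] at hB
  rw [← mul_add]
  apply mul_le_mul_of_nonneg_left
  · have := h B hB
    linarith
  · apply mul_nonneg
    · exact Finset.prod_nonneg fun p hp => (hg p (hB hp)).1
    · exact Finset.prod_nonneg fun p hp => by
        have := (hg p (Finset.mem_sdiff.1 hp).1).2
        linarith

theorem bh2 : ∃ B : ℕ, ∀ y z W : ℕ, 3 ≤ z → ∃ lp dp : Finset ℕ → ℝ,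
    SW (PW y z W) ((z : ℝ) ^ B) (VV (PW y z W)) (1 / 8) lp dp := by
  classical
  obtain ⟨b₀, hb₀⟩ := brun_hooley2 8 (by norm_num)
  refine ⟨4 * max b₀ 3 + 10, ?_⟩
  intro y z W hz
  have hmem : ∀ p ∈ PW y z W, p < z ∧ p.Prime ∧ p ≠ 2 := by
    intro p hp
    unfold PW at hp
    rw [mem_filter, mem_range] at hp
    refine ⟨hp.1, hp.2.1, ?_⟩
    rintro rfl
    exact hp.2.2.2 ⟨W, rfl⟩
  have hsub : PW y z W ⊆ PoolLS.PP z := by
    intro p hp
    obtain ⟨h1, h2, h3⟩ := hmem p hp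
    unfold PoolLS.PP
    rw [mem_filter, mem_range]
    exact ⟨h1, h2, h3⟩
  obtain ⟨lp, dp, h1, h2, h3, h4, h5, h6⟩ := hb₀ (max b₀ 3) (le_max_left _ _) z (PW y z W)
    (fun p => 1 / (p : ℝ)) (by omega) (fun p hp => ⟨(hmem p hp).2.1.two_le, (hmem p hp).1⟩)
    (fun p hp => ⟨by positivity, by
      have h7 : (2 : ℝ) ≤ p := by exact_mod_cast (hmem p hp).2.1.two_le
      exact one_div_le_one_div_of_le (by norm_num) h7⟩)
    (fun x hx => by
      refine le_trans ?_ (PoolLS.win z x hx)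
      refine Finset.sum_le_sum_of_subset_of_nonneg ?_ fun p _ _ => by positivity
      intro p hp
      rw [mem_filter] at hp ⊢
      exact ⟨hsub hp.1, hp.2⟩)
  have hg : ∀ p ∈ PW y z W, 0 ≤ 1 / (p : ℝ) ∧ 1 / (p : ℝ) ≤ 1 := by
    intro p hp
    have h7 : (1 : ℝ) ≤ p := by exact_mod_cast (hmem p hp).2.1.one_lt.le
    refine ⟨by positivity, ?_⟩
    rw [div_le_one (by linarith)]
    exact h7
  have hup := wts_up (PW y z W) (fun p => 1 / (p : ℝ)) hg lp dp (fun B hB => (h4 B hB).2)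
  have hconv : ∀ f : Finset ℕ → ℝ, ∑ d ∈ (PW y z W).powerset, f d / ((∏ p ∈ d, p : ℕ) : ℝ) =
      ∑ d ∈ (PW y z W).powerset, f d * ∏ p ∈ d, (1 / (p : ℝ)) := by
    intro f
    apply Finset.sum_congr rfl
    intro d _
    rw [Nat.cast_prod, Finset.prod_div_distrib, Finset.prod_const_one, mul_one_div]
  have hV : VV (PW y z W) = ∏ p ∈ PW y z W, (1 - 1 / (p : ℝ)) := rfl
  have hV0 : 0 ≤ VV (PW y z W) := by
    rw [hV]
    exact Finset.prod_nonneg fun p hp => by linarith [(hg p hp).2]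
  have hexp : Real.exp (-((max b₀ 3 : ℕ) : ℝ)) ≤ 1 / 8 := by
    have h7 : (3 : ℝ) ≤ ((max b₀ 3 : ℕ) : ℝ) := by exact_mod_cast le_max_right b₀ 3
    have h8 : (8 : ℝ) ≤ Real.exp ((max b₀ 3 : ℕ) : ℝ) := by
      have h9 : (2 : ℝ) ≤ Real.exp 1 := by linarith [Real.add_one_le_exp (1 : ℝ)]
      have h10 : Real.exp 3 = Real.exp 1 ^ 3 := by
        rw [← Real.exp_nat_mul]
        norm_num
      have h11 : (2 : ℝ) ^ 3 ≤ Real.exp 1 ^ 3 := pow_le_pow_left₀ (by norm_num) h9 3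
      have h12 := Real.exp_le_exp.2 h7
      linarith
    rw [Real.exp_neg, one_div]
    exact inv_anti₀ (by norm_num) h8
  have hdh : ∑ d ∈ (PW y z W).powerset, dp d * ∏ p ∈ d, (1 / (p : ℝ)) ≤
      1 / 8 * VV (PW y z W) := by
    refine h6.trans ?_
    rw [hV]
    exact mul_le_mul_of_nonneg_right hexp (by rw [← hV]; exact hV0)
  refine ⟨lp, dp, h1, h2, h3, fun B hB => (h4 B hB).1, fun B hB => (h4 B hB).2, ?_, ?_, ?_, ?_⟩
  · rw [hconv, hV]
    exact h5
  · rw [hconv]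
    rw [← hV] at hup
    linarith
  · rw [hconv]
    rw [← hV] at hup
    rw [← hV] at h5
    linarith
  · rw [hconv]
    exact hdh

end PoolUS
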