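import Mathlib

set_option autoImplicit false

/-!
Module Cnt (size S). Double counting.

PROOF. If more than J/2 of the j < J had more than 2 η M elements n ∈ G with (n,j) ∈ GG, then
#GG > (J/2) (2 η M) = η M J (J ≥ 1, so the number of such j is positive), a contradiction.
-/

namespace PoolUS

open Finset

open Classical in
theorem cnt (G : Finset ℕ) (J : ℕ) (GG : Finset (ℕ × ℕ)) (hGG : GG ⊆ G ×ˢ range J) (η M : ℝ)
    (h0 : 0 ≤ η) (hM : 0 ≤ M) (h : (#GG : ℝ) ≤ η * M * J) :
    (J : ℝ) / 2 ≤ #((range J).filter (fun j =>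
      (#(G.filter (fun n => (n, j) ∈ GG)) : ℝ) ≤ 2 * η * M)) := by
  by_contra hcon
  push Not at hcon
  set S := (range J).filter (fun j => (#(G.filter (fun n => (n, j) ∈ GG)) : ℝ) ≤ 2 * η * M) with hS
  set S' := (range J).filter (fun j => ¬ (#(G.filter (fun n => (n, j) ∈ GG)) : ℝ) ≤ 2 * η * M)
    with hS'
  have hcard : #S + #S' = J := by
    have h1 := Finset.card_filter_add_card_filter_not (s := range J)
      (fun j => (#(G.filter (fun n => (n, j) ∈ GG)) : ℝ) ≤ 2 * η * M)
    rw [card_range] at h1
    exact h1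
  have hcardR : (#S : ℝ) + #S' = J := by exact_mod_cast hcard
  have hS'2 : (J : ℝ) / 2 < #S' := by linarith
  have hne : S'.Nonempty := by
    rw [← Finset.card_pos]
    have h1 : (0 : ℝ) < #S' := lt_of_le_of_lt (by positivity) hS'2
    exact_mod_cast h1
  have hsum : (∑ j ∈ range J, #(G.filter (fun n => (n, j) ∈ GG))) = #GG := by
    have h1 : GG = (range J).biUnion (fun j => (G.filter (fun n => (n, j) ∈ GG)).image
        (fun n => (n, j))) := by
      ext ⟨n, j⟩
      simp only [mem_biUnion, mem_range, mem_image, mem_filter, Prod.mk.injEq]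
      constructor
      · intro hm
        have h2 := hGG hm
        rw [mem_product, mem_range] at h2
        exact ⟨j, h2.2, n, ⟨h2.1, hm⟩, rfl, rfl⟩
      · rintro ⟨j', -, n', ⟨-, hm⟩, rfl, rfl⟩
        exact hm
    have h2 : #((range J).biUnion (fun j => (G.filter (fun n => (n, j) ∈ GG)).image
        (fun n => (n, j)))) = ∑ j ∈ range J, #(G.filter (fun n => (n, j) ∈ GG)) := by
      rw [Finset.card_biUnion]
      · apply Finset.sum_congr rfl
        intro j _
        rw [Finset.card_image_of_injective]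
        intro a b hab
        exact (Prod.mk.inj hab).1
      · intro i _ j _ hij
        rw [Function.onFun, Finset.disjoint_left]
        intro x hx hx2
        rw [mem_image] at hx hx2
        obtain ⟨a, -, ha⟩ := hx
        obtain ⟨b, -, hb⟩ := hx2
        apply hij
        have h3 : x.2 = i := by rw [← ha]
        have h4 : x.2 = j := by rw [← hb]
        rw [← h3, ← h4]
    rw [← h2, ← h1]
  have hlt : (#S' : ℝ) * (2 * η * M) < ∑ j ∈ S', (#(G.filter (fun n => (n, j) ∈ GG)) : ℝ) := by
    have h1 : ∑ j ∈ S', (2 * η * M) < ∑ j ∈ S', (#(G.filter (fun n => (n, j) ∈ GG)) : ℝ) := by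
      apply Finset.sum_lt_sum_of_nonempty hne
      intro j hj
      rw [hS', mem_filter] at hj
      exact not_le.mp hj.2
    rwa [Finset.sum_const, nsmul_eq_mul] at h1
  have hle : ∑ j ∈ S', (#(G.filter (fun n => (n, j) ∈ GG)) : ℝ) ≤ #GG := by
    rw [← hsum]
    push_cast
    apply Finset.sum_le_sum_of_subset_of_nonneg (Finset.filter_subset _ _)
    intro j _ _
    positivity
  have h5 : (J : ℝ) / 2 * (2 * η * M) ≤ (#S' : ℝ) * (2 * η * M) := by
    apply mul_le_mul_of_nonneg_right hS'2.le
    positivity
  have h6 : (J : ℝ) / 2 * (2 * η * M) = η * M * J := by ring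
  linarith

end PoolUS
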