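import Mathlib
import Pool.Agent.Work.MP_c971ef_nt.US.Defs

set_option autoImplicit false

/-!
Module Smf (size M). The smooth part.

PROOF. All by factorizations: for q ≠ 0, (sm y q).factorization p = if p < y then q.factorization p else 0
(`Nat.factorization_prod_pow_eq_self`-type lemma; Nat.prod_pow_factorization_eq_self for a Finsupp supported on
primes: sm y q = (q.factorization.filter (· < y)).prod (· ^ ·)). Then `sm_dvd`, `dvd_sm_iff`, `sm_mul`
(factorization of a product) follow by comparing factorizations (Nat.factorization_le_iff_dvd,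
Nat.eq_of_factorization_eq). `sm_of_lt`: all primes of q are < y. `sm_of_ge`: the filter is empty.
-/

namespace PoolUS

open Finset

private theorem prod_all {q : ℕ} (hq : q ≠ 0) :
    ∏ p ∈ q.primeFactors, p ^ (q.factorization p) = q :=
  Nat.prod_factorization_pow_eq_self hq

/-- the rough part -/
private theorem sm_mul_rest (y : ℕ) {q : ℕ} (hq : q ≠ 0) :
    sm y q * ∏ p ∈ q.primeFactors.filter (fun p => ¬ p < y), p ^ (q.factorization p) = q := by
  unfold sm
  rw [Finset.prod_filter_mul_prod_filter_not]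
  exact prod_all hq

private theorem sm_eq (y q : ℕ) :
    sm y q = ∏ p ∈ (range y).filter Nat.Prime, p ^ (q.factorization p) := by
  unfold sm
  refine Finset.prod_subset ?_ ?_
  · intro p hp
    rw [mem_filter] at hp ⊢
    rw [mem_range]
    exact ⟨hp.2, Nat.prime_of_mem_primeFactors hp.1⟩
  · intro p hp hp'
    rw [mem_filter, mem_range] at hp
    rw [mem_filter, not_and] at hp'
    have h1 : p ∉ q.primeFactors := fun h => hp' h hp.1
    have h2 : q.factorization p = 0 := by
      rw [← Nat.support_factorization, Finsupp.notMem_support_iff] at h1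
      exact h1
    rw [h2, pow_zero]

theorem sm_pos (y q : ℕ) : 1 ≤ sm y q := by
  unfold sm
  refine Nat.one_le_iff_ne_zero.mpr ?_
  rw [Finset.prod_ne_zero_iff]
  intro p hp
  rw [mem_filter] at hp
  exact pow_ne_zero _ (Nat.prime_of_mem_primeFactors hp.1).ne_zero

theorem sm_dvd (y q : ℕ) (hq : q ≠ 0) : sm y q ∣ q :=
  ⟨_, (sm_mul_rest y hq).symm⟩

theorem dvd_sm_iff (y q e : ℕ) (hq : q ≠ 0) (he : e ∣ q) : e ∣ sm y q ↔ ¬ Rough y e := by
  constructor
  · rintro h ⟨p, hp, hy, hpe⟩
    have h1 : p ∣ sm y q := hpe.trans h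
    unfold sm at h1
    obtain ⟨p', hp', h2⟩ := (hp.prime.dvd_finsetProd_iff _).mp h1
    rw [mem_filter] at hp'
    have h3 : p ∣ p' := hp.dvd_of_dvd_pow h2
    have h4 : p = p' := (Nat.prime_dvd_prime_iff_eq hp (Nat.prime_of_mem_primeFactors hp'.1)).mp h3
    have h5 := hp'.2
    omega
  · intro h
    have h1 := sm_mul_rest y hq
    have hcop : Nat.Coprime e
        (∏ p ∈ q.primeFactors.filter (fun p => ¬ p < y), p ^ (q.factorization p)) := by
      rw [Nat.coprime_prod_right_iff]
      intro p hp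
      rw [mem_filter, not_lt] at hp
      have hpp := Nat.prime_of_mem_primeFactors hp.1
      refine Nat.Coprime.pow_right _ ?_
      refine Nat.Coprime.symm ((Nat.Prime.coprime_iff_not_dvd hpp).mpr ?_)
      intro hpe
      exact h ⟨p, hpp, hp.2, hpe⟩
    rw [← h1] at he
    exact hcop.dvd_of_dvd_mul_right he

theorem sm_mul (y a b : ℕ) (ha : a ≠ 0) (hb : b ≠ 0) : sm y (a * b) = sm y a * sm y b := by
  rw [sm_eq, sm_eq, sm_eq, ← Finset.prod_mul_distrib]
  refine Finset.prod_congr rfl (fun p _ => ?_)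
  rw [Nat.factorization_mul ha hb, Finsupp.add_apply, pow_add]

theorem sm_of_lt (y q : ℕ) (hq : q ≠ 0) (h : ∀ p : ℕ, p.Prime → p ∣ q → p < y) : sm y q = q := by
  unfold sm
  rw [Finset.filter_true_of_mem (fun p hp => h p (Nat.prime_of_mem_primeFactors hp)
    (Nat.dvd_of_mem_primeFactors hp))]
  exact prod_all hq

theorem sm_of_ge (y q : ℕ) (h : ∀ p : ℕ, p.Prime → p ∣ q → y ≤ p) : sm y q = 1 := by
  unfold sm
  rw [Finset.filter_false_of_mem (fun p hp => not_lt.mpr (h p (Nat.prime_of_mem_primeFactors hp)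
    (Nat.dvd_of_mem_primeFactors hp))), Finset.prod_empty]

end PoolUS
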