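import Mathlib
import Pool.Agent.Work.MP_c971ef_nt.US.Smf
import Pool.Agent.Work.MP_c971ef_nt.LS.Grp

set_option autoImplicit false

/-!
Module Dec (size S-M). Counting function = smooth part + rough part.

PROOF. `PoolLS.detect n m r` gives for every n ≥ 1:
(zc U n b : ℂ) = ∑_{u ∈ U} [u ≡ b mod n] = (1/n) ∑_{e ∣ n} UE U e b (exchange the sums over u and e, a).
Use it for n = Q and for n = sm y Q =: g. The divisors e of Q that are not Rough are exactly the divisors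
of g (`dvd_sm_iff`, `sm_dvd`), so (1/Q) ∑_{e ∣ Q, not rough} UE U e b = (g/Q) zc U g b.
-/

namespace PoolUS

open Finset

private theorem zc_eq (U : Finset ℕ) (n b : ℕ) (hn : 1 ≤ n) :
    (zc U n b : ℂ) = (1 / (n : ℂ)) * ∑ e ∈ n.divisors, UE U e b := by
  have h1 : (zc U n b : ℂ) = ∑ u ∈ U, (if u ≡ b [MOD n] then (1 : ℂ) else 0) := by
    unfold zc
    rw [Finset.sum_boole]
  rw [h1]
  have h2 : ∀ u ∈ U, (if u ≡ b [MOD n] then (1 : ℂ) else 0) =
      (1 / (n : ℂ)) * ∑ e ∈ n.divisors, ∑ a ∈ (range e).filter (fun a => Nat.Coprime a e),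
        PoolLS.ef e a u * (starRingEnd ℂ) (PoolLS.ef e a b) := by
    intro u _
    exact PoolLS.detect n u b hn
  rw [Finset.sum_congr rfl h2, ← Finset.mul_sum]
  congr 1
  rw [Finset.sum_comm]
  refine Finset.sum_congr rfl fun e _ => ?_
  rw [Finset.sum_comm]
  unfold UE TT
  refine Finset.sum_congr rfl fun a _ => ?_
  rw [Finset.sum_mul]

open Classical in
theorem dec (U : Finset ℕ) (y Q b : ℕ) (hQ : 1 ≤ Q) :
    (zc U Q b : ℂ) = (sm y Q : ℂ) / Q * zc U (sm y Q) b +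
      (1 / (Q : ℂ)) * ∑ e ∈ Q.divisors.filter (fun e => Rough y e), UE U e b := by
  have hQ0 : Q ≠ 0 := by omega
  have hg : 1 ≤ sm y Q := sm_pos y Q
  have hQc : (Q : ℂ) ≠ 0 := by exact_mod_cast hQ0
  have hgc : (sm y Q : ℂ) ≠ 0 := by
    have : sm y Q ≠ 0 := by omega
    exact_mod_cast this
  rw [zc_eq U (sm y Q) b hg, zc_eq U Q b hQ]
  have hdiv : (sm y Q).divisors = Q.divisors.filter (fun e => ¬ Rough y e) := by
    ext e
    rw [Nat.mem_divisors, Finset.mem_filter, Nat.mem_divisors]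
    constructor
    · rintro ⟨h1, _⟩
      have h2 : e ∣ Q := h1.trans (sm_dvd y Q hQ0)
      exact ⟨⟨h2, hQ0⟩, (dvd_sm_iff y Q e hQ0 h2).1 h1⟩
    · rintro ⟨⟨h1, _⟩, h2⟩
      exact ⟨(dvd_sm_iff y Q e hQ0 h1).2 h2, by omega⟩
  rw [hdiv, ← Finset.sum_filter_add_sum_filter_not Q.divisors (fun e => Rough y e)]
  field_simp
  ring

end PoolUS
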