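import Mathlib
import Pool.Agent.Work.MP_c971ef_nt.US.Defs

set_option autoImplicit false

/-!
Module Lone (size S-M). One-sided bounds for all classes mod g give an L^1 bound.

PROOF. x_b := g zc U g b - #U for b < g. ∑_{b<g} zc U g b = #U, so ∑_b x_b = 0; x_b ≤ #U (H - 1). Hence
∑_b |x_b| = 2 ∑_b max(x_b,0) ≤ 2 g #U (H - 1). For j in range J the class of j + r mod g is b for at most
J/g + 1 ≤ 2J/g values of j (g ≤ J) (`Nat.count_modEq_card` or a direct bound), so the sum over j is
≤ (2J/g) · 2 g #U (H-1) = 4 J #U (H-1).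
-/

namespace PoolUS

open Finset

private theorem lone_zc (U : Finset ℕ) (g b : ℕ) : zc U g (b % g) = zc U g b := by
  unfold zc
  congr 1
  ext u
  simp only [mem_filter]
  constructor
  · rintro ⟨h1, h2⟩
    exact ⟨h1, h2.trans (Nat.mod_modEq b g)⟩
  · rintro ⟨h1, h2⟩
    exact ⟨h1, h2.trans (Nat.mod_modEq b g).symm⟩

private theorem lone_sum (U : Finset ℕ) {g : ℕ} (hg : 1 ≤ g) :
    ∑ b ∈ range g, zc U g b = #U := by
  have h := Finset.card_eq_sum_card_fiberwise (f := fun u : ℕ => u % g) (s := U) (t := range g)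
    (fun u _ => by
      rw [mem_coe, mem_range]
      exact Nat.mod_lt _ hg)
  rw [h]
  refine Finset.sum_congr rfl (fun b hb => ?_)
  rw [mem_range] at hb
  unfold zc
  congr 1
  ext u
  simp only [mem_filter]
  unfold Nat.ModEq
  rw [Nat.mod_eq_of_lt hb]

private theorem lone_count (g J r b : ℕ) :
    #((range J).filter (fun j => (j + r) % g = b)) ≤ J / g + 1 := by
  have h : #((range J).filter (fun j => (j + r) % g = b)) ≤ #(range (J / g + 1)) := by
    refine Finset.card_le_card_of_injOn (fun j => j / g) ?_ ?_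
    · intro j hj
      rw [mem_coe, mem_filter, mem_range] at hj
      rw [mem_coe, mem_range]
      have := Nat.div_le_div_right (c := g) hj.1.le
      show j / g < J / g + 1
      omega
    · intro j hj j' hj' hjj
      rw [mem_coe, mem_filter] at hj hj'
      have h1 : j + r ≡ j' + r [MOD g] := hj.2.trans hj'.2.symm
      have h2 : j ≡ j' [MOD g] := Nat.ModEq.add_right_cancel' r h1
      have h3 : j / g = j' / g := hjj
      rw [← Nat.div_add_mod j g, ← Nat.div_add_mod j' g, h3, h2]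
  rwa [card_range] at h

theorem lone (U : Finset ℕ) (g J r : ℕ) (H : ℝ) (hg : 1 ≤ g) (hgJ : g ≤ J) (hH : 1 ≤ H)
    (h : ∀ b, (zc U g b : ℝ) * g ≤ #U * H) :
    ∑ j ∈ range J, |(g : ℝ) * zc U g (j + r) - #U| ≤ 4 * J * #U * (H - 1) := by
  have hg0 : (0 : ℝ) < g := by exact_mod_cast hg
  have hU0 : (0 : ℝ) ≤ #U := Nat.cast_nonneg _
  -- sum over the classes
  have hs : ∑ b ∈ range g, ((g : ℝ) * zc U g b - #U) = 0 := by
    rw [Finset.sum_sub_distrib, ← Finset.mul_sum, Finset.sum_const, card_range, nsmul_eq_mul]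
    have : ((∑ b ∈ range g, zc U g b : ℕ) : ℝ) = #U := by rw [lone_sum U hg]
    push_cast at this
    rw [this]
    ring
  have habs : ∑ b ∈ range g, |(g : ℝ) * zc U g b - #U| ≤ 2 * (g * (#U * (H - 1))) := by
    have e : ∀ b ∈ range g, |(g : ℝ) * zc U g b - #U| ≤
        2 * (#U * (H - 1)) - ((g : ℝ) * zc U g b - #U) := by
      intro b _
      have h1 := h b
      have h2 : (g : ℝ) * zc U g b - #U ≤ #U * (H - 1) := by nlinarith
      have h3 : 0 ≤ (#U : ℝ) * (H - 1) := mul_nonneg hU0 (by linarith)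
      rcases abs_cases ((g : ℝ) * zc U g b - #U) with h4 | h4
      · rw [h4.1]; linarith
      · rw [h4.1]; linarith
    refine (Finset.sum_le_sum e).trans (le_of_eq ?_)
    rw [Finset.sum_sub_distrib, hs, Finset.sum_const, card_range, nsmul_eq_mul]
    ring
  -- sum over j
  have hfib : ∑ j ∈ range J, |(g : ℝ) * zc U g (j + r) - #U| =
      ∑ b ∈ range g, ∑ j ∈ (range J).filter (fun j => (j + r) % g = b),
        |(g : ℝ) * zc U g (j + r) - #U| := by
    refine (Finset.sum_fiberwise_of_maps_to (fun j _ => ?_) _).symm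
    rw [mem_range]
    exact Nat.mod_lt _ hg
  rw [hfib]
  have hb : ∀ b ∈ range g, ∑ j ∈ (range J).filter (fun j => (j + r) % g = b),
      |(g : ℝ) * zc U g (j + r) - #U| ≤ ((J / g + 1 : ℕ) : ℝ) * |(g : ℝ) * zc U g b - #U| := by
    intro b _
    have e : ∀ j ∈ (range J).filter (fun j => (j + r) % g = b),
        |(g : ℝ) * zc U g (j + r) - #U| = |(g : ℝ) * zc U g b - #U| := by
      intro j hj
      rw [mem_filter] at hj
      rw [← lone_zc U g (j + r), hj.2]
    rw [Finset.sum_congr rfl e, Finset.sum_const, nsmul_eq_mul]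
    refine mul_le_mul_of_nonneg_right ?_ (abs_nonneg _)
    exact_mod_cast lone_count g J r b
  refine (Finset.sum_le_sum hb).trans ?_
  rw [← Finset.mul_sum]
  have hJg : ((J / g + 1 : ℕ) : ℝ) * g ≤ 2 * J := by
    have h1 : (J / g + 1) * g ≤ 2 * J := by
      rw [add_mul, one_mul]
      have := Nat.div_mul_le_self J g
      omega
    exact_mod_cast h1
  have h3 : 0 ≤ (#U : ℝ) * (H - 1) := mul_nonneg hU0 (by linarith)
  calc ((J / g + 1 : ℕ) : ℝ) * ∑ b ∈ range g, |(g : ℝ) * zc U g b - #U|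
      ≤ ((J / g + 1 : ℕ) : ℝ) * (2 * (g * (#U * (H - 1)))) :=
        mul_le_mul_of_nonneg_left habs (Nat.cast_nonneg _)
    _ = 2 * ((((J / g + 1 : ℕ) : ℝ) * g) * (#U * (H - 1))) := by ring
    _ ≤ 2 * ((2 * J) * (#U * (H - 1))) := by
        refine mul_le_mul_of_nonneg_left ?_ (by norm_num)
        exact mul_le_mul_of_nonneg_right hJg h3
    _ = 4 * J * #U * (H - 1) := by ring

end PoolUS
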