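import Mathlib
import Pool.Agent.Work.MP_c971ef_nt.US.Defs

set_option autoImplicit false

/-!
Module Sid (size M). The sifted count as a sum over classes.

PROOF. `kk_spec`: for D prime to 2W (D ≥ 1) D ∣ 2 W kk + 1: in ZMod D, (2W) * (-(2W)⁻¹) = -1 as 2W is a unit
(ZMod.natCast_zmod_val, ZMod.mul_inv_of_unit / ZMod.coe_mul_inv_eq_one; D = 1 trivial, NeZero D).
`kk_mod`: if D₁ ∣ D, then kk W D ≡ kk W D₁ mod D₁: both satisfy D₁ ∣ 2 W k + 1, subtract and cancel 2W.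
`sid`: u ↦ for fixed u > j with n ∣ u - j, k = (u - j)/n, d₁ ⊆ {p ∈ P₁ : p ∣ 2Wk+1} and d₂ likewise iff
D := ∏ d₁ · ∏ d₂ ∣ 2Wk+1 (distinct primes, P₁, P₂ disjoint) iff k ≡ kk W D mod D (2W prime to D) iff
u ≡ j + n kk W D mod n D (together with n ∣ u - j, which follows from this congruence). So after exchanging
the sums (sum over u ∈ U last) one gets F d₁ d₂ · zc U (n D) (j + n kk).
-/

namespace PoolUS

open Finset

theorem kk_spec (W D : ℕ) (hD : 1 ≤ D) (h : Nat.Coprime (2 * W) D) : D ∣ 2 * (W * kk W D) + 1 := by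
  have : NeZero D := ⟨by omega⟩
  rw [← ZMod.natCast_eq_zero_iff]
  have h1 : ((kk W D : ℕ) : ZMod D) = -((2 * W : ℕ) : ZMod D)⁻¹ := by
    unfold kk
    exact ZMod.natCast_zmod_val _
  have h2 : ((2 * W : ℕ) : ZMod D) * ((2 * W : ℕ) : ZMod D)⁻¹ = 1 := ZMod.coe_mul_inv_eq_one _ h
  have h3 : (2 * (W * kk W D) + 1 : ℕ) = (2 * W) * kk W D + 1 := by ring
  rw [h3, Nat.cast_add, Nat.cast_mul (2 * W) (kk W D), h1, mul_neg, h2, Nat.cast_one, neg_add_cancel]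

private theorem canc (W D a b : ℕ) (h : Nat.Coprime (2 * W) D) (ha : D ∣ 2 * (W * a) + 1)
    (hb : D ∣ 2 * (W * b) + 1) : a ≡ b [MOD D] := by
  have h1 : 2 * (W * a) + 1 ≡ 2 * (W * b) + 1 [MOD D] :=
    ((Nat.modEq_zero_iff_dvd).2 ha).trans ((Nat.modEq_zero_iff_dvd).2 hb).symm
  have h2 : 2 * (W * a) ≡ 2 * (W * b) [MOD D] := Nat.ModEq.add_right_cancel' 1 h1
  have h3 : (2 * W) * a ≡ (2 * W) * b [MOD D] := by
    rw [mul_assoc, mul_assoc]; exact h2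
  refine Nat.ModEq.cancel_left_of_coprime ?_ h3
  exact h.symm

theorem kk_mod (W D D₁ : ℕ) (hD : 1 ≤ D) (h : Nat.Coprime (2 * W) D) (h1 : D₁ ∣ D) :
    kk W D ≡ kk W D₁ [MOD D₁] := by
  have hD1 : 1 ≤ D₁ := Nat.pos_of_dvd_of_pos h1 hD
  have hc : Nat.Coprime (2 * W) D₁ := Nat.Coprime.coprime_dvd_right h1 h
  exact canc W D₁ _ _ hc (h1.trans (kk_spec W D hD h)) (kk_spec W D₁ hD1 hc)

private theorem keyeq (W D n j u : ℕ) (hn : 1 ≤ n) (hD : 1 ≤ D) (h : Nat.Coprime (2 * W) D)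
    (hu : j < u) :
    (n ∣ u - j ∧ D ∣ 2 * (W * ((u - j) / n)) + 1) ↔ u ≡ j + n * kk W D [MOD n * D] := by
  constructor
  · rintro ⟨⟨k, hk⟩, hd⟩
    have hk2 : (u - j) / n = k := by rw [hk]; exact Nat.mul_div_cancel_left k (by omega)
    rw [hk2] at hd
    have hc := canc W D _ _ h hd (kk_spec W D hD h)
    have hu2 : u = j + n * k := by omega
    rw [hu2]
    exact Nat.ModEq.add_left j (Nat.ModEq.mul_left' n hc)
  · intro hm
    have h1 : u ≡ j + n * kk W D [MOD n] := Nat.ModEq.of_mul_right D hm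
    have h2 : j + n * kk W D ≡ j [MOD n] := by
      have : n * kk W D ≡ 0 [MOD n] := (Nat.modEq_zero_iff_dvd).2 (Dvd.intro _ rfl)
      exact Nat.ModEq.add_left j this
    have h3 : n ∣ u - j := (Nat.modEq_iff_dvd' hu.le).1 (h1.trans h2).symm
    refine ⟨h3, ?_⟩
    obtain ⟨k, hk⟩ := h3
    have hk2 : (u - j) / n = k := by rw [hk]; exact Nat.mul_div_cancel_left k (by omega)
    have hu2 : u = j + n * k := by omega
    rw [hk2]
    rw [hu2] at hm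
    have h4 : n * k ≡ n * kk W D [MOD n * D] := Nat.ModEq.add_left_cancel' j hm
    have h5 : k ≡ kk W D [MOD D] := Nat.ModEq.mul_left_cancel' (by omega) h4
    have h6 : 2 * (W * k) + 1 ≡ 2 * (W * kk W D) + 1 [MOD D] :=
      Nat.ModEq.add_right 1 (Nat.ModEq.mul_left 2 (Nat.ModEq.mul_left W h5))
    exact (Nat.modEq_zero_iff_dvd).1 (h6.trans ((Nat.modEq_zero_iff_dvd).2 (kk_spec W D hD h)))

private theorem copdvd {a b N : ℕ} (h : Nat.Coprime a b) : a * b ∣ N ↔ a ∣ N ∧ b ∣ N :=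
  ⟨fun hd => ⟨(Dvd.intro _ rfl).trans hd, (Dvd.intro_left _ rfl).trans hd⟩,
    fun hd => Nat.Coprime.mul_dvd_of_dvd_of_dvd h hd.1 hd.2⟩

private theorem prodprime (N : ℕ) : ∀ d : Finset ℕ, (∀ p ∈ d, p.Prime) →
    ((∏ p ∈ d, p) ∣ N ↔ ∀ p ∈ d, p ∣ N) := by
  intro d
  induction d using Finset.induction_on with
  | empty => intro _; simp
  | insert a s ha ih =>
    intro hp
    rw [Finset.prod_insert ha]
    have hs : ∀ p ∈ s, p.Prime := fun p h => hp p (Finset.mem_insert_of_mem h)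
    have hap : a.Prime := hp a (Finset.mem_insert_self _ _)
    have hc : Nat.Coprime a (∏ p ∈ s, p) := by
      refine Nat.Coprime.prod_right ?_
      intro p hps
      exact (Nat.coprime_primes hap (hs p hps)).2 (fun h => ha (h ▸ hps))
    rw [copdvd hc, ih hs]
    simp

private theorem pow_filter (P : Finset ℕ) (hP : ∀ p ∈ P, p.Prime) (N : ℕ) :
    (P.filter (fun p => p ∣ N)).powerset = P.powerset.filter (fun d => (∏ p ∈ d, p) ∣ N) := by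
  ext d
  rw [Finset.mem_powerset, Finset.mem_filter, Finset.mem_powerset, Finset.subset_iff]
  constructor
  · intro h
    have h1 : d ⊆ P := fun p hp => (Finset.mem_filter.1 (h hp)).1
    exact ⟨h1, (prodprime N d (fun p hp => hP p (h1 hp))).2 (fun p hp => (Finset.mem_filter.1 (h hp)).2)⟩
  · rintro ⟨h1, h2⟩ p hp
    exact Finset.mem_filter.2 ⟨h1 hp, (prodprime N d (fun p hp => hP p (h1 hp))).1 h2 p hp⟩

theorem sid (U : Finset ℕ) (W : ℕ) (P₁ P₂ : Finset ℕ) (F : Finset ℕ → Finset ℕ → ℝ) (n j : ℕ)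
    (hn : 1 ≤ n) (hU : ∀ u ∈ U, j < u) (h1 : ∀ p ∈ P₁, p.Prime ∧ ¬ p ∣ 2 * W)
    (h2 : ∀ p ∈ P₂, p.Prime ∧ ¬ p ∣ 2 * W) (h12 : Disjoint P₁ P₂) :
    SN U W P₁ P₂ F n j = ∑ d₁ ∈ P₁.powerset, ∑ d₂ ∈ P₂.powerset,
      F d₁ d₂ * zc U (n * ((∏ p ∈ d₁, p) * ∏ p ∈ d₂, p))
        (j + n * kk W ((∏ p ∈ d₁, p) * ∏ p ∈ d₂, p)) := by
  unfold SN
  have e1 : ∀ u ∈ U.filter (fun u => n ∣ u - j),
      ∑ d₁ ∈ (P₁.filter (fun p => p ∣ 2 * (W * ((u - j) / n)) + 1)).powerset,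
        ∑ d₂ ∈ (P₂.filter (fun p => p ∣ 2 * (W * ((u - j) / n)) + 1)).powerset, F d₁ d₂
      = ∑ d₁ ∈ P₁.powerset, ∑ d₂ ∈ P₂.powerset,
          if ((∏ p ∈ d₁, p) ∣ 2 * (W * ((u - j) / n)) + 1 ∧ (∏ p ∈ d₂, p) ∣ 2 * (W * ((u - j) / n)) + 1)
          then F d₁ d₂ else 0 := by
    intro u _
    rw [pow_filter P₁ (fun p hp => (h1 p hp).1), pow_filter P₂ (fun p hp => (h2 p hp).1),
      Finset.sum_filter]
    refine Finset.sum_congr rfl (fun d₁ _ => ?_)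
    by_cases hd : (∏ p ∈ d₁, p) ∣ 2 * (W * ((u - j) / n)) + 1
    · rw [if_pos hd, Finset.sum_filter]
      refine Finset.sum_congr rfl (fun d₂ _ => ?_)
      by_cases hd2 : (∏ p ∈ d₂, p) ∣ 2 * (W * ((u - j) / n)) + 1
      · rw [if_pos hd2, if_pos ⟨hd, hd2⟩]
      · rw [if_neg hd2, if_neg (fun h => hd2 h.2)]
    · rw [if_neg hd]
      refine (Finset.sum_eq_zero (fun d₂ _ => ?_)).symm
      rw [if_neg (fun h => hd h.1)]
  rw [Finset.sum_congr rfl e1, Finset.sum_comm]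
  refine Finset.sum_congr rfl (fun d₁ hd₁ => ?_)
  rw [Finset.sum_comm]
  refine Finset.sum_congr rfl (fun d₂ hd₂ => ?_)
  rw [Finset.mem_powerset] at hd₁ hd₂
  have hD0 : ∀ (d P : Finset ℕ), d ⊆ P → (∀ p ∈ P, p.Prime ∧ ¬ p ∣ 2 * W) →
      1 ≤ (∏ p ∈ d, p) ∧ Nat.Coprime (2 * W) (∏ p ∈ d, p) := by
    intro d P hd hP
    refine ⟨Finset.prod_pos (fun p hp => (hP p (hd hp)).1.pos), ?_⟩
    refine Nat.Coprime.prod_right (fun p hp => ?_)
    exact ((Nat.Prime.coprime_iff_not_dvd (hP p (hd hp)).1).2 (hP p (hd hp)).2).symm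
  obtain ⟨p1, c1⟩ := hD0 d₁ P₁ hd₁ h1
  obtain ⟨p2, c2⟩ := hD0 d₂ P₂ hd₂ h2
  have hcop : Nat.Coprime (∏ p ∈ d₁, p) (∏ p ∈ d₂, p) := by
    refine Nat.Coprime.prod_left (fun p hp => Nat.Coprime.prod_right (fun r hr => ?_))
    refine (Nat.coprime_primes (h1 p (hd₁ hp)).1 (h2 r (hd₂ hr)).1).2 (fun h => ?_)
    subst h
    exact (Finset.disjoint_left.1 h12) (hd₁ hp) (hd₂ hr)
  have hDp : 1 ≤ (∏ p ∈ d₁, p) * ∏ p ∈ d₂, p := Nat.mul_pos p1 p2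
  have hDc : Nat.Coprime (2 * W) ((∏ p ∈ d₁, p) * ∏ p ∈ d₂, p) := Nat.Coprime.mul_right c1 c2
  rw [← Finset.sum_filter, Finset.sum_const, nsmul_eq_mul, mul_comm]
  congr 1
  unfold zc
  norm_cast
  congr 1
  ext u
  rw [Finset.mem_filter, Finset.mem_filter, Finset.mem_filter]
  constructor
  · rintro ⟨⟨hu, hd⟩, hx, hy⟩
    refine ⟨hu, (keyeq W _ n j u hn hDp hDc (hU u hu)).1 ⟨hd, ?_⟩⟩
    exact (copdvd hcop).2 ⟨hx, hy⟩
  · rintro ⟨hu, hm⟩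
    obtain ⟨hd, hD⟩ := (keyeq W _ n j u hn hDp hDc (hU u hu)).2 hm
    obtain ⟨hx, hy⟩ := (copdvd hcop).1 hD
    exact ⟨⟨hu, hd⟩, hx, hy⟩

end PoolUS
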