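import Mathlib
import Pool.Agent.Work.MP_c971ef_nt.US.Lone
import Pool.Agent.Work.MP_c971ef_nt.US.Smf
import Pool.Agent.Work.MP_c971ef_nt.US.Sid

set_option autoImplicit false

/-!
Module Dev (size M-L). The smooth part of the main term, compared with its mean, for one n.

PROOF. For d₁ ⊆ P₁, d₂ ⊆ P₂ put D₁ = ∏ d₁ (primes < y), D₂ = ∏ d₂ (primes ≥ y), Q = n D₁ D₂. Then
g := sm y Q = sm y n · D₁ (`sm_mul`, `sm_of_lt`, `sm_of_ge`) divides n D₁, and n kk W (D₁ D₂) ≡ n kk W D₁ mod n D₁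
(`kk_mod` with D₁ ∣ D₁ D₂, multiplied by n), so zc U g (j + n kk W (D₁D₂)) = zc U g (j + n kk W D₁) =: zc' (zc depends
on the residue mod g only). Hence the (d₁,d₂) term is lam d₁ d₂ · x(d₁,j)/(n D₁ D₂), x = g zc' - #U, and the sum
over d₂ factors: it is (1/n) ∑_{d₁} (x(d₁,j)/D₁) (lp₁ d₁ A₂ - dp₁ d₁ A₂ - lp₁ d₁ E₂), A₂ = ∑ lp₂/∏ ∈ [0, 9/8 V₂],
E₂ = ∑ dp₂/∏ ∈ [0, V₂/8] (fields lo, hi, d0, dh; V₂ ≥ 0 from d0, dh). The bracket is ≤ 3 V₂ in absolute value and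
vanishes unless lp₁ d₁ ≠ 0 or dp₁ d₁ ≠ 0, and then D₁ ≤ D₁max, 1 ≤ g ≤ G₀ D₁max ≤ J, so `lone` gives
∑_j |x(d₁,j)| ≤ 4 J #U (H - 1). Sum over d₁ of 1/D₁ over all subsets = PI P₁ (Finset.prod_one_add or prod_add).
-/

namespace PoolUS

open Finset

private theorem zc_congr (U : Finset ℕ) (g b c : ℕ) (h : b ≡ c [MOD g]) : zc U g b = zc U g c := by
  unfold zc
  congr 1
  apply filter_congr
  intro u _
  exact ⟨fun hu => hu.trans h, fun hu => hu.trans h.symm⟩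

private theorem prod_pos' (P d : Finset ℕ) (hP : ∀ p ∈ P, p.Prime) (hd : d ⊆ P) :
    1 ≤ ∏ p ∈ d, p :=
  Nat.one_le_iff_ne_zero.2 (prod_ne_zero_iff.2 fun p hp => (hP p (hd hp)).ne_zero)

private theorem prime_dvd_prod (P d : Finset ℕ) (hP : ∀ p ∈ P, p.Prime) (hd : d ⊆ P) (q : ℕ)
    (hq : q.Prime) (h : q ∣ ∏ p ∈ d, p) : q ∈ P := by
  rw [Prime.dvd_finsetProd_iff hq.prime] at h
  obtain ⟨p, hp, h⟩ := h
  rw [(Nat.prime_dvd_prime_iff_eq hq (hP p (hd hp))).1 h]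
  exact hd hp

private theorem cop_prod (W : ℕ) (P d : Finset ℕ) (hP : ∀ p ∈ P, p.Prime ∧ ¬ p ∣ 2 * W)
    (hd : d ⊆ P) : Nat.Coprime (2 * W) (∏ p ∈ d, p) :=
  Nat.Coprime.prod_right fun p hp =>
    ((Nat.Prime.coprime_iff_not_dvd (hP p (hd hp)).1).2 (hP p (hd hp)).2).symm

private theorem sum_inv (P : Finset ℕ) :
    ∑ d ∈ P.powerset, 1 / ((∏ p ∈ d, p : ℕ) : ℝ) = PI P := by
  unfold PI
  rw [Finset.prod_one_add]
  apply sum_congr rfl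
  intro d _
  rw [Nat.cast_prod, one_div, ← prod_inv_distrib]
  exact prod_congr rfl fun p _ => by rw [one_div]

theorem dev (U : Finset ℕ) (W n J y : ℕ) (P₁ P₂ : Finset ℕ) (D₁ D₂ V₁ V₂ H G₀ : ℝ)
    (lp₁ dp₁ lp₂ dp₂ : Finset ℕ → ℝ) (hs₁ : SW P₁ D₁ V₁ (1 / 8) lp₁ dp₁)
    (hs₂ : SW P₂ D₂ V₂ (1 / 8) lp₂ dp₂) (hn : 1 ≤ n)
    (h1 : ∀ p ∈ P₁, p.Prime ∧ p < y ∧ ¬ p ∣ 2 * W) (h2 : ∀ p ∈ P₂, p.Prime ∧ y ≤ p ∧ ¬ p ∣ 2 * W)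
    (hG : (sm y n : ℝ) ≤ G₀) (hGJ : G₀ * D₁ ≤ J) (hH : 1 ≤ H)
    (hE : ∀ g b : ℕ, 1 ≤ g → (g : ℝ) ≤ G₀ * D₁ → (zc U g b : ℝ) * g ≤ #U * H) :
    ∑ j ∈ range J, |∑ d₁ ∈ P₁.powerset, ∑ d₂ ∈ P₂.powerset, lam lp₁ dp₁ lp₂ dp₂ d₁ d₂ *
      ((sm y (n * ((∏ p ∈ d₁, p) * ∏ p ∈ d₂, p)) : ℝ) / ((n * ((∏ p ∈ d₁, p) * ∏ p ∈ d₂, p) : ℕ) : ℝ) *
        zc U (sm y (n * ((∏ p ∈ d₁, p) * ∏ p ∈ d₂, p)))
          (j + n * kk W ((∏ p ∈ d₁, p) * ∏ p ∈ d₂, p)) -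
        #U / ((n * ((∏ p ∈ d₁, p) * ∏ p ∈ d₂, p) : ℕ) : ℝ))| ≤
      12 * V₂ * PI P₁ * J * #U * (H - 1) / n := by
  have hP1 : ∀ p ∈ P₁, p.Prime := fun p hp => (h1 p hp).1
  have hP2 : ∀ p ∈ P₂, p.Prime := fun p hp => (h2 p hp).1
  have hn0 : n ≠ 0 := by omega
  have hnR : (0 : ℝ) < n := by exact_mod_cast hn
  set A : ℝ := ∑ d ∈ P₂.powerset, lp₂ d / ((∏ p ∈ d, p : ℕ) : ℝ) with hA
  set E : ℝ := ∑ d ∈ P₂.powerset, dp₂ d / ((∏ p ∈ d, p : ℕ) : ℝ) with hEd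
  have hE0 : 0 ≤ E := hs₂.d0
  have hE1 : E ≤ 1 / 8 * V₂ := hs₂.dh
  have hV0 : 0 ≤ V₂ := by linarith
  have hA0 : V₂ ≤ A := hs₂.lo
  have hA1 : A ≤ (1 + 1 / 8) * V₂ := hs₂.hi
  let x : Finset ℕ → ℕ → ℝ := fun d₁ j =>
    ((sm y n * (∏ p ∈ d₁, p) : ℕ) : ℝ) *
      zc U (sm y n * (∏ p ∈ d₁, p)) (j + n * kk W (∏ p ∈ d₁, p)) - #U
  let c : Finset ℕ → ℝ := fun d₁ => lp₁ d₁ * A - dp₁ d₁ * A - lp₁ d₁ * E
  have hsm1 : 1 ≤ sm y n := sm_pos y n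
  -- the inner sum
  have hterm : ∀ j, ∀ d₁ ∈ P₁.powerset, ∀ d₂ ∈ P₂.powerset, lam lp₁ dp₁ lp₂ dp₂ d₁ d₂ *
      ((sm y (n * ((∏ p ∈ d₁, p) * ∏ p ∈ d₂, p)) : ℝ) / ((n * ((∏ p ∈ d₁, p) * ∏ p ∈ d₂, p) : ℕ) : ℝ) *
        zc U (sm y (n * ((∏ p ∈ d₁, p) * ∏ p ∈ d₂, p)))
          (j + n * kk W ((∏ p ∈ d₁, p) * ∏ p ∈ d₂, p)) -
        #U / ((n * ((∏ p ∈ d₁, p) * ∏ p ∈ d₂, p) : ℕ) : ℝ)) =
      (x d₁ j / (n * ((∏ p ∈ d₁, p : ℕ) : ℝ))) *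
        ((lp₁ d₁ - dp₁ d₁) * (lp₂ d₂ / ((∏ p ∈ d₂, p : ℕ) : ℝ)) -
          lp₁ d₁ * (dp₂ d₂ / ((∏ p ∈ d₂, p : ℕ) : ℝ))) := by
    intro j d₁ hd₁ d₂ hd₂
    rw [mem_powerset] at hd₁ hd₂
    have ha := prod_pos' P₁ d₁ hP1 hd₁
    have hb := prod_pos' P₂ d₂ hP2 hd₂
    have hca := cop_prod W P₁ d₁ (fun p hp => ⟨(h1 p hp).1, (h1 p hp).2.2⟩) hd₁
    have hcb := cop_prod W P₂ d₂ (fun p hp => ⟨(h2 p hp).1, (h2 p hp).2.2⟩) hd₂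
    have hsa : sm y (∏ p ∈ d₁, p) = ∏ p ∈ d₁, p :=
      sm_of_lt y _ (by omega) fun q hq hqd => (h1 q (prime_dvd_prod P₁ d₁ hP1 hd₁ q hq hqd)).2.1
    have hsb : sm y (∏ p ∈ d₂, p) = 1 :=
      sm_of_ge y _ fun q hq hqd => (h2 q (prime_dvd_prod P₂ d₂ hP2 hd₂ q hq hqd)).2.1
    have hxd : x d₁ j = ((sm y n * (∏ p ∈ d₁, p) : ℕ) : ℝ) *
      zc U (sm y n * (∏ p ∈ d₁, p)) (j + n * kk W (∏ p ∈ d₁, p)) - #U := rfl
    rw [hxd]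
    clear hxd
    generalize (∏ p ∈ d₁, p) = a at *
    generalize (∏ p ∈ d₂, p) = b at *
    have hs : sm y (n * (a * b)) = sm y n * a := by
      rw [sm_mul y n (a * b) hn0 (by positivity), sm_mul y a b (by omega) (by omega), hsa, hsb,
        mul_one]
    have hk : kk W (a * b) ≡ kk W a [MOD a] :=
      kk_mod W (a * b) a (Nat.one_le_iff_ne_zero.2 (by positivity)) (hca.mul_right hcb)
        (dvd_mul_right a b)
    have hk2 : n * kk W (a * b) ≡ n * kk W a [MOD sm y n * a] :=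
      (hk.mul_left' n).of_dvd (Nat.mul_dvd_mul_right (sm_dvd y n hn0) a)
    have hz : zc U (sm y n * a) (j + n * kk W (a * b)) = zc U (sm y n * a) (j + n * kk W a) :=
      zc_congr U _ _ _ (Nat.ModEq.add_left j hk2)
    rw [hs, hz]
    unfold lam
    have haR : (a : ℝ) ≠ 0 := by
      have : a ≠ 0 := by omega
      exact_mod_cast this
    have hbR : (b : ℝ) ≠ 0 := by
      have : b ≠ 0 := by omega
      exact_mod_cast this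
    push_cast
    field_simp
  have hsum : ∀ j, ∑ d₁ ∈ P₁.powerset, ∑ d₂ ∈ P₂.powerset, lam lp₁ dp₁ lp₂ dp₂ d₁ d₂ *
      ((sm y (n * ((∏ p ∈ d₁, p) * ∏ p ∈ d₂, p)) : ℝ) / ((n * ((∏ p ∈ d₁, p) * ∏ p ∈ d₂, p) : ℕ) : ℝ) *
        zc U (sm y (n * ((∏ p ∈ d₁, p) * ∏ p ∈ d₂, p)))
          (j + n * kk W ((∏ p ∈ d₁, p) * ∏ p ∈ d₂, p)) -
        #U / ((n * ((∏ p ∈ d₁, p) * ∏ p ∈ d₂, p) : ℕ) : ℝ)) =
      ∑ d₁ ∈ P₁.powerset, (x d₁ j / (n * ((∏ p ∈ d₁, p : ℕ) : ℝ))) * c d₁ := by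
    intro j
    apply sum_congr rfl
    intro d₁ hd₁
    rw [sum_congr rfl (hterm j d₁ hd₁), ← mul_sum, sum_sub_distrib, ← mul_sum, ← mul_sum]
    have : c d₁ = lp₁ d₁ * A - dp₁ d₁ * A - lp₁ d₁ * E := rfl
    rw [this, hA, hEd]
    ring
  simp only [hsum]
  -- the bracket
  have hc : ∀ d, |c d| ≤ 3 * V₂ := by
    intro d
    have l1 := hs₁.l1 d
    have l2 := hs₁.d1 d
    have : c d = (lp₁ d) * A + (- dp₁ d) * A + (- lp₁ d) * E := by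
      change lp₁ d * A - dp₁ d * A - lp₁ d * E = _
      ring
    rw [this]
    have hA00 : 0 ≤ A := by linarith
    calc |(lp₁ d) * A + (- dp₁ d) * A + (- lp₁ d) * E|
        ≤ |(lp₁ d) * A + (- dp₁ d) * A| + |(- lp₁ d) * E| := abs_add_le _ _
      _ ≤ |(lp₁ d) * A| + |(- dp₁ d) * A| + |(- lp₁ d) * E| := by
          have := abs_add_le ((lp₁ d) * A) ((- dp₁ d) * A)
          linarith
      _ = |lp₁ d| * A + |dp₁ d| * A + |lp₁ d| * E := by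
          rw [abs_mul, abs_mul, abs_mul, abs_neg, abs_neg, abs_of_nonneg hA00, abs_of_nonneg hE0]
      _ ≤ 1 * A + 1 * A + 1 * E := by
          have e1 := mul_le_mul_of_nonneg_right l1 hA00
          have e2 := mul_le_mul_of_nonneg_right l2 hA00
          have e3 := mul_le_mul_of_nonneg_right l1 hE0
          linarith
      _ ≤ 3 * V₂ := by linarith
  have hbd : ∀ d₁ ∈ P₁.powerset, ∑ j ∈ range J, |(x d₁ j / (n * ((∏ p ∈ d₁, p : ℕ) : ℝ))) * c d₁| ≤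
      (12 * V₂ * J * #U * (H - 1) / n) * (1 / ((∏ p ∈ d₁, p : ℕ) : ℝ)) := by
    intro d₁ hd₁
    rw [mem_powerset] at hd₁
    have ha := prod_pos' P₁ d₁ hP1 hd₁
    have haR : (0 : ℝ) < ((∏ p ∈ d₁, p : ℕ) : ℝ) := by exact_mod_cast ha
    have hRHS : 0 ≤ (12 * V₂ * J * #U * (H - 1) / n) * (1 / ((∏ p ∈ d₁, p : ℕ) : ℝ)) := by
      have : 0 ≤ H - 1 := by linarith
      positivity
    by_cases h0 : lp₁ d₁ ≠ 0 ∨ dp₁ d₁ ≠ 0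
    · have hD := (hs₁.sup d₁ h0).2
      have hgle : ((sm y n * (∏ p ∈ d₁, p) : ℕ) : ℝ) ≤ G₀ * D₁ := by
        push_cast
        have hG0 : 0 ≤ G₀ := le_trans (by positivity) hG
        have hD' := hD
        push_cast at hD'
        exact mul_le_mul hG hD' (by positivity) hG0
      have hg1 : 1 ≤ sm y n * (∏ p ∈ d₁, p) := Nat.one_le_iff_ne_zero.2 (by positivity)
      have hgJ : sm y n * (∏ p ∈ d₁, p) ≤ J := by
        have := hgle.trans hGJ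
        exact_mod_cast this
      have hl := lone U (sm y n * (∏ p ∈ d₁, p)) J (n * kk W (∏ p ∈ d₁, p)) H hg1 hgJ hH
        (fun b => hE _ b hg1 hgle)
      have hl' : ∑ j ∈ range J, |x d₁ j| ≤ 4 * J * #U * (H - 1) := hl
      have e1 : ∀ j, |(x d₁ j / (n * ((∏ p ∈ d₁, p : ℕ) : ℝ))) * c d₁| =
          |x d₁ j| * (|c d₁| / (n * ((∏ p ∈ d₁, p : ℕ) : ℝ))) := by
        intro j
        rw [abs_mul, abs_div, abs_of_pos (mul_pos hnR haR)]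
        ring
      simp only [e1]
      rw [← sum_mul]
      calc (∑ j ∈ range J, |x d₁ j|) * (|c d₁| / (n * ((∏ p ∈ d₁, p : ℕ) : ℝ)))
          ≤ (4 * J * #U * (H - 1)) * ((3 * V₂) / (n * ((∏ p ∈ d₁, p : ℕ) : ℝ))) := by
            apply mul_le_mul hl' _ (by positivity)
            · have : 0 ≤ H - 1 := by linarith
              positivity
            · exact div_le_div_of_nonneg_right (hc d₁) (by positivity)
        _ = _ := by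
            field_simp
            ring
    · push Not at h0
      have : c d₁ = 0 := by
        change lp₁ d₁ * A - dp₁ d₁ * A - lp₁ d₁ * E = 0
        rw [h0.1, h0.2]
        ring
      simp only [this, mul_zero, abs_zero, sum_const_zero]
      exact hRHS
  calc ∑ j ∈ range J, |∑ d₁ ∈ P₁.powerset, (x d₁ j / (n * ((∏ p ∈ d₁, p : ℕ) : ℝ))) * c d₁|
      ≤ ∑ j ∈ range J, ∑ d₁ ∈ P₁.powerset, |(x d₁ j / (n * ((∏ p ∈ d₁, p : ℕ) : ℝ))) * c d₁| :=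
        sum_le_sum fun j _ => abs_sum_le_sum_abs _ _
    _ = ∑ d₁ ∈ P₁.powerset, ∑ j ∈ range J, |(x d₁ j / (n * ((∏ p ∈ d₁, p : ℕ) : ℝ))) * c d₁| :=
        sum_comm
    _ ≤ ∑ d₁ ∈ P₁.powerset, (12 * V₂ * J * #U * (H - 1) / n) * (1 / ((∏ p ∈ d₁, p : ℕ) : ℝ)) :=
        sum_le_sum hbd
    _ = 12 * V₂ * PI P₁ * J * #U * (H - 1) / n := by
        rw [← mul_sum, sum_inv]
        ring

end PoolUS
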