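import Mathlib
import Pool.Agent.Work.MP_c971ef_nt.US.Defs

set_option autoImplicit false

/-!
Module Gam (size M). The dual coefficients for one denominator e.

PROOF. Extend the sum over a to all a in range e. With y_b := ∑_{s ∈ S} ∑_{j < J, (j + t s) % e = b} x s j
(b < e) the inner sum is ∑_b y_b conj(ef e a b) (ef e a m depends on m mod e), and Parseval (orthogonality of
a ↦ ef e a b, see the proofs in LS/Fj.lean, LS/Grp.lean) gives ∑_{a<e} ‖∑_b y_b conj(ef e a b)‖^2 =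
e ∑_b |y_b|^2. Let A = ∑_{s} C s. |y_b| ≤ (J/e + 1) A (the number of j < J with j ≡ b - t s mod e is at most
J/e + 1) and ∑_b |y_b| ≤ J A. So the total is ≤ e (J/e + 1) A · J A = (J + e) J A^2.
-/

namespace PoolUS

open Finset

private theorem gam_geom (q : ℕ) (hq : 0 < q) (t : ℤ) :
    ∑ a ∈ range q, Complex.exp (2 * Real.pi * Complex.I * (a * t / q)) =
      if (q : ℤ) ∣ t then (q : ℂ) else 0 := by
  have hq0 : (q : ℂ) ≠ 0 := by exact_mod_cast hq.ne'
  have hz : ∀ a : ℕ, Complex.exp (2 * Real.pi * Complex.I * (a * t / q)) =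
      Complex.exp (2 * Real.pi * Complex.I * (t / q)) ^ a := by
    intro a
    rw [← Complex.exp_nat_mul]
    congr 1
    ring
  simp_rw [hz]
  have h1 : Complex.exp (2 * Real.pi * Complex.I * (t / q)) = 1 ↔ (q : ℤ) ∣ t := by
    rw [Complex.exp_eq_one_iff]
    have hpi : (2 * Real.pi * Complex.I : ℂ) ≠ 0 := Complex.two_pi_I_ne_zero
    constructor
    · rintro ⟨n, hn⟩
      refine ⟨n, ?_⟩
      have h2 : (t : ℂ) / q = n := by
        apply mul_left_cancel₀ hpi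
        rw [hn]
        ring
      rw [div_eq_iff hq0] at h2
      have h3 : (t : ℂ) = ((n * q : ℤ) : ℂ) := by
        rw [h2]
        push_cast
        ring
      have h4 : t = n * q := by exact_mod_cast h3
      rw [h4, mul_comm]
    · rintro ⟨n, rfl⟩
      refine ⟨n, ?_⟩
      push_cast
      field_simp
  split_ifs with h
  · rw [h1.2 h]
    simp
  · have hne : Complex.exp (2 * Real.pi * Complex.I * (t / q)) ≠ 1 := fun h2 => h (h1.1 h2)
    have hpow : Complex.exp (2 * Real.pi * Complex.I * (t / q)) ^ q = 1 := by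
      rw [← Complex.exp_nat_mul, Complex.exp_eq_one_iff]
      refine ⟨t, ?_⟩
      field_simp
    rw [geom_sum_eq hne, hpow, sub_self, zero_div]

private theorem gam_cnt (J q : ℕ) (hq : 0 < q) (n t' : ℕ) :
    (((range J).filter (fun j' : ℕ => (q : ℤ) ∣ (n : ℤ) - (j' + t' : ℕ))).card : ℝ) ≤
      (J : ℝ) / q + 1 := by
  have h1 : (range J).filter (fun j' : ℕ => (q : ℤ) ∣ (n : ℤ) - (j' + t' : ℕ)) =
      (range J).filter (fun j' : ℕ => j' ≡ n + (q - 1) * t' [MOD q]) := by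
    apply filter_congr
    intro x _
    rw [← Nat.modEq_iff_dvd]
    have e1 : x + t' + (q - 1) * t' = x + q * t' := by
      obtain ⟨k, rfl⟩ : ∃ k, q = k + 1 := ⟨q - 1, by omega⟩
      rw [Nat.add_sub_cancel]
      ring
    have e2 : x + q * t' ≡ x [MOD q] := by
      simp [Nat.ModEq]
    constructor
    · intro h
      have h2 : x + t' + (q - 1) * t' ≡ n + (q - 1) * t' [MOD q] := Nat.ModEq.add_right _ h
      rw [e1] at h2
      exact e2.symm.trans h2
    · intro h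
      have h2 : x + t' + (q - 1) * t' ≡ n + (q - 1) * t' [MOD q] := by
        rw [e1]
        exact e2.trans h
      exact Nat.ModEq.add_right_cancel' _ h2
  rw [h1, ← Nat.count_eq_card_filter_range, Nat.count_modEq_card _ hq]
  have h2 : J / q + (if (n + (q - 1) * t') % q < J % q then 1 else 0) ≤ J / q + 1 := by
    split_ifs <;> omega
  have h3 : ((J / q + (if (n + (q - 1) * t') % q < J % q then 1 else 0) : ℕ) : ℝ) ≤
      ((J / q + 1 : ℕ) : ℝ) := by exact_mod_cast h2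
  refine h3.trans ?_
  push_cast
  have := @Nat.cast_div_le ℝ _ _ _ J q
  linarith

private theorem gam_term (q a j j' : ℕ) :
    PoolLS.ef q a j * (starRingEnd ℂ) (PoolLS.ef q a j') =
      Complex.exp (2 * Real.pi * Complex.I * (a * (((j : ℤ) - j' : ℤ) : ℂ) / q)) := by
  unfold PoolLS.ef
  rw [← Complex.exp_conj, ← Complex.exp_add]
  congr 1
  simp only [map_mul, map_div₀, map_ofNat, Complex.conj_ofReal, Complex.conj_I, map_natCast]
  push_cast
  ring

private theorem gam_full {κ : Type} (P : Finset κ) (n : κ → ℕ) (y : κ → ℝ) (e : ℕ) (he : 1 ≤ e) :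
    ∑ a ∈ range e, ‖∑ p ∈ P, ((y p : ℝ) : ℂ) * (starRingEnd ℂ) (PoolLS.ef e a (n p))‖ ^ 2 =
      ∑ p ∈ P, ∑ p' ∈ P, y p * y p' * (if (e : ℤ) ∣ (n p : ℤ) - n p' then (e : ℝ) else 0) := by
  have hsq : ∀ a : ℕ,
      ((‖∑ p ∈ P, ((y p : ℝ) : ℂ) * (starRingEnd ℂ) (PoolLS.ef e a (n p))‖ ^ 2 : ℝ) : ℂ) =
      ∑ p ∈ P, ∑ p' ∈ P, ((y p : ℂ) * (y p' : ℂ)) *
        Complex.exp (2 * Real.pi * Complex.I * (a * (((n p : ℤ) - n p' : ℤ) : ℂ) / e)) := by
    intro a
    have h0 : ∑ p ∈ P, ((y p : ℝ) : ℂ) * (starRingEnd ℂ) (PoolLS.ef e a (n p)) =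
        (starRingEnd ℂ) (∑ p ∈ P, ((y p : ℝ) : ℂ) * PoolLS.ef e a (n p)) := by
      rw [map_sum]
      refine sum_congr rfl fun p _ => ?_
      rw [map_mul, Complex.conj_ofReal]
    have h1 : ((‖∑ p ∈ P, ((y p : ℝ) : ℂ) * (starRingEnd ℂ) (PoolLS.ef e a (n p))‖ ^ 2 : ℝ) : ℂ) =
        (∑ p ∈ P, ((y p : ℝ) : ℂ) * PoolLS.ef e a (n p)) *
        (∑ p ∈ P, ((y p : ℝ) : ℂ) * (starRingEnd ℂ) (PoolLS.ef e a (n p))) := by
      rw [h0, Complex.mul_conj, Complex.normSq_eq_norm_sq, Complex.norm_conj]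
    rw [h1, sum_mul_sum]
    refine sum_congr rfl fun p _ => sum_congr rfl fun p' _ => ?_
    rw [← gam_term]
    ring
  have hmain : ((∑ a ∈ range e,
      ‖∑ p ∈ P, ((y p : ℝ) : ℂ) * (starRingEnd ℂ) (PoolLS.ef e a (n p))‖ ^ 2 : ℝ) : ℂ) =
      ((∑ p ∈ P, ∑ p' ∈ P, y p * y p' *
        (if (e : ℤ) ∣ (n p : ℤ) - n p' then (e : ℝ) else 0) : ℝ) : ℂ) := by
    rw [Complex.ofReal_sum]
    simp_rw [hsq]
    rw [sum_comm, Complex.ofReal_sum]
    refine sum_congr rfl fun p _ => ?_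
    rw [sum_comm, Complex.ofReal_sum]
    refine sum_congr rfl fun p' _ => ?_
    rw [← mul_sum, gam_geom e (by omega)]
    split_ifs
    · push_cast
      ring
    · push_cast
      ring
  exact Complex.ofReal_injective hmain

theorem gam {ι : Type} (S : Finset ι) (t : ι → ℕ) (x : ι → ℕ → ℝ) (C : ι → ℝ) (e J : ℕ) (he : 1 ≤ e)
    (hx : ∀ s ∈ S, ∀ j ∈ range J, |x s j| ≤ C s) :
    ∑ a ∈ (range e).filter (fun a => Nat.Coprime a e),
      ‖∑ s ∈ S, ∑ j ∈ range J, ((x s j : ℝ) : ℂ) * (starRingEnd ℂ) (PoolLS.ef e a (j + t s))‖ ^ 2 ≤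
      ((J : ℝ) + e) * J * (∑ s ∈ S, C s) ^ 2 := by
  rcases Nat.eq_zero_or_pos J with hJ | hJ
  · subst hJ
    simp
  have hC : ∀ s ∈ S, 0 ≤ C s := fun s hs =>
    (abs_nonneg _).trans (hx s hs 0 (mem_range.2 hJ))
  have heR : (0 : ℝ) < e := by exact_mod_cast he
  have h1 : ∑ a ∈ (range e).filter (fun a => Nat.Coprime a e),
      ‖∑ s ∈ S, ∑ j ∈ range J, ((x s j : ℝ) : ℂ) * (starRingEnd ℂ) (PoolLS.ef e a (j + t s))‖ ^ 2 ≤
      ∑ a ∈ range e, ‖∑ p ∈ S ×ˢ range J, ((x p.1 p.2 : ℝ) : ℂ) *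
        (starRingEnd ℂ) (PoolLS.ef e a (p.2 + t p.1))‖ ^ 2 := by
    simp_rw [← sum_product']
    exact sum_le_sum_of_subset_of_nonneg (filter_subset _ _) fun _ _ _ => by positivity
  refine h1.trans ?_
  rw [gam_full (S ×ˢ range J) (fun p => p.2 + t p.1) (fun p => x p.1 p.2) e he]
  rw [sum_product]
  have h2 : ∀ s ∈ S, ∀ j ∈ range J,
      ∑ p' ∈ S ×ˢ range J, x s j * x p'.1 p'.2 *
        (if (e : ℤ) ∣ ((j + t s : ℕ) : ℤ) - ((p'.2 + t p'.1 : ℕ) : ℤ) then (e : ℝ) else 0) ≤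
      C s * (∑ s' ∈ S, C s') * ((J : ℝ) + e) := by
    intro s hs j hj
    rw [sum_product, mul_sum, sum_mul]
    refine sum_le_sum fun s' hs' => ?_
    have h3 : ∑ j' ∈ range J, x s j * x s' j' *
        (if (e : ℤ) ∣ ((j + t s : ℕ) : ℤ) - ((j' + t s' : ℕ) : ℤ) then (e : ℝ) else 0) ≤
        ∑ j' ∈ range J, C s * C s' *
        (if (e : ℤ) ∣ ((j + t s : ℕ) : ℤ) - ((j' + t s' : ℕ) : ℤ) then (e : ℝ) else 0) := by
      refine sum_le_sum fun j' hj' => ?_
      refine mul_le_mul_of_nonneg_right ?_ (by split_ifs <;> positivity)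
      calc x s j * x s' j' ≤ |x s j * x s' j'| := le_abs_self _
        _ = |x s j| * |x s' j'| := abs_mul _ _
        _ ≤ C s * C s' := mul_le_mul (hx s hs j hj) (hx s' hs' j' hj') (abs_nonneg _) (hC s hs)
    refine h3.trans ?_
    rw [← mul_sum, ← sum_filter, sum_const, nsmul_eq_mul]
    have h4 := gam_cnt J e (by omega) (j + t s) (t s')
    have h5 : 0 ≤ C s * C s' := mul_nonneg (hC s hs) (hC s' hs')
    refine mul_le_mul_of_nonneg_left ?_ h5
    calc (((range J).filter (fun j' : ℕ =>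
          (e : ℤ) ∣ ((j + t s : ℕ) : ℤ) - ((j' + t s' : ℕ) : ℤ))).card : ℝ) * e
        ≤ ((J : ℝ) / e + 1) * e := mul_le_mul_of_nonneg_right h4 heR.le
      _ = (J : ℝ) + e := by field_simp
  calc ∑ s ∈ S, ∑ j ∈ range J, ∑ p' ∈ S ×ˢ range J, x s j * x p'.1 p'.2 *
        (if (e : ℤ) ∣ ((j + t s : ℕ) : ℤ) - ((p'.2 + t p'.1 : ℕ) : ℤ) then (e : ℝ) else 0)
      ≤ ∑ s ∈ S, ∑ j ∈ range J, C s * (∑ s' ∈ S, C s') * ((J : ℝ) + e) :=
        sum_le_sum fun s hs => sum_le_sum fun j hj => h2 s hs j hj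
    _ = ((J : ℝ) + e) * J * (∑ s ∈ S, C s) ^ 2 := by
        simp_rw [sum_const, card_range, nsmul_eq_mul]
        rw [← mul_sum, ← sum_mul, ← sum_mul]
        ring

end PoolUS
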