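import Mathlib
import Pool.Agent.Work.MP_c971ef_nt.US.Defs
import Pool.Agent.Work.BV.LSA

set_option autoImplicit false

/-!
Module Wsv (size M). Weighted large sieve.

PROOF. `large_sieve_add R M0 M a` (see BV/LSA.lean for its namespace), with M0 = 0, M = X, a m = 1 if m ∈ U
else 0, gives ∑_{e ∈ Icc 1 R} SS U e ≤ 8 (X + R^2) #U for every R (SS is the inner sum; ef is the same
exponential up to writing a m/e). Dyadic: for e in (2^(i-1), 2^i], i ≥ 1,
SS e/(X+e^2) ≤ SS e/(X + 4^(i-1)) and the sum of SS e over e ≤ 2^i is ≤ 8 (X + 4^i) #U ≤ 32 (X + 4^(i-1)) #U;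
so each dyadic block contributes ≤ 32 #U; e = 1 contributes ≤ 8 #U. The blocks needed are
i = 1, ..., log2 R + 1 (Nat.log 2 R), and Nat.log 2 R ≤ log R/log 2 ≤ 1.45 log R. Total
≤ 8 + 32 (1.45 log R + 1) ≤ 50 (1 + log R). (R = 0: empty sum. One can also do induction on i.)
-/

namespace PoolUS

open Finset

private theorem wsv_nonneg (U : Finset ℕ) (e : ℕ) : 0 ≤ SS U e :=
  Finset.sum_nonneg fun _ _ => by positivity

private theorem wsv_ls (X R : ℕ) (U : Finset ℕ) (hU : U ⊆ range X) :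
    ∑ e ∈ Icc 1 R, SS U e ≤ 8 * ((X : ℝ) + (R : ℝ) ^ 2) * #U := by
  classical
  have h := BV.large_sieve_add R 0 X (fun m => if m ∈ U then (1 : ℂ) else 0)
  have hr : ∑ n ∈ Finset.Ico 0 (0 + X), ‖(if n ∈ U then (1 : ℂ) else 0)‖ ^ 2 = (#U : ℝ) := by
    have h1 : ∀ n ∈ Finset.Ico 0 (0 + X), ‖(if n ∈ U then (1 : ℂ) else 0)‖ ^ 2 =
        if n ∈ U then (1 : ℝ) else 0 := by
      intro n _
      split_ifs <;> simp
    rw [Finset.sum_congr rfl h1, ← Finset.sum_filter]
    have h2 : (Finset.Ico 0 (0 + X)).filter (fun n => n ∈ U) = U := by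
      ext n
      simp only [Finset.mem_filter, Finset.mem_Ico, zero_le, true_and, zero_add]
      constructor
      · exact fun h => h.2
      · exact fun h => ⟨Finset.mem_range.1 (hU h), h⟩
    rw [h2]
    simp
  have hl : ∀ e ∈ Icc 1 R, SS U e = ∑ b ∈ (Finset.range e).filter (fun b => Nat.Coprime b e),
      ‖∑ n ∈ Finset.Ico 0 (0 + X), (if n ∈ U then (1 : ℂ) else 0) *
        Complex.exp (2 * Real.pi * Complex.I * (b * n / e))‖ ^ 2 := by
    intro e _
    unfold SS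
    refine Finset.sum_congr rfl fun b _ => ?_
    congr 2
    unfold TT
    have h3 : ∀ n ∈ Finset.Ico 0 (0 + X), (if n ∈ U then (1 : ℂ) else 0) *
        Complex.exp (2 * Real.pi * Complex.I * (b * n / e)) =
        if n ∈ U then Complex.exp (2 * Real.pi * Complex.I * (b * n / e)) else 0 := by
      intro n _
      split_ifs <;> simp
    rw [Finset.sum_congr rfl h3, ← Finset.sum_filter]
    have h2 : (Finset.Ico 0 (0 + X)).filter (fun n => n ∈ U) = U := by
      ext n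
      simp only [Finset.mem_filter, Finset.mem_Ico, zero_le, true_and, zero_add]
      constructor
      · exact fun h => h.2
      · exact fun h => ⟨Finset.mem_range.1 (hU h), h⟩
    rw [h2]
    refine Finset.sum_congr rfl fun u _ => ?_
    unfold PoolLS.ef
    congr 1
    try ring
    try (push_cast; ring)
  rw [Finset.sum_congr rfl hl]
  rw [hr] at h
  exact h

private theorem wsv_dy (X : ℕ) (U : Finset ℕ) (hU : U ⊆ range X) (hX : 1 ≤ X) (k : ℕ) :
    ∑ e ∈ Icc 1 (2 ^ k), SS U e / ((X : ℝ) + (e : ℝ) ^ 2) ≤ (8 + 32 * (k : ℝ)) * #U := by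
  have hX' : (1 : ℝ) ≤ X := by exact_mod_cast hX
  have hC : (0 : ℝ) ≤ #U := by positivity
  induction k with
  | zero =>
    have h := wsv_ls X 1 U hU
    rw [pow_zero, Finset.Icc_self, Finset.sum_singleton]
    rw [Finset.Icc_self, Finset.sum_singleton] at h
    push_cast at h ⊢
    rw [div_le_iff₀ (by positivity)]
    calc SS U 1 ≤ 8 * ((X : ℝ) + 1 ^ 2) * #U := h
      _ = (8 + 32 * 0) * #U * ((X : ℝ) + 1 ^ 2) := by ring
  | succ k ih =>
    have hsplit : Icc 1 (2 ^ (k + 1)) = Icc 1 (2 ^ k) ∪ Ioc (2 ^ k) (2 ^ (k + 1)) := by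
      ext e
      simp only [Finset.mem_union, Finset.mem_Icc, Finset.mem_Ioc]
      have h1 : (2 : ℕ) ^ k ≤ 2 ^ (k + 1) := Nat.pow_le_pow_right (by norm_num) (by omega)
      have h2 : 1 ≤ (2 : ℕ) ^ k := Nat.one_le_two_pow
      omega
    have hdis : Disjoint (Icc 1 (2 ^ k)) (Ioc (2 ^ k) (2 ^ (k + 1))) := by
      rw [Finset.disjoint_left]
      intro e h1 h2
      simp only [Finset.mem_Icc, Finset.mem_Ioc] at h1 h2
      omega
    rw [hsplit, Finset.sum_union hdis]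
    have hden : (0 : ℝ) < (X : ℝ) + ((2 : ℝ) ^ k) ^ 2 := by positivity
    have hblock : ∑ e ∈ Ioc (2 ^ k) (2 ^ (k + 1)), SS U e / ((X : ℝ) + (e : ℝ) ^ 2) ≤ 32 * #U := by
      calc ∑ e ∈ Ioc (2 ^ k) (2 ^ (k + 1)), SS U e / ((X : ℝ) + (e : ℝ) ^ 2)
          ≤ ∑ e ∈ Ioc (2 ^ k) (2 ^ (k + 1)), SS U e / ((X : ℝ) + ((2 : ℝ) ^ k) ^ 2) := by
            refine Finset.sum_le_sum fun e he => ?_
            have he1 : (2 : ℝ) ^ k ≤ (e : ℝ) := by
              have := (Finset.mem_Ioc.1 he).1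
              have h3 : ((2 ^ k : ℕ) : ℝ) ≤ (e : ℝ) := by exact_mod_cast this.le
              push_cast at h3
              exact h3
            apply div_le_div_of_nonneg_left (wsv_nonneg U e) hden
            have : ((2 : ℝ) ^ k) ^ 2 ≤ (e : ℝ) ^ 2 := by gcongr
            linarith
        _ = (∑ e ∈ Ioc (2 ^ k) (2 ^ (k + 1)), SS U e) / ((X : ℝ) + ((2 : ℝ) ^ k) ^ 2) := by
            rw [Finset.sum_div]
        _ ≤ (8 * ((X : ℝ) + ((2 ^ (k + 1) : ℕ) : ℝ) ^ 2) * #U) / ((X : ℝ) + ((2 : ℝ) ^ k) ^ 2) := by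
            apply div_le_div_of_nonneg_right _ hden.le
            refine le_trans ?_ (wsv_ls X (2 ^ (k + 1)) U hU)
            refine Finset.sum_le_sum_of_subset_of_nonneg ?_ (fun e _ _ => wsv_nonneg U e)
            intro e he
            rw [Finset.mem_Ioc] at he
            rw [Finset.mem_Icc]
            have h2 : 1 ≤ (2 : ℕ) ^ k := Nat.one_le_two_pow
            omega
        _ ≤ 32 * #U := by
            rw [div_le_iff₀ hden]
            push_cast
            have h5 : ((2 : ℝ) ^ (k + 1)) ^ 2 = 4 * ((2 : ℝ) ^ k) ^ 2 := by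
              rw [pow_succ]
              ring
            rw [h5]
            have h6 : 8 * ((X : ℝ) + 4 * ((2 : ℝ) ^ k) ^ 2) ≤ 32 * ((X : ℝ) + ((2 : ℝ) ^ k) ^ 2) := by
              nlinarith
            calc 8 * ((X : ℝ) + 4 * ((2 : ℝ) ^ k) ^ 2) * #U
                ≤ 32 * ((X : ℝ) + ((2 : ℝ) ^ k) ^ 2) * #U := mul_le_mul_of_nonneg_right h6 hC
              _ = 32 * #U * ((X : ℝ) + ((2 : ℝ) ^ k) ^ 2) := by ring
    push_cast
    calc _ ≤ (8 + 32 * (k : ℝ)) * #U + 32 * #U := add_le_add ih hblock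
      _ = (8 + 32 * ((k : ℝ) + 1)) * #U := by ring

theorem wsv (X R : ℕ) (U : Finset ℕ) (hU : U ⊆ range X) (hX : 1 ≤ X) :
    ∑ e ∈ Icc 1 R, SS U e / ((X : ℝ) + (e : ℝ) ^ 2) ≤ 50 * (1 + Real.log R) * #U := by
  have hX' : (1 : ℝ) ≤ X := by exact_mod_cast hX
  have hC : (0 : ℝ) ≤ #U := by positivity
  rcases Nat.eq_zero_or_pos R with hR | hR
  · subst hR
    simp only [Finset.Icc_eq_empty_of_lt Nat.one_pos, Finset.sum_empty, Nat.cast_zero, Real.log_zero]
    positivity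
  have hR' : (1 : ℝ) ≤ R := by exact_mod_cast hR
  have hlt : R < 2 ^ (Nat.log 2 R + 1) := Nat.lt_pow_succ_log_self (by norm_num) R
  have hle : 2 ^ (Nat.log 2 R) ≤ R := Nat.pow_log_le_self 2 (by omega)
  have hlog : (Nat.log 2 R : ℝ) * Real.log 2 ≤ Real.log R := by
    have h1 : ((2 : ℝ) ^ (Nat.log 2 R)) ≤ R := by exact_mod_cast hle
    have h2 := Real.log_le_log (by positivity) h1
    rwa [Real.log_pow] at h2
  have hl2 := Real.log_two_gt_d9
  have hL : (Nat.log 2 R : ℝ) ≤ 1.45 * Real.log R := by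
    have h0 : (0 : ℝ) ≤ (Nat.log 2 R : ℝ) := by positivity
    nlinarith
  have hlR : 0 ≤ Real.log R := Real.log_nonneg hR'
  calc ∑ e ∈ Icc 1 R, SS U e / ((X : ℝ) + (e : ℝ) ^ 2)
      ≤ ∑ e ∈ Icc 1 (2 ^ (Nat.log 2 R + 1)), SS U e / ((X : ℝ) + (e : ℝ) ^ 2) := by
        refine Finset.sum_le_sum_of_subset_of_nonneg ?_ (fun e _ _ => ?_)
        · exact Finset.Icc_subset_Icc_right hlt.le
        · exact div_nonneg (wsv_nonneg U e) (by positivity)
    _ ≤ (8 + 32 * ((Nat.log 2 R + 1 : ℕ) : ℝ)) * #U := wsv_dy X U hU hX _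
    _ ≤ 50 * (1 + Real.log R) * #U := by
        apply mul_le_mul_of_nonneg_right _ hC
        push_cast
        nlinarith

end PoolUS
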