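import Mathlib
import Pool.Agent.Work.MP_c971ef_nt.US.Wsv
import Pool.Agent.Work.MP_c971ef_nt.US.Gam

set_option autoImplicit false

/-!
Module Err (size M). The rough part, bounded by the large sieve.

PROOF. Exchange the sums: the inner expression is
∑_{e ∈ Icc 1 R, Rough y e} ∑_{a mod e, coprime} TT U e a · Γ(e,a),
Γ(e,a) = ∑_{s ∈ S, e ∣ Q s} ∑_{j<J} (x s j/Q s) conj(ef e a (j + t s)) (Q s ≤ R, so every divisor e of Q s is in
Icc 1 R). Cauchy-Schwarz over the pairs (e,a) with weights w_e = 1/(X+e^2):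
‖·‖^2 ≤ (∑ ‖TT‖^2/(X+e^2)) (∑ (X+e^2) ‖Γ‖^2). First factor: extend to all e, `wsv`. Second: `gam` for fixed e
with the index set {s ∈ S : e ∣ Q s}, coefficients x s j/Q s, C s/Q s.
-/

namespace PoolUS

open Finset

open Classical in
private theorem err_swap {ι : Type} (S : Finset ι) (Q t : ι → ℕ) (x : ι → ℕ → ℝ) (y R J : ℕ)
    (U : Finset ℕ) (hQ : ∀ s ∈ S, 1 ≤ Q s ∧ Q s ≤ R) :
    ∑ s ∈ S, ∑ j ∈ range J, ((x s j / Q s : ℝ) : ℂ) *
        ∑ e ∈ (Q s).divisors.filter (fun e => Rough y e), UE U e (j + t s) =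
      ∑ e ∈ (Icc 1 R).filter (fun e => Rough y e),
        ∑ a ∈ (range e).filter (fun a => Nat.Coprime a e), TT U e a *
          ∑ s ∈ S.filter (fun s => e ∣ Q s), ∑ j ∈ range J, ((x s j / Q s : ℝ) : ℂ) *
            (starRingEnd ℂ) (PoolLS.ef e a (j + t s)) := by
  have h1 : ∀ s ∈ S, (Q s).divisors.filter (fun e => Rough y e) =
      ((Icc 1 R).filter (fun e => Rough y e)).filter (fun e => e ∣ Q s) := by
    intro s hs
    have hq := hQ s hs
    ext e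
    simp only [mem_filter, Nat.mem_divisors, mem_Icc]
    constructor
    · rintro ⟨⟨h1, h2⟩, h3⟩
      have h4 := Nat.le_of_dvd (by omega) h1
      have h5 : 1 ≤ e := Nat.pos_of_dvd_of_pos h1 (by omega)
      exact ⟨⟨⟨h5, by omega⟩, h3⟩, h1⟩
    · rintro ⟨⟨_, h3⟩, h1⟩
      exact ⟨⟨h1, by omega⟩, h3⟩
  have h2 : ∀ s ∈ S, ∑ j ∈ range J, ((x s j / Q s : ℝ) : ℂ) *
        ∑ e ∈ (Q s).divisors.filter (fun e => Rough y e), UE U e (j + t s) =
      ∑ e ∈ (Icc 1 R).filter (fun e => Rough y e), if e ∣ Q s then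
        ∑ j ∈ range J, ((x s j / Q s : ℝ) : ℂ) * UE U e (j + t s) else 0 := by
    intro s hs
    rw [h1 s hs, ← sum_filter, sum_comm]
    refine sum_congr rfl fun j _ => ?_
    rw [mul_sum]
  rw [sum_congr rfl h2, sum_comm]
  refine sum_congr rfl fun e _ => ?_
  rw [← sum_filter]
  have h3 : ∀ s ∈ S.filter (fun s => e ∣ Q s),
      ∑ j ∈ range J, ((x s j / Q s : ℝ) : ℂ) * UE U e (j + t s) =
      ∑ a ∈ (range e).filter (fun a => Nat.Coprime a e), ∑ j ∈ range J, TT U e a *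
        (((x s j / Q s : ℝ) : ℂ) * (starRingEnd ℂ) (PoolLS.ef e a (j + t s))) := by
    intro s _
    rw [sum_comm]
    refine sum_congr rfl fun j _ => ?_
    rw [UE, mul_sum]
    refine sum_congr rfl fun a _ => ?_
    ring
  rw [sum_congr rfl h3, sum_comm]
  simp_rw [mul_sum]

open Classical in
theorem err {ι : Type} (S : Finset ι) (Q t : ι → ℕ) (x : ι → ℕ → ℝ) (C : ι → ℝ) (y X R J : ℕ)
    (U : Finset ℕ) (hU : U ⊆ range X) (hX : 1 ≤ X) (hQ : ∀ s ∈ S, 1 ≤ Q s ∧ Q s ≤ R)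
    (hx : ∀ s ∈ S, ∀ j ∈ range J, |x s j| ≤ C s) :
    ‖∑ s ∈ S, ∑ j ∈ range J, ((x s j / Q s : ℝ) : ℂ) *
        ∑ e ∈ (Q s).divisors.filter (fun e => Rough y e), UE U e (j + t s)‖ ^ 2 ≤
      (50 * (1 + Real.log R) * #U) * ∑ e ∈ (Icc 1 R).filter (fun e => Rough y e),
        ((X : ℝ) + (e : ℝ) ^ 2) * (((J : ℝ) + e) * J *
          (∑ s ∈ S.filter (fun s => e ∣ Q s), C s / Q s) ^ 2) := by
  rw [err_swap S Q t x y R J U hQ]
  set E := (Icc 1 R).filter (fun e => Rough y e) with hE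
  set Γ : ℕ → ℕ → ℂ := fun e a => ∑ s ∈ S.filter (fun s => e ∣ Q s),
    ∑ j ∈ range J, ((x s j / Q s : ℝ) : ℂ) *
            (starRingEnd ℂ) (PoolLS.ef e a (j + t s)) with hΓ
  have hXR : (1 : ℝ) ≤ X := by exact_mod_cast hX
  have hpos : ∀ e : ℕ, (0 : ℝ) < (X : ℝ) + (e : ℝ) ^ 2 := fun e => by positivity
  have h1 : ‖∑ e ∈ E, ∑ a ∈ (range e).filter (fun a => Nat.Coprime a e), TT U e a * Γ e a‖ ≤
      ∑ e ∈ E, ∑ a ∈ (range e).filter (fun a => Nat.Coprime a e), ‖TT U e a‖ * ‖Γ e a‖ := by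
    refine (norm_sum_le _ _).trans (sum_le_sum fun e _ => ?_)
    refine (norm_sum_le _ _).trans (sum_le_sum fun a _ => ?_)
    rw [norm_mul]
  have h2 : (∑ e ∈ E, ∑ a ∈ (range e).filter (fun a => Nat.Coprime a e),
      ‖TT U e a‖ * ‖Γ e a‖) ^ 2 ≤
      (∑ e ∈ E, ∑ a ∈ (range e).filter (fun a => Nat.Coprime a e),
        ‖TT U e a‖ ^ 2 / ((X : ℝ) + (e : ℝ) ^ 2)) *
      (∑ e ∈ E, ∑ a ∈ (range e).filter (fun a => Nat.Coprime a e),
        ((X : ℝ) + (e : ℝ) ^ 2) * ‖Γ e a‖ ^ 2) := by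
    rw [sum_sigma', sum_sigma', sum_sigma']
    refine sum_sq_le_sum_mul_sum_of_sq_le_mul _ ?_ ?_ ?_
    · intro p _
      have := hpos p.1
      positivity
    · intro p _
      have := hpos p.1
      positivity
    · intro p _
      have := (hpos p.1).ne'
      refine le_of_eq ?_
      field_simp
  have h3 : ∑ e ∈ E, ∑ a ∈ (range e).filter (fun a => Nat.Coprime a e),
        ‖TT U e a‖ ^ 2 / ((X : ℝ) + (e : ℝ) ^ 2) ≤ 50 * (1 + Real.log R) * #U := by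
    refine le_trans ?_ (wsv X R U hU hX)
    have h4 : ∀ e : ℕ, ∑ a ∈ (range e).filter (fun a => Nat.Coprime a e),
        ‖TT U e a‖ ^ 2 / ((X : ℝ) + (e : ℝ) ^ 2) = SS U e / ((X : ℝ) + (e : ℝ) ^ 2) := by
      intro e
      rw [SS, sum_div]
    simp_rw [h4]
    refine sum_le_sum_of_subset_of_nonneg (filter_subset _ _) fun e _ _ => ?_
    have := hpos e
    have h5 : 0 ≤ SS U e := sum_nonneg fun _ _ => by positivity
    positivity
  have h6 : ∑ e ∈ E, ∑ a ∈ (range e).filter (fun a => Nat.Coprime a e),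
        ((X : ℝ) + (e : ℝ) ^ 2) * ‖Γ e a‖ ^ 2 ≤
      ∑ e ∈ E, ((X : ℝ) + (e : ℝ) ^ 2) * (((J : ℝ) + e) * J *
          (∑ s ∈ S.filter (fun s => e ∣ Q s), C s / Q s) ^ 2) := by
    refine sum_le_sum fun e he => ?_
    rw [← mul_sum]
    refine mul_le_mul_of_nonneg_left ?_ (hpos e).le
    have he1 : 1 ≤ e := (mem_Icc.1 (mem_filter.1 he).1).1
    refine gam (S.filter (fun s => e ∣ Q s)) t (fun s j => x s j / Q s) (fun s => C s / Q s) e J
      he1 ?_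
    intro s hs j hj
    have hs' := (mem_filter.1 hs).1
    rw [abs_div, Nat.abs_cast]
    exact div_le_div_of_nonneg_right (hx s hs' j hj) (Nat.cast_nonneg _)
  have h7 : (0 : ℝ) ≤ ∑ e ∈ E, ∑ a ∈ (range e).filter (fun a => Nat.Coprime a e),
        ((X : ℝ) + (e : ℝ) ^ 2) * ‖Γ e a‖ ^ 2 :=
    sum_nonneg fun e _ => sum_nonneg fun a _ => by
      have := hpos e
      positivity
  have h8 : (0 : ℝ) ≤ ∑ e ∈ E, ∑ a ∈ (range e).filter (fun a => Nat.Coprime a e),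
        ‖TT U e a‖ ^ 2 / ((X : ℝ) + (e : ℝ) ^ 2) :=
    sum_nonneg fun e _ => sum_nonneg fun a _ => by
      have := hpos e
      positivity
  calc ‖∑ e ∈ E, ∑ a ∈ (range e).filter (fun a => Nat.Coprime a e), TT U e a * Γ e a‖ ^ 2
      ≤ (∑ e ∈ E, ∑ a ∈ (range e).filter (fun a => Nat.Coprime a e),
          ‖TT U e a‖ * ‖Γ e a‖) ^ 2 := by
        gcongr
    _ ≤ _ := h2
    _ ≤ _ := mul_le_mul h3 h6 h7 (h8.trans h3)

end PoolUS
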