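import Mathlib

set_option autoImplicit false

/-!
Module Errn (size M). Numerical bound for the second factor of the large sieve.

PROOF. e ≤ E₀: use h1: A e ^ 2 ≤ a₁^2 e^(1/2)/e^2 = a₁^2 e^(-3/2), X + e^2 ≤ 2X (E₀^2 ≤ X), J + e ≤ 2J (E₀ ≤ J), so the
term is ≤ 4 X J^2 a₁^2 e^(-3/2), and ∑_{e ≥ y} e^(-3/2) ≤ 3/√y for y ≥ 3 (e^(-3/2) ≤ 2/√(e-1) - 2/√e, telescoping,
2/√(y-1) ≤ 3/√y). e > E₀: use h2: the term is ≤ a₂^2 J (X+e^2)(J+e)/e^2 = a₂^2 J (XJ/e^2 + X/e + J + e);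
∑_{e>E₀} 1/e^2 ≤ 1/E₀, ∑_{e≤R} 1/e ≤ 1 + log R, ∑ 1 ≤ R, ∑ e ≤ R^2.
-/

namespace PoolUS

open Finset

private theorem tele_step {x : ℝ} (hx : 2 ≤ x) :
    Real.sqrt x / x ^ 2 ≤ 2 / Real.sqrt (x - 1) - 2 / Real.sqrt x := by
  have hs2 : Real.sqrt (x - 1) ^ 2 = x - 1 := Real.sq_sqrt (by linarith)
  have ht2 : Real.sqrt x ^ 2 = x := Real.sq_sqrt (by linarith)
  have hs : 0 < Real.sqrt (x - 1) := Real.sqrt_pos.mpr (by linarith)
  have ht : 0 < Real.sqrt x := Real.sqrt_pos.mpr (by linarith)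
  have hst : Real.sqrt (x - 1) ≤ Real.sqrt x := Real.sqrt_le_sqrt (by linarith)
  set s := Real.sqrt (x - 1)
  set t := Real.sqrt x
  have e1 : t / x ^ 2 = 1 / t ^ 3 := by
    rw [← ht2]
    field_simp
  have e2 : 2 / s - 2 / t = 2 / (s * t * (t + s)) := by
    have h3 : (t - s) * (t + s) = 1 := by nlinarith
    rw [div_sub_div _ _ hs.ne' ht.ne', div_eq_div_iff (by positivity) (by positivity)]
    have : 2 * t - s * 2 = 2 * (t - s) := by ring
    rw [this]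
    calc 2 * (t - s) * (s * t * (t + s)) = 2 * (s * t) * ((t - s) * (t + s)) := by ring
      _ = 2 * (s * t) := by rw [h3, mul_one]
  rw [e1, e2, div_le_div_iff₀ (by positivity) (by positivity)]
  have h4 : s * t * (t + s) ≤ t * t * (t + t) := by
    apply mul_le_mul
    · exact mul_le_mul_of_nonneg_right hst ht.le
    · linarith
    · positivity
    · positivity
  nlinarith [h4]

private theorem tele (y : ℕ) (hy : 3 ≤ y) (n : ℕ) (hn : y ≤ n) :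
    ∑ e ∈ Ico y n, Real.sqrt (e : ℝ) / (e : ℝ) ^ 2 ≤
      2 / Real.sqrt ((y : ℝ) - 1) - 2 / Real.sqrt ((n : ℝ) - 1) := by
  induction n, hn using Nat.le_induction with
  | base => simp
  | succ n hn ih =>
    rw [Finset.sum_Ico_succ_top hn]
    have h1 := tele_step (x := (n : ℝ)) (by
      have : 3 ≤ n := hy.trans hn
      have : (3 : ℝ) ≤ n := by exact_mod_cast this
      linarith)
    have h2 : ((n + 1 : ℕ) : ℝ) - 1 = n := by push_cast; ring
    rw [h2]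
    linarith

private theorem tele' (y : ℕ) (hy : 3 ≤ y) (n : ℕ) :
    ∑ e ∈ Ico y n, Real.sqrt (e : ℝ) / (e : ℝ) ^ 2 ≤ 3 / Real.sqrt y := by
  have hy' : (3 : ℝ) ≤ y := by exact_mod_cast hy
  rcases le_total y n with h | h
  · refine (tele y hy n h).trans ?_
    have h1 : 0 ≤ 2 / Real.sqrt ((n : ℝ) - 1) := by positivity
    have h2 : 2 / Real.sqrt ((y : ℝ) - 1) ≤ 3 / Real.sqrt y := by
      have hs : 0 < Real.sqrt ((y : ℝ) - 1) := Real.sqrt_pos.mpr (by linarith)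
      have ht : 0 < Real.sqrt (y : ℝ) := Real.sqrt_pos.mpr (by linarith)
      rw [div_le_div_iff₀ hs ht]
      have h3 : (2 * Real.sqrt (y : ℝ)) ^ 2 ≤ (3 * Real.sqrt ((y : ℝ) - 1)) ^ 2 := by
        rw [mul_pow, mul_pow, Real.sq_sqrt (by linarith), Real.sq_sqrt (by linarith)]
        linarith
      exact (pow_le_pow_iff_left₀ (by positivity) (by positivity) (by norm_num)).mp h3
    linarith
  · rw [Ico_eq_empty_of_le h, sum_empty]
    positivity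

private theorem invsq (E₀ R : ℕ) (hE : 1 ≤ E₀) :
    ∑ e ∈ Ioc E₀ R, ((e : ℝ) ^ 2)⁻¹ ≤ 1 / E₀ := by
  rcases le_total E₀ R with h | h
  · refine (sum_Ioc_inv_sq_le_sub (α := ℝ) (by omega) h).trans ?_
    have : (0 : ℝ) ≤ (R : ℝ)⁻¹ := by positivity
    rw [one_div]
    linarith
  · rw [Ioc_eq_empty_of_le h, sum_empty]
    positivity

private theorem harm (R : ℕ) : ∑ e ∈ Icc 1 R, (e : ℝ)⁻¹ ≤ 1 + Real.log R := by
  have h1 := harmonic_le_one_add_log R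
  rw [harmonic_eq_sum_Icc] at h1
  push_cast at h1
  exact h1

private theorem sumid (R : ℕ) : ∑ e ∈ Icc 1 R, (e : ℝ) ≤ (R : ℝ) ^ 2 := by
  have h1 : ∑ e ∈ Icc 1 R, (e : ℝ) ≤ (Icc 1 R).card • (R : ℝ) :=
    Finset.sum_le_card_nsmul _ _ _ (fun e he => by
      have := (mem_Icc.mp he).2
      exact_mod_cast this)
  rw [Nat.card_Icc, nsmul_eq_mul] at h1
  have h2 : ((R + 1 - 1 : ℕ) : ℝ) = R := by norm_num
  rw [h2] at h1
  nlinarith

theorem errn (X J R y E₀ : ℕ) (a₁ a₂ : ℝ) (A : ℕ → ℝ) (hy : 3 ≤ y) (hE : 1 ≤ E₀) (hEJ : E₀ ≤ J)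
    (hEX : E₀ ^ 2 ≤ X) (ha₁ : 0 ≤ a₁) (ha₂ : 0 ≤ a₂) (h0 : ∀ e, 1 ≤ e → 0 ≤ A e)
    (h1 : ∀ e : ℕ, 1 ≤ e → A e ≤ a₁ * ((e : ℝ) ^ ((1 : ℝ) / 4) / e))
    (h2 : ∀ e : ℕ, 1 ≤ e → A e ≤ a₂ / e) :
    ∑ e ∈ (Icc 1 R).filter (fun e => y ≤ e),
      ((X : ℝ) + (e : ℝ) ^ 2) * (((J : ℝ) + e) * J * (A e) ^ 2) ≤
      12 * X * (J : ℝ) ^ 2 * a₁ ^ 2 / Real.sqrt y +
        a₂ ^ 2 * J * (X * J / E₀ + X * (1 + Real.log R) + J * R + (R : ℝ) ^ 2) := by
  have hX : (0 : ℝ) ≤ X := Nat.cast_nonneg X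
  have hJ : (0 : ℝ) ≤ J := Nat.cast_nonneg J
  rw [← Finset.sum_filter_add_sum_filter_not ((Icc 1 R).filter (fun e => y ≤ e)) (fun e => e ≤ E₀)]
  apply add_le_add
  · -- small e
    have hb : ∀ e ∈ ((Icc 1 R).filter (fun e => y ≤ e)).filter (fun e => e ≤ E₀),
        ((X : ℝ) + (e : ℝ) ^ 2) * (((J : ℝ) + e) * J * (A e) ^ 2) ≤
          4 * X * (J : ℝ) ^ 2 * a₁ ^ 2 * (Real.sqrt (e : ℝ) / (e : ℝ) ^ 2) := by
      intro e he
      rw [mem_filter, mem_filter, mem_Icc] at he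
      obtain ⟨⟨⟨he1, -⟩, -⟩, he3⟩ := he
      have hepos : (0 : ℝ) < e := by exact_mod_cast he1
      have k1 : (e : ℝ) ^ 2 ≤ X := by
        have : e ^ 2 ≤ X := (Nat.pow_le_pow_left he3 2).trans hEX
        exact_mod_cast this
      have k2 : (e : ℝ) ≤ J := by exact_mod_cast he3.trans hEJ
      have k3 : (A e) ^ 2 ≤ a₁ ^ 2 * (Real.sqrt (e : ℝ) / (e : ℝ) ^ 2) := by
        have k4 := pow_le_pow_left₀ (h0 e he1) (h1 e he1) 2
        refine k4.trans (le_of_eq ?_)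
        rw [mul_pow, div_pow]
        congr 2
        rw [← Real.rpow_natCast ((e : ℝ) ^ ((1 : ℝ) / 4)) 2, ← Real.rpow_mul hepos.le,
          Real.sqrt_eq_rpow]
        norm_num
      have k5 : (X : ℝ) + (e : ℝ) ^ 2 ≤ 2 * X := by linarith
      have k6 : ((J : ℝ) + e) * J ≤ 2 * J * J := by nlinarith
      calc ((X : ℝ) + (e : ℝ) ^ 2) * (((J : ℝ) + e) * J * (A e) ^ 2)
          ≤ (2 * X) * ((2 * J * J) * (a₁ ^ 2 * (Real.sqrt (e : ℝ) / (e : ℝ) ^ 2))) := by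
            apply mul_le_mul k5 _ (by positivity) (by positivity)
            exact mul_le_mul k6 k3 (by positivity) (by positivity)
        _ = _ := by ring
    refine (Finset.sum_le_sum hb).trans ?_
    rw [← Finset.mul_sum]
    have hsub : ((Icc 1 R).filter (fun e => y ≤ e)).filter (fun e => e ≤ E₀) ⊆ Ico y (R + 1) := by
      intro e he
      rw [mem_filter, mem_filter, mem_Icc] at he
      rw [mem_Ico]
      omega
    have h5 : ∑ e ∈ ((Icc 1 R).filter (fun e => y ≤ e)).filter (fun e => e ≤ E₀),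
        Real.sqrt (e : ℝ) / (e : ℝ) ^ 2 ≤ 3 / Real.sqrt y :=
      (Finset.sum_le_sum_of_subset_of_nonneg hsub (fun e _ _ => by positivity)).trans
        (tele' y hy (R + 1))
    calc 4 * X * (J : ℝ) ^ 2 * a₁ ^ 2 * ∑ e ∈ ((Icc 1 R).filter (fun e => y ≤ e)).filter
          (fun e => e ≤ E₀), Real.sqrt (e : ℝ) / (e : ℝ) ^ 2
        ≤ 4 * X * (J : ℝ) ^ 2 * a₁ ^ 2 * (3 / Real.sqrt y) :=
          mul_le_mul_of_nonneg_left h5 (by positivity)
      _ = _ := by ring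
  · -- large e
    have hb : ∀ e ∈ ((Icc 1 R).filter (fun e => y ≤ e)).filter (fun e => ¬ e ≤ E₀),
        ((X : ℝ) + (e : ℝ) ^ 2) * (((J : ℝ) + e) * J * (A e) ^ 2) ≤
          a₂ ^ 2 * J * (X * J * ((e : ℝ) ^ 2)⁻¹ + X * (e : ℝ)⁻¹ + J + e) := by
      intro e he
      rw [mem_filter, mem_filter, mem_Icc] at he
      obtain ⟨⟨⟨he1, -⟩, -⟩, -⟩ := he
      have hepos : (0 : ℝ) < e := by exact_mod_cast he1
      have k3 : (A e) ^ 2 ≤ a₂ ^ 2 / (e : ℝ) ^ 2 := by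
        have k4 := pow_le_pow_left₀ (h0 e he1) (h2 e he1) 2
        rwa [div_pow] at k4
      calc ((X : ℝ) + (e : ℝ) ^ 2) * (((J : ℝ) + e) * J * (A e) ^ 2)
          ≤ ((X : ℝ) + (e : ℝ) ^ 2) * (((J : ℝ) + e) * J * (a₂ ^ 2 / (e : ℝ) ^ 2)) := by
            apply mul_le_mul_of_nonneg_left _ (by positivity)
            exact mul_le_mul_of_nonneg_left k3 (by positivity)
        _ = _ := by
            field_simp
            ring
    refine (Finset.sum_le_sum hb).trans ?_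
    rw [← Finset.mul_sum]
    apply mul_le_mul_of_nonneg_left _ (by positivity)
    rw [Finset.sum_add_distrib, Finset.sum_add_distrib, Finset.sum_add_distrib, ← Finset.mul_sum,
      ← Finset.mul_sum]
    set F := ((Icc 1 R).filter (fun e => y ≤ e)).filter (fun e => ¬ e ≤ E₀) with hF
    have hsub1 : F ⊆ Ioc E₀ R := by
      intro e he
      rw [hF, mem_filter, mem_filter, mem_Icc] at he
      rw [mem_Ioc]
      omega
    have hsub2 : F ⊆ Icc 1 R := by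
      intro e he
      rw [hF, mem_filter, mem_filter] at he
      exact he.1.1
    have s1 : ∑ e ∈ F, ((e : ℝ) ^ 2)⁻¹ ≤ 1 / E₀ :=
      (Finset.sum_le_sum_of_subset_of_nonneg hsub1 (fun e _ _ => by positivity)).trans
        (invsq E₀ R hE)
    have s2 : ∑ e ∈ F, (e : ℝ)⁻¹ ≤ 1 + Real.log R :=
      (Finset.sum_le_sum_of_subset_of_nonneg hsub2 (fun e _ _ => by positivity)).trans (harm R)
    have s3 : ∑ _e ∈ F, (J : ℝ) ≤ J * R := by
      rw [Finset.sum_const, nsmul_eq_mul]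
      have : F.card ≤ R := (Finset.card_le_card hsub2).trans (by rw [Nat.card_Icc]; omega)
      have : (F.card : ℝ) ≤ R := by exact_mod_cast this
      nlinarith
    have s4 : ∑ e ∈ F, (e : ℝ) ≤ (R : ℝ) ^ 2 :=
      (Finset.sum_le_sum_of_subset_of_nonneg hsub2 (fun e _ _ => by positivity)).trans (sumid R)
    have t1 : (X : ℝ) * J * ∑ e ∈ F, ((e : ℝ) ^ 2)⁻¹ ≤ X * J / E₀ := by
      have := mul_le_mul_of_nonneg_left s1 (mul_nonneg hX hJ)
      rwa [mul_one_div] at this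
    have t2 : (X : ℝ) * ∑ e ∈ F, (e : ℝ)⁻¹ ≤ X * (1 + Real.log R) :=
      mul_le_mul_of_nonneg_left s2 hX
    linarith

end PoolUS
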