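import Mathlib
import Pool.Agent.Work.MP_c971ef_nt.US.Defs

set_option autoImplicit false

/-!
Module Un (size S-M). Pairs of subsets and subsets of the union; the mean of the composite weights.

PROOF. `un`: bijection d ↦ (d ∩ P₁, d ∩ P₂) (see the private sum_union in MP_2dba45_nt/Sv/BHb.lean).
`un_prod`: ∏ over d = ∏ over d ∩ P₁ times ∏ over d ∩ P₂ for d ⊆ P₁ ∪ P₂ disjoint.
`lam_abs`: |lam| ≤ 3 by the fields l1, d1. `lam_mean`: the sum factors: with A_i = ∑ lp_i/∏ ≥ V_i,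
E_i = ∑ dp_i/∏ ∈ [0, V_i/8], A_i ≤ 9/8 V_i: A₁A₂ - E₁A₂ - A₁E₂ ≥ A₁ (A₂ - E₂) - E₁ A₂ ≥ V₁ (7/8) V₂ -
(1/8) V₁ (9/8) V₂ ≥ V₁ V₂/2 (V_i ≥ 0 from d0, dh). `lam_le`: with a_i = ∑_{d ⊆ B_i} lp_i ≥ 1[B_i = ∅],
e_i = ∑ dp_i ≥ a_i - 1[B_i = ∅] ≥ 0: a₁a₂ - e₁a₂ - a₁e₂ ≤ 1[B₁=∅] 1[B₂=∅].
-/

namespace PoolUS

open Finset

private theorem inter_split {P₁ P₂ d : Finset ℕ} (hd : d ⊆ P₁ ∪ P₂) :
    (d ∩ P₁) ∪ (d ∩ P₂) = d := by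
  rw [← inter_union_distrib_left]
  exact inter_eq_left.2 hd

private theorem pair_back {P₁ P₂ x y : Finset ℕ} (h12 : Disjoint P₁ P₂) (hx : x ⊆ P₁)
    (hy : y ⊆ P₂) : ((x ∪ y) ∩ P₁, (x ∪ y) ∩ P₂) = (x, y) := by
  have h1 : y ∩ P₁ = ∅ := disjoint_iff_inter_eq_empty.1 ((h12.mono_right hy).symm)
  have h2 : x ∩ P₂ = ∅ := disjoint_iff_inter_eq_empty.1 (h12.mono_left hx)
  rw [union_inter_distrib_right, union_inter_distrib_right, h1, h2, union_empty, empty_union,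
    inter_eq_left.2 hx, inter_eq_left.2 hy]

private theorem mul_abs_le {a b : ℝ} (ha : |a| ≤ 1) (hb : |b| ≤ 1) : |a * b| ≤ 1 := by
  rw [abs_mul]
  exact mul_le_one₀ ha (abs_nonneg _) hb

theorem un (P₁ P₂ : Finset ℕ) (h12 : Disjoint P₁ P₂) (F : Finset ℕ → Finset ℕ → ℂ) :
    ∑ d₁ ∈ P₁.powerset, ∑ d₂ ∈ P₂.powerset, F d₁ d₂ =
      ∑ d ∈ (P₁ ∪ P₂).powerset, F (d ∩ P₁) (d ∩ P₂) := by
  rw [← Finset.sum_product']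
  refine Finset.sum_bij' (fun x _ => x.1 ∪ x.2) (fun d _ => (d ∩ P₁, d ∩ P₂)) ?_ ?_ ?_ ?_ ?_
  · rintro ⟨x, y⟩ h
    simp only [mem_product, mem_powerset] at h ⊢
    exact union_subset_union h.1 h.2
  · intro d _
    simp only [mem_product, mem_powerset]
    exact ⟨inter_subset_right, inter_subset_right⟩
  · rintro ⟨x, y⟩ h
    simp only [mem_product, mem_powerset] at h
    exact pair_back h12 h.1 h.2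
  · intro d hd
    exact inter_split (mem_powerset.1 hd)
  · rintro ⟨x, y⟩ h
    simp only [mem_product, mem_powerset] at h
    have := pair_back h12 h.1 h.2
    rw [Prod.mk.injEq] at this
    simp only [this.1, this.2]

theorem un_prod (P₁ P₂ : Finset ℕ) (h12 : Disjoint P₁ P₂) (d : Finset ℕ) (hd : d ⊆ P₁ ∪ P₂) :
    (∏ p ∈ d ∩ P₁, p) * ∏ p ∈ d ∩ P₂, p = ∏ p ∈ d, p := by
  rw [← prod_union (h12.mono inter_subset_right inter_subset_right), inter_split hd]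

theorem lam_abs (P₁ P₂ : Finset ℕ) (D₁ D₂ V₁ V₂ : ℝ) (lp₁ dp₁ lp₂ dp₂ : Finset ℕ → ℝ)
    (hs₁ : SW P₁ D₁ V₁ (1 / 8) lp₁ dp₁) (hs₂ : SW P₂ D₂ V₂ (1 / 8) lp₂ dp₂) (d₁ d₂ : Finset ℕ) :
    |lam lp₁ dp₁ lp₂ dp₂ d₁ d₂| ≤ 3 ∧ (lam lp₁ dp₁ lp₂ dp₂ d₁ d₂ ≠ 0 →
      ((∏ p ∈ d₁, p : ℕ) : ℝ) ≤ D₁ ∧ ((∏ p ∈ d₂, p : ℕ) : ℝ) ≤ D₂) := by
  unfold lam
  constructor
  · have h1 := mul_abs_le (hs₁.l1 d₁) (hs₂.l1 d₂)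
    have h2 := mul_abs_le (hs₁.d1 d₁) (hs₂.l1 d₂)
    have h3 := mul_abs_le (hs₁.l1 d₁) (hs₂.d1 d₂)
    rw [abs_le] at h1 h2 h3 ⊢
    constructor <;> linarith [h1.1, h1.2, h2.1, h2.2, h3.1, h3.2]
  · intro h
    constructor
    · refine (hs₁.sup d₁ ?_).2
      by_contra hc
      rw [not_or, not_not, not_not] at hc
      apply h
      rw [hc.1, hc.2]
      ring
    · refine (hs₂.sup d₂ ?_).2
      by_contra hc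
      rw [not_or, not_not, not_not] at hc
      apply h
      rw [hc.1, hc.2]
      ring

theorem lam_mean (P₁ P₂ : Finset ℕ) (D₁ D₂ V₁ V₂ : ℝ) (lp₁ dp₁ lp₂ dp₂ : Finset ℕ → ℝ)
    (hs₁ : SW P₁ D₁ V₁ (1 / 8) lp₁ dp₁) (hs₂ : SW P₂ D₂ V₂ (1 / 8) lp₂ dp₂) :
    V₁ * V₂ / 2 ≤ ∑ d₁ ∈ P₁.powerset, ∑ d₂ ∈ P₂.powerset, lam lp₁ dp₁ lp₂ dp₂ d₁ d₂ /
      (((∏ p ∈ d₁, p) * ∏ p ∈ d₂, p : ℕ) : ℝ) := by
  have key : ∑ d₁ ∈ P₁.powerset, ∑ d₂ ∈ P₂.powerset, lam lp₁ dp₁ lp₂ dp₂ d₁ d₂ /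
      (((∏ p ∈ d₁, p) * ∏ p ∈ d₂, p : ℕ) : ℝ) =
      (∑ d ∈ P₁.powerset, lp₁ d / ((∏ p ∈ d, p : ℕ) : ℝ)) *
        (∑ d ∈ P₂.powerset, lp₂ d / ((∏ p ∈ d, p : ℕ) : ℝ)) -
      (∑ d ∈ P₁.powerset, dp₁ d / ((∏ p ∈ d, p : ℕ) : ℝ)) *
        (∑ d ∈ P₂.powerset, lp₂ d / ((∏ p ∈ d, p : ℕ) : ℝ)) -
      (∑ d ∈ P₁.powerset, lp₁ d / ((∏ p ∈ d, p : ℕ) : ℝ)) *
        (∑ d ∈ P₂.powerset, dp₂ d / ((∏ p ∈ d, p : ℕ) : ℝ)) := by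
    rw [sum_mul_sum, sum_mul_sum, sum_mul_sum, ← sum_sub_distrib, ← sum_sub_distrib]
    refine sum_congr rfl fun d₁ _ => ?_
    rw [← sum_sub_distrib, ← sum_sub_distrib]
    refine sum_congr rfl fun d₂ _ => ?_
    unfold lam
    rw [Nat.cast_mul, div_mul_div_comm, div_mul_div_comm, div_mul_div_comm, ← sub_div, ← sub_div]
  rw [key]
  have a1 := hs₁.lo
  have a2 := hs₂.lo
  have b1 := hs₁.hi
  have b2 := hs₂.hi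
  have e1 := hs₁.d0
  have e2 := hs₂.d0
  have f1 := hs₁.dh
  have f2 := hs₂.dh
  generalize (∑ d ∈ P₁.powerset, lp₁ d / ((∏ p ∈ d, p : ℕ) : ℝ)) = A₁ at *
  generalize (∑ d ∈ P₂.powerset, lp₂ d / ((∏ p ∈ d, p : ℕ) : ℝ)) = A₂ at *
  generalize (∑ d ∈ P₁.powerset, dp₁ d / ((∏ p ∈ d, p : ℕ) : ℝ)) = E₁ at *
  generalize (∑ d ∈ P₂.powerset, dp₂ d / ((∏ p ∈ d, p : ℕ) : ℝ)) = E₂ at *
  have v1 : 0 ≤ V₁ := by linarith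
  have v2 : 0 ≤ V₂ := by linarith
  have h1 : V₁ * (7 / 8 * V₂) ≤ A₁ * (A₂ - E₂) :=
    mul_le_mul a1 (by linarith) (by positivity) (by linarith)
  have h2 : E₁ * A₂ ≤ (1 / 8 * V₁) * ((1 + 1 / 8) * V₂) :=
    mul_le_mul f1 b2 (by linarith) (by positivity)
  have h3 : 0 ≤ V₁ * V₂ := mul_nonneg v1 v2
  nlinarith [h1, h2, h3]

theorem lam_le (P₁ P₂ : Finset ℕ) (D₁ D₂ V₁ V₂ : ℝ) (lp₁ dp₁ lp₂ dp₂ : Finset ℕ → ℝ)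
    (hs₁ : SW P₁ D₁ V₁ (1 / 8) lp₁ dp₁) (hs₂ : SW P₂ D₂ V₂ (1 / 8) lp₂ dp₂) (B₁ B₂ : Finset ℕ)
    (h1 : B₁ ⊆ P₁) (h2 : B₂ ⊆ P₂) :
    ∑ d₁ ∈ B₁.powerset, ∑ d₂ ∈ B₂.powerset, lam lp₁ dp₁ lp₂ dp₂ d₁ d₂ ≤
      if B₁ = ∅ ∧ B₂ = ∅ then 1 else 0 := by
  have key : ∑ d₁ ∈ B₁.powerset, ∑ d₂ ∈ B₂.powerset, lam lp₁ dp₁ lp₂ dp₂ d₁ d₂ =
      (∑ d ∈ B₁.powerset, lp₁ d) * (∑ d ∈ B₂.powerset, lp₂ d) -
      (∑ d ∈ B₁.powerset, dp₁ d) * (∑ d ∈ B₂.powerset, lp₂ d) -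
      (∑ d ∈ B₁.powerset, lp₁ d) * (∑ d ∈ B₂.powerset, dp₂ d) := by
    rw [sum_mul_sum, sum_mul_sum, sum_mul_sum, ← sum_sub_distrib, ← sum_sub_distrib]
    refine sum_congr rfl fun d₁ _ => ?_
    rw [← sum_sub_distrib, ← sum_sub_distrib]
    rfl
  have hi : (if B₁ = ∅ ∧ B₂ = ∅ then (1 : ℝ) else 0) =
      (if B₁ = ∅ then (1 : ℝ) else 0) * (if B₂ = ∅ then (1 : ℝ) else 0) := by
    by_cases g1 : B₁ = ∅ <;> by_cases g2 : B₂ = ∅ <;> simp [g1, g2]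
  rw [key, hi]
  have a1 := hs₁.up B₁ h1
  have a2 := hs₂.up B₂ h2
  have e1 := hs₁.df B₁ h1
  have e2 := hs₂.df B₂ h2
  have i1 : (0 : ℝ) ≤ (if B₁ = ∅ then (1 : ℝ) else 0) := by split_ifs <;> norm_num
  have i2 : (0 : ℝ) ≤ (if B₂ = ∅ then (1 : ℝ) else 0) := by split_ifs <;> norm_num
  generalize (if B₁ = ∅ then (1 : ℝ) else 0) = I₁ at *
  generalize (if B₂ = ∅ then (1 : ℝ) else 0) = I₂ at *
  generalize (∑ d ∈ B₁.powerset, lp₁ d) = A₁ at *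
  generalize (∑ d ∈ B₂.powerset, lp₂ d) = A₂ at *
  generalize (∑ d ∈ B₁.powerset, dp₁ d) = E₁ at *
  generalize (∑ d ∈ B₂.powerset, dp₂ d) = E₂ at *
  have j1 : 0 ≤ (A₁ - I₁) * (A₂ - I₂) := mul_nonneg (by linarith) (by linarith)
  have j2 : (A₁ - I₁) * A₂ ≤ E₁ * A₂ := mul_le_mul_of_nonneg_right e1 (by linarith)
  have j3 : A₁ * (A₂ - I₂) ≤ A₁ * E₂ := mul_le_mul_of_nonneg_left e2 (by linarith)
  nlinarith [j1, j2, j3]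

end PoolUS
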