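import Mathlib
import Pool.Agent.Work.MP_c971ef_nt.US.Dev
import Pool.Agent.Work.MP_c971ef_nt.US.Un
import Pool.Agent.Work.MP_c971ef_nt.US.Dec
import Pool.Agent.Work.MP_c971ef_nt.US.Err
import Pool.Agent.Work.MP_c971ef_nt.US.Aef
import Pool.Agent.Work.MP_c971ef_nt.US.Errn

set_option autoImplicit false

/-!
Module Mainq (size L). The main inequality.

PROOF. Write 𝒢 for the set GG of bad pairs, F = lam. 0 ≥ ∑_{(n,j) ∈ 𝒢} SN ... n j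
= ∑_𝒢 ∑_{d₁,d₂} F · zc U Q (j + n kk) (`sid`), Q = n D₁ D₂. Insert `dec` (as complex numbers; take real parts or
norms at the end): zc U Q b = #U/Q + [(sm y Q/Q) zc U (sm y Q) b - #U/Q] + (1/Q) ∑_{e ∣ Q rough} UE U e b. So
0 ≥ const + Dev + Err with
const = #U ∑_𝒢 (1/n) ∑ F/(D₁D₂) ≥ #U (#𝒢/(2N)) V₁V₂/2 (`lam_mean`, n ≤ 2N);
|Dev| ≤ ∑_{n ∈ G} ∑_{j<J} |∑_{d₁,d₂} ...| ≤ ∑_{n ∈ G} 12 V₂ PI P₁ J #U (H-1)/n ≤ 12 V₂ PI P₁ J #U (H-1)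
(`dev`; ∑_{n ∈ Ioc N 2N} 1/n ≤ 1);
Err = ∑_{s} ∑_{j<J} (x s j/Q s) ∑_{e ∣ Q s rough} UE U e (j + t s), s = (n, d), n ∈ G, d ∈ (P₁ ∪ P₂).powerset with
F (d ∩ P₁) (d ∩ P₂) ≠ 0 (`un`, `un_prod`), Q s = n ∏ d, t s = n kk W (∏ d), x s j = 1_𝒢(n,j) F(d ∩ P₁)(d ∩ P₂), so
|x s j| ≤ C s := |F (d ∩ P₁)(d ∩ P₂)| ≤ 3 (`lam_abs`), 1 ≤ Q s ≤ R (R ≥ 2 N D₁ D₂). `err` bounds ‖Err‖^2; in it
A e := ∑_{s, e ∣ Q s} C s/Q s is ≤ 384 PI(P₁ ∪ P₂) e^(1/4)/e (`aef` with F := 3, extended to all d) and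
≤ 24 Dmax/e (`PoolLS.aq` with F := 3, D := Dmax, N ≤ 8N). A rough e is ≥ y. `errn` with these two bounds (extend the
filter Rough to y ≤ e; terms are nonnegative). Take square roots.
-/

namespace PoolUS

open Finset

private theorem prod_pos {P d : Finset ℕ} (hP : ∀ p ∈ P, p.Prime) (hd : d ⊆ P) :
    1 ≤ ∏ p ∈ d, p :=
  Nat.one_le_iff_ne_zero.2 (Finset.prod_ne_zero_iff.2 fun _ hp => (hP _ (hd hp)).pos.ne')

private theorem sum_inv_le (N : ℕ) (hN : 1 ≤ N) (G : Finset ℕ) (hG : G ⊆ Ioc N (2 * N)) :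
    ∑ n ∈ G, (1 : ℝ) / n ≤ 1 := by
  have hN0 : (0 : ℝ) < N := by exact_mod_cast hN
  calc ∑ n ∈ G, (1 : ℝ) / n ≤ ∑ n ∈ G, (1 : ℝ) / N := by
        apply Finset.sum_le_sum
        intro n hn
        have h1 := (Finset.mem_Ioc.1 (hG hn)).1
        apply one_div_le_one_div_of_le hN0
        exact_mod_cast h1.le
    _ = #G * (1 / (N : ℝ)) := by rw [Finset.sum_const, nsmul_eq_mul]
    _ ≤ N * (1 / (N : ℝ)) := by
        apply mul_le_mul_of_nonneg_right _ (by positivity)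
        have h1 := Finset.card_le_card hG
        rw [Nat.card_Ioc] at h1
        have h2 : #G ≤ N := by omega
        exact_mod_cast h2
    _ = 1 := by field_simp

open Classical in
/-- splitting of `SN` -/
private theorem split1 (U : Finset ℕ) (W y : ℕ) (P₁ P₂ : Finset ℕ) (L : Finset ℕ → Finset ℕ → ℝ)
    (n j : ℕ) (hn : 1 ≤ n) (hU : ∀ u ∈ U, j < u) (h1 : ∀ p ∈ P₁, p.Prime ∧ ¬ p ∣ 2 * W)
    (h2 : ∀ p ∈ P₂, p.Prime ∧ ¬ p ∣ 2 * W) (h12 : Disjoint P₁ P₂) :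
    ((SN U W P₁ P₂ L n j : ℝ) : ℂ) =
      ((∑ d₁ ∈ P₁.powerset, ∑ d₂ ∈ P₂.powerset, L d₁ d₂ *
        ((sm y (n * ((∏ p ∈ d₁, p) * ∏ p ∈ d₂, p)) : ℝ) /
            ((n * ((∏ p ∈ d₁, p) * ∏ p ∈ d₂, p) : ℕ) : ℝ) *
          zc U (sm y (n * ((∏ p ∈ d₁, p) * ∏ p ∈ d₂, p)))
            (j + n * kk W ((∏ p ∈ d₁, p) * ∏ p ∈ d₂, p)) -
          #U / ((n * ((∏ p ∈ d₁, p) * ∏ p ∈ d₂, p) : ℕ) : ℝ)) : ℝ) : ℂ) +
      ((∑ d₁ ∈ P₁.powerset, ∑ d₂ ∈ P₂.powerset, L d₁ d₂ *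
          (#U / ((n * ((∏ p ∈ d₁, p) * ∏ p ∈ d₂, p) : ℕ) : ℝ)) : ℝ) : ℂ) +
      ∑ d₁ ∈ P₁.powerset, ∑ d₂ ∈ P₂.powerset, (L d₁ d₂ : ℂ) *
        ((1 / (((n * ((∏ p ∈ d₁, p) * ∏ p ∈ d₂, p) : ℕ)) : ℂ)) *
          ∑ e ∈ (n * ((∏ p ∈ d₁, p) * ∏ p ∈ d₂, p)).divisors.filter (fun e => Rough y e),
            UE U e (j + n * kk W ((∏ p ∈ d₁, p) * ∏ p ∈ d₂, p))) := by
  rw [sid U W P₁ P₂ L n j hn hU h1 h2 h12]
  push_cast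
  rw [← Finset.sum_add_distrib, ← Finset.sum_add_distrib]
  refine Finset.sum_congr rfl fun d₁ hd₁ => ?_
  rw [← Finset.sum_add_distrib, ← Finset.sum_add_distrib]
  refine Finset.sum_congr rfl fun d₂ hd₂ => ?_
  have hQ : 1 ≤ n * ((∏ p ∈ d₁, p) * ∏ p ∈ d₂, p) := by
    have a1 := prod_pos (fun p hp => (h1 p hp).1) (Finset.mem_powerset.1 hd₁)
    have a2 := prod_pos (fun p hp => (h2 p hp).1) (Finset.mem_powerset.1 hd₂)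
    exact Nat.mul_pos hn (Nat.mul_pos a1 a2)
  have hd := dec U y (n * ((∏ p ∈ d₁, p) * ∏ p ∈ d₂, p))
    (j + n * kk W ((∏ p ∈ d₁, p) * ∏ p ∈ d₂, p)) hQ
  rw [hd]
  push_cast
  ring

open Classical in
/-- the error term as a sum over the union -/
private theorem err_union (U : Finset ℕ) (W y : ℕ) (P₁ P₂ : Finset ℕ)
    (L : Finset ℕ → Finset ℕ → ℝ) (n j : ℕ) (h12 : Disjoint P₁ P₂) :
    ∑ d₁ ∈ P₁.powerset, ∑ d₂ ∈ P₂.powerset, (L d₁ d₂ : ℂ) *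
        ((1 / (((n * ((∏ p ∈ d₁, p) * ∏ p ∈ d₂, p) : ℕ)) : ℂ)) *
          ∑ e ∈ (n * ((∏ p ∈ d₁, p) * ∏ p ∈ d₂, p)).divisors.filter (fun e => Rough y e),
            UE U e (j + n * kk W ((∏ p ∈ d₁, p) * ∏ p ∈ d₂, p))) =
      ∑ d ∈ (P₁ ∪ P₂).powerset, ((L (d ∩ P₁) (d ∩ P₂) / ((n * ∏ p ∈ d, p : ℕ) : ℝ) : ℝ) : ℂ) *
        ∑ e ∈ (n * ∏ p ∈ d, p).divisors.filter (fun e => Rough y e),
          UE U e (j + n * kk W (∏ p ∈ d, p)) := by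
  rw [un P₁ P₂ h12 (fun d₁ d₂ => (L d₁ d₂ : ℂ) *
        ((1 / (((n * ((∏ p ∈ d₁, p) * ∏ p ∈ d₂, p) : ℕ)) : ℂ)) *
          ∑ e ∈ (n * ((∏ p ∈ d₁, p) * ∏ p ∈ d₂, p)).divisors.filter (fun e => Rough y e),
            UE U e (j + n * kk W ((∏ p ∈ d₁, p) * ∏ p ∈ d₂, p))))]
  refine Finset.sum_congr rfl fun d hd => ?_
  rw [un_prod P₁ P₂ h12 d (Finset.mem_powerset.1 hd)]
  push_cast
  ring

/-- rearrangement of the error sum -/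
private theorem rearr (G : Finset ℕ) (J : ℕ) (GG : Finset (ℕ × ℕ)) (hGG : GG ⊆ G ×ˢ range J)
    (T : Finset (Finset ℕ)) (l : Finset ℕ → ℝ) (q : ℕ → Finset ℕ → ℕ)
    (E : ℕ → Finset ℕ → ℕ → ℂ) [DecidablePred fun s : ℕ × Finset ℕ => l s.2 ≠ 0] :
    ∑ s ∈ GG, ∑ d ∈ T, ((l d / (q s.1 d : ℝ) : ℝ) : ℂ) * E s.1 d s.2 =
      ∑ s ∈ (G ×ˢ T).filter (fun s => l s.2 ≠ 0), ∑ j ∈ range J,
        ((((if (s.1, j) ∈ GG then l s.2 else 0) / (q s.1 s.2 : ℝ) : ℝ)) : ℂ) * E s.1 s.2 j := by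
  classical
  have h1 : GG = (G ×ˢ range J).filter (fun s => s ∈ GG) := by
    ext s
    rw [Finset.mem_filter]
    exact ⟨fun h => ⟨hGG h, h⟩, fun h => h.2⟩
  have h2 : ∑ s ∈ GG, ∑ d ∈ T, ((l d / (q s.1 d : ℝ) : ℝ) : ℂ) * E s.1 d s.2 =
      ∑ s ∈ G ×ˢ range J, ∑ d ∈ T,
        ((((if s ∈ GG then l d else 0) / (q s.1 d : ℝ) : ℝ)) : ℂ) * E s.1 d s.2 := by
    conv_lhs => rw [h1]
    rw [Finset.sum_filter]
    refine Finset.sum_congr rfl fun s _ => ?_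
    by_cases hs : s ∈ GG
    · simp only [if_pos hs]
    · simp [if_neg hs]
  rw [h2, Finset.sum_product]
  have h3 : ∀ n ∈ G, ∑ j ∈ range J, ∑ d ∈ T,
        ((((if (n, j) ∈ GG then l d else 0) / (q n d : ℝ) : ℝ)) : ℂ) * E n d j =
      ∑ d ∈ T, ∑ j ∈ range J,
        ((((if (n, j) ∈ GG then l d else 0) / (q n d : ℝ) : ℝ)) : ℂ) * E n d j := by
    intro n _
    exact Finset.sum_comm
  rw [Finset.sum_congr rfl h3, ← Finset.sum_product', Finset.sum_filter]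
  refine Finset.sum_congr rfl fun s _ => ?_
  by_cases hs : l s.2 ≠ 0
  · rw [if_pos hs]
  · rw [if_neg hs]
    push Not at hs
    apply Finset.sum_eq_zero
    intro j _
    simp [hs]

theorem mainq (U : Finset ℕ) (W N J y X R E₀ Dmax : ℕ) (P₁ P₂ G : Finset ℕ) (GG : Finset (ℕ × ℕ))
    (D₁ D₂ V₁ V₂ H G₀ : ℝ) (lp₁ dp₁ lp₂ dp₂ : Finset ℕ → ℝ) (hs₁ : SW P₁ D₁ V₁ (1 / 8) lp₁ dp₁)
    (hs₂ : SW P₂ D₂ V₂ (1 / 8) lp₂ dp₂) (hN : 1 ≤ N) (hW : 1 ≤ W)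
    (h1 : ∀ p ∈ P₁, p.Prime ∧ p < y ∧ ¬ p ∣ 2 * W) (h2 : ∀ p ∈ P₂, p.Prime ∧ y ≤ p ∧ ¬ p ∣ 2 * W)
    (hG : G ⊆ Ioc N (2 * N)) (hGs : ∀ n ∈ G, (sm y n : ℝ) ≤ G₀) (hGG : GG ⊆ G ×ˢ range J)
    (hbad : ∀ s ∈ GG, SN U W P₁ P₂ (lam lp₁ dp₁ lp₂ dp₂) s.1 s.2 ≤ 0)
    (hUX : U ⊆ range X) (hUJ : ∀ u ∈ U, J ≤ u) (hX : 1 ≤ X) (hGJ : G₀ * D₁ ≤ J) (hH : 1 ≤ H)
    (hE : ∀ g b : ℕ, 1 ≤ g → (g : ℝ) ≤ G₀ * D₁ → (zc U g b : ℝ) * g ≤ #U * H)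
    (hD : D₁ * D₂ ≤ Dmax) (hR : 2 * N * Dmax ≤ R) (hy : 3 ≤ y) (hE0 : 1 ≤ E₀) (hEJ : E₀ ≤ J)
    (hEX : E₀ ^ 2 ≤ X) :
    #U * (V₁ * V₂ / 2) * (#GG / (2 * N)) ≤ 12 * V₂ * PI P₁ * J * #U * (H - 1) +
      Real.sqrt ((50 * (1 + Real.log R) * #U) *
        (12 * X * (J : ℝ) ^ 2 * (384 * PI (P₁ ∪ P₂)) ^ 2 / Real.sqrt y +
        (24 * Dmax) ^ 2 * J * (X * J / E₀ + X * (1 + Real.log R) + J * R + (R : ℝ) ^ 2))) := by
  classical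
  set L := lam lp₁ dp₁ lp₂ dp₂ with hL
  have h12 : Disjoint P₁ P₂ := by
    rw [Finset.disjoint_left]
    intro p hp1 hp2
    have a := (h1 p hp1).2.1
    have b := (h2 p hp2).2.1
    omega
  have hV1 : 0 ≤ V₁ := by
    have a := hs₁.d0
    have b := hs₁.dh
    linarith
  have hV2 : 0 ≤ V₂ := by
    have a := hs₂.d0
    have b := hs₂.dh
    linarith
  have hPI : ∀ P : Finset ℕ, 0 ≤ PI P := by
    intro P
    unfold PI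
    exact Finset.prod_nonneg fun p _ => by positivity
  have h1' : ∀ p ∈ P₁, p.Prime ∧ ¬ p ∣ 2 * W := fun p hp => ⟨(h1 p hp).1, (h1 p hp).2.2⟩
  have h2' : ∀ p ∈ P₂, p.Prime ∧ ¬ p ∣ 2 * W := fun p hp => ⟨(h2 p hp).1, (h2 p hp).2.2⟩
  have hPu : ∀ p ∈ P₁ ∪ P₂, p.Prime := by
    intro p hp
    rcases Finset.mem_union.1 hp with h | h
    · exact (h1 p h).1
    · exact (h2 p h).1
  have hnG : ∀ n ∈ G, N < n ∧ n ≤ 2 * N := fun n hn => Finset.mem_Ioc.1 (hG hn)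
  have hN0 : (0 : ℝ) < N := by exact_mod_cast hN
  -- the three parts
  set Dv : ℕ → ℕ → ℝ := fun n j => ∑ d₁ ∈ P₁.powerset, ∑ d₂ ∈ P₂.powerset, L d₁ d₂ *
        ((sm y (n * ((∏ p ∈ d₁, p) * ∏ p ∈ d₂, p)) : ℝ) /
            ((n * ((∏ p ∈ d₁, p) * ∏ p ∈ d₂, p) : ℕ) : ℝ) *
          zc U (sm y (n * ((∏ p ∈ d₁, p) * ∏ p ∈ d₂, p)))
            (j + n * kk W ((∏ p ∈ d₁, p) * ∏ p ∈ d₂, p)) -
          #U / ((n * ((∏ p ∈ d₁, p) * ∏ p ∈ d₂, p) : ℕ) : ℝ)) with hDv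
  set Cn : ℕ → ℝ := fun n => ∑ d₁ ∈ P₁.powerset, ∑ d₂ ∈ P₂.powerset, L d₁ d₂ *
          (#U / ((n * ((∏ p ∈ d₁, p) * ∏ p ∈ d₂, p) : ℕ) : ℝ)) with hCn
  set Er : ℕ → ℕ → ℂ := fun n j => ∑ d₁ ∈ P₁.powerset, ∑ d₂ ∈ P₂.powerset, (L d₁ d₂ : ℂ) *
        ((1 / (((n * ((∏ p ∈ d₁, p) * ∏ p ∈ d₂, p) : ℕ)) : ℂ)) *
          ∑ e ∈ (n * ((∏ p ∈ d₁, p) * ∏ p ∈ d₂, p)).divisors.filter (fun e => Rough y e),
            UE U e (j + n * kk W ((∏ p ∈ d₁, p) * ∏ p ∈ d₂, p))) with hEr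
  have hmem : ∀ s ∈ GG, s.1 ∈ G ∧ s.2 < J := by
    intro s hs
    have := hGG hs
    rw [Finset.mem_product, Finset.mem_range] at this
    exact this
  have hsplit : ∀ s ∈ GG, ((SN U W P₁ P₂ L s.1 s.2 : ℝ) : ℂ) =
      ((Dv s.1 s.2 : ℝ) : ℂ) + ((Cn s.1 : ℝ) : ℂ) + Er s.1 s.2 := by
    intro s hs
    obtain ⟨hs1, hs2⟩ := hmem s hs
    exact split1 U W y P₁ P₂ L s.1 s.2 (by have := hnG s.1 hs1; omega)
      (fun u hu => lt_of_lt_of_le hs2 (hUJ u hu)) h1' h2' h12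
  have hsum : ((∑ s ∈ GG, SN U W P₁ P₂ L s.1 s.2 : ℝ) : ℂ) =
      ((∑ s ∈ GG, Dv s.1 s.2 : ℝ) : ℂ) + ((∑ s ∈ GG, Cn s.1 : ℝ) : ℂ) + ∑ s ∈ GG, Er s.1 s.2 := by
    push_cast
    rw [← Finset.sum_add_distrib, ← Finset.sum_add_distrib]
    exact Finset.sum_congr rfl hsplit
  have hEreq : ∑ s ∈ GG, Er s.1 s.2 =
      ((∑ s ∈ GG, SN U W P₁ P₂ L s.1 s.2 - ∑ s ∈ GG, Dv s.1 s.2 - ∑ s ∈ GG, Cn s.1 : ℝ) : ℂ) := by
    rw [Complex.ofReal_sub, Complex.ofReal_sub, hsum]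
    ring
  have hneg : ∑ s ∈ GG, SN U W P₁ P₂ L s.1 s.2 ≤ 0 := Finset.sum_nonpos hbad
  have hmain : ∑ s ∈ GG, Cn s.1 ≤ |∑ s ∈ GG, Dv s.1 s.2| + ‖∑ s ∈ GG, Er s.1 s.2‖ := by
    rw [hEreq, Complex.norm_real, Real.norm_eq_abs]
    have a := neg_abs_le (∑ s ∈ GG, SN U W P₁ P₂ L s.1 s.2 - ∑ s ∈ GG, Dv s.1 s.2 - ∑ s ∈ GG, Cn s.1)
    have b := neg_abs_le (∑ s ∈ GG, Dv s.1 s.2)
    linarith
  -- the constant part
  have hconst : #U * (V₁ * V₂ / 2) * (#GG / (2 * N)) ≤ ∑ s ∈ GG, Cn s.1 := by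
    have hc : ∀ s ∈ GG, #U * (V₁ * V₂ / 2) * (1 / (2 * N)) ≤ Cn s.1 := by
      intro s hs
      obtain ⟨hs1, hs2⟩ := hmem s hs
      obtain ⟨hn1, hn2⟩ := hnG s.1 hs1
      have hn0 : (0 : ℝ) < s.1 := by
        have : 0 < s.1 := by omega
        exact_mod_cast this
      have e1 : Cn s.1 = (#U / s.1) * ∑ d₁ ∈ P₁.powerset, ∑ d₂ ∈ P₂.powerset, L d₁ d₂ /
          (((∏ p ∈ d₁, p) * ∏ p ∈ d₂, p : ℕ) : ℝ) := by
        rw [hCn]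
        simp only
        rw [Finset.mul_sum]
        refine Finset.sum_congr rfl fun d₁ _ => ?_
        rw [Finset.mul_sum]
        refine Finset.sum_congr rfl fun d₂ _ => ?_
        push_cast
        rw [div_mul_eq_div_div]
        ring
      have e2 := lam_mean P₁ P₂ D₁ D₂ V₁ V₂ lp₁ dp₁ lp₂ dp₂ hs₁ hs₂
      rw [e1]
      calc #U * (V₁ * V₂ / 2) * (1 / (2 * N)) = (#U * (1 / (2 * (N : ℝ)))) * (V₁ * V₂ / 2) := by ring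
        _ ≤ (#U * (1 / (s.1 : ℝ))) * (V₁ * V₂ / 2) := by
            apply mul_le_mul_of_nonneg_right _ (by positivity)
            apply mul_le_mul_of_nonneg_left _ (Nat.cast_nonneg _)
            apply one_div_le_one_div_of_le hn0
            exact_mod_cast hn2
        _ = (#U / s.1) * (V₁ * V₂ / 2) := by ring
        _ ≤ _ := mul_le_mul_of_nonneg_left e2 (by positivity)
    have hsum2 := Finset.card_nsmul_le_sum GG (fun s => Cn s.1) _ hc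
    rw [nsmul_eq_mul] at hsum2
    refine le_trans (le_of_eq ?_) hsum2
    ring
  -- the deviation
  have hdev : |∑ s ∈ GG, Dv s.1 s.2| ≤ 12 * V₂ * PI P₁ * J * #U * (H - 1) := by
    have hK0 : 0 ≤ 12 * V₂ * PI P₁ * J * #U * (H - 1) := by
      have := hPI P₁
      have h3 : 0 ≤ H - 1 := by linarith
      positivity
    calc |∑ s ∈ GG, Dv s.1 s.2| ≤ ∑ s ∈ GG, |Dv s.1 s.2| := Finset.abs_sum_le_sum_abs _ _
      _ ≤ ∑ s ∈ G ×ˢ range J, |Dv s.1 s.2| :=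
          Finset.sum_le_sum_of_subset_of_nonneg hGG fun s _ _ => abs_nonneg _
      _ = ∑ n ∈ G, ∑ j ∈ range J, |Dv n j| := Finset.sum_product _ _ _
      _ ≤ ∑ n ∈ G, 12 * V₂ * PI P₁ * J * #U * (H - 1) * (1 / n) := by
          apply Finset.sum_le_sum
          intro n hn
          obtain ⟨hn1, hn2⟩ := hnG n hn
          have := dev U W n J y P₁ P₂ D₁ D₂ V₁ V₂ H G₀ lp₁ dp₁ lp₂ dp₂ hs₁ hs₂ (by omega) h1 h2
            (hGs n hn) hGJ hH hE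
          refine this.trans (le_of_eq ?_)
          ring
      _ = 12 * V₂ * PI P₁ * J * #U * (H - 1) * ∑ n ∈ G, (1 : ℝ) / n := by rw [Finset.mul_sum]
      _ ≤ 12 * V₂ * PI P₁ * J * #U * (H - 1) * 1 :=
          mul_le_mul_of_nonneg_left (sum_inv_le N hN G hG) hK0
      _ = _ := mul_one _
  -- the error
  set f : Finset ℕ → ℝ := fun d => L (d ∩ P₁) (d ∩ P₂) with hf
  set f' : Finset ℕ → ℝ := fun d => if d ⊆ P₁ ∪ P₂ then f d else 0 with hf'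
  have hf3 : ∀ d, |f d| ≤ 3 := fun d =>
    (lam_abs P₁ P₂ D₁ D₂ V₁ V₂ lp₁ dp₁ lp₂ dp₂ hs₁ hs₂ (d ∩ P₁) (d ∩ P₂)).1
  have hf'3 : ∀ d, |f' d| ≤ 3 := by
    intro d
    rw [hf']
    simp only
    split_ifs
    · exact hf3 d
    · simp
  have hfD : ∀ d, d ⊆ P₁ ∪ P₂ → f d ≠ 0 → ∏ p ∈ d, p ≤ Dmax := by
    intro d hd hfd
    obtain ⟨a1, a2⟩ := (lam_abs P₁ P₂ D₁ D₂ V₁ V₂ lp₁ dp₁ lp₂ dp₂ hs₁ hs₂ (d ∩ P₁) (d ∩ P₂)).2 hfd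
    have a3 := un_prod P₁ P₂ h12 d hd
    have a4 : ((∏ p ∈ d, p : ℕ) : ℝ) ≤ Dmax := by
      rw [← a3, Nat.cast_mul]
      refine le_trans (mul_le_mul a1 a2 (Nat.cast_nonneg _) ?_) hD
      exact (Nat.cast_nonneg _).trans a1
    exact_mod_cast a4
  have hf'D : ∀ d, f' d ≠ 0 → ∏ p ∈ d, p ≤ Dmax := by
    intro d hd
    rw [hf'] at hd
    simp only at hd
    by_cases h : d ⊆ P₁ ∪ P₂
    · rw [if_pos h] at hd
      exact hfD d h hd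
    · rw [if_neg h] at hd
      exact absurd rfl hd
  set S : Finset (ℕ × Finset ℕ) := (G ×ˢ (P₁ ∪ P₂).powerset).filter (fun s => f s.2 ≠ 0) with hS
  have hErr : ∑ s ∈ GG, Er s.1 s.2 = ∑ s ∈ S, ∑ j ∈ range J,
      ((((if (s.1, j) ∈ GG then f s.2 else 0) / ((s.1 * ∏ p ∈ s.2, p : ℕ) : ℝ) : ℝ)) : ℂ) *
        ∑ e ∈ (s.1 * ∏ p ∈ s.2, p).divisors.filter (fun e => Rough y e),
          UE U e (j + s.1 * kk W (∏ p ∈ s.2, p)) := by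
    have e1 : ∀ s ∈ GG, Er s.1 s.2 = ∑ d ∈ (P₁ ∪ P₂).powerset,
        ((f d / ((s.1 * ∏ p ∈ d, p : ℕ) : ℝ) : ℝ) : ℂ) *
          ∑ e ∈ (s.1 * ∏ p ∈ d, p).divisors.filter (fun e => Rough y e),
            UE U e (s.2 + s.1 * kk W (∏ p ∈ d, p)) := by
      intro s _
      exact err_union U W y P₁ P₂ L s.1 s.2 h12
    rw [Finset.sum_congr rfl e1]
    exact rearr G J GG hGG (P₁ ∪ P₂).powerset f (fun n d => n * ∏ p ∈ d, p)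
      (fun n d j => ∑ e ∈ (n * ∏ p ∈ d, p).divisors.filter (fun e => Rough y e),
        UE U e (j + n * kk W (∏ p ∈ d, p)))
  have hQS : ∀ s ∈ S, 1 ≤ s.1 * ∏ p ∈ s.2, p ∧ s.1 * ∏ p ∈ s.2, p ≤ R := by
    intro s hs
    rw [hS, Finset.mem_filter, Finset.mem_product, Finset.mem_powerset] at hs
    obtain ⟨⟨b1, b2⟩, b3⟩ := hs
    obtain ⟨hn1, hn2⟩ := hnG s.1 b1
    have b4 := prod_pos hPu b2
    refine ⟨Nat.mul_pos (by omega) b4, ?_⟩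
    exact (Nat.mul_le_mul hn2 (hfD s.2 b2 b3)).trans hR
  have herr := err S (fun s => s.1 * ∏ p ∈ s.2, p) (fun s => s.1 * kk W (∏ p ∈ s.2, p))
    (fun s j => if (s.1, j) ∈ GG then f s.2 else 0) (fun s => |f s.2|) y X R J U hUX hX hQS (by
      intro s _ j _
      split_ifs
      · exact le_rfl
      · simp)
  set A : ℕ → ℝ := fun e => ∑ s ∈ (G ×ˢ (P₁ ∪ P₂).powerset).filter
    (fun s => e ∣ s.1 * ∏ p ∈ s.2, p), |f' s.2| / ((s.1 * ∏ p ∈ s.2, p : ℕ) : ℝ) with hA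
  have hA0 : ∀ e, 0 ≤ A e := fun e => Finset.sum_nonneg fun s _ => by positivity
  have hA1 : ∀ e : ℕ, 1 ≤ e → A e ≤ (384 * PI (P₁ ∪ P₂)) * ((e : ℝ) ^ ((1 : ℝ) / 4) / e) := by
    intro e he
    refine (aef N e he G (P₁ ∪ P₂) hG hPu f' 3 hf'3).trans (le_of_eq ?_)
    ring
  have hA2 : ∀ e : ℕ, 1 ≤ e → A e ≤ (24 * Dmax) / e := by
    intro e he
    refine (PoolLS.aq N Dmax e he G (P₁ ∪ P₂) (hG.trans ?_) hPu f' 3 hf'3 hf'D).trans (le_of_eq ?_)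
    · intro n hn
      rw [Finset.mem_Ioc] at hn ⊢
      omega
    · ring
  have hAS : ∀ e, ∑ s ∈ S.filter (fun s => e ∣ s.1 * ∏ p ∈ s.2, p),
      |f s.2| / ((s.1 * ∏ p ∈ s.2, p : ℕ) : ℝ) ≤ A e := by
    intro e
    have c1 : ∑ s ∈ S.filter (fun s => e ∣ s.1 * ∏ p ∈ s.2, p),
        |f s.2| / ((s.1 * ∏ p ∈ s.2, p : ℕ) : ℝ) =
        ∑ s ∈ S.filter (fun s => e ∣ s.1 * ∏ p ∈ s.2, p),
        |f' s.2| / ((s.1 * ∏ p ∈ s.2, p : ℕ) : ℝ) := by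
      refine Finset.sum_congr rfl fun s hs => ?_
      rw [Finset.mem_filter, hS, Finset.mem_filter, Finset.mem_product, Finset.mem_powerset] at hs
      rw [hf']
      simp only
      rw [if_pos hs.1.1.2]
    rw [c1]
    apply Finset.sum_le_sum_of_subset_of_nonneg
    · intro s hs
      rw [Finset.mem_filter, hS, Finset.mem_filter] at hs
      rw [Finset.mem_filter]
      exact ⟨hs.1.1, hs.2⟩
    · intro s _ _
      positivity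
  have hlog : 0 ≤ Real.log (R : ℝ) := Real.log_natCast_nonneg R
  have hfin : ‖∑ s ∈ GG, Er s.1 s.2‖ ^ 2 ≤ (50 * (1 + Real.log R) * #U) *
        (12 * X * (J : ℝ) ^ 2 * (384 * PI (P₁ ∪ P₂)) ^ 2 / Real.sqrt y +
        (24 * Dmax) ^ 2 * J * (X * J / E₀ + X * (1 + Real.log R) + J * R + (R : ℝ) ^ 2)) := by
    rw [hErr]
    refine herr.trans ?_
    apply mul_le_mul_of_nonneg_left _ (by positivity)
    have hn := errn X J R y E₀ (384 * PI (P₁ ∪ P₂)) (24 * Dmax) A hy hE0 hEJ hEX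
      (mul_nonneg (by norm_num) (hPI _)) (by positivity) (fun e _ => hA0 e) hA1 hA2
    refine le_trans ?_ hn
    calc ∑ e ∈ (Icc 1 R).filter (fun e => Rough y e),
          ((X : ℝ) + (e : ℝ) ^ 2) * (((J : ℝ) + e) * J *
            (∑ s ∈ S.filter (fun s => e ∣ s.1 * ∏ p ∈ s.2, p),
              |f s.2| / ((s.1 * ∏ p ∈ s.2, p : ℕ) : ℝ)) ^ 2)
        ≤ ∑ e ∈ (Icc 1 R).filter (fun e => Rough y e),
          ((X : ℝ) + (e : ℝ) ^ 2) * (((J : ℝ) + e) * J * (A e) ^ 2) := by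
          apply Finset.sum_le_sum
          intro e _
          apply mul_le_mul_of_nonneg_left _ (by positivity)
          apply mul_le_mul_of_nonneg_left _ (by positivity)
          exact pow_le_pow_left₀ (Finset.sum_nonneg fun s _ => by positivity) (hAS e) 2
      _ ≤ _ := by
          apply Finset.sum_le_sum_of_subset_of_nonneg
          · intro e he
            rw [Finset.mem_filter, Finset.mem_Icc] at he ⊢
            obtain ⟨⟨c1, c2⟩, p, hp, hyp, hpe⟩ := he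
            exact ⟨⟨c1, c2⟩, hyp.trans (Nat.le_of_dvd c1 hpe)⟩
          · intro e _ _
            positivity
  have hnorm : ‖∑ s ∈ GG, Er s.1 s.2‖ ≤ Real.sqrt ((50 * (1 + Real.log R) * #U) *
        (12 * X * (J : ℝ) ^ 2 * (384 * PI (P₁ ∪ P₂)) ^ 2 / Real.sqrt y +
        (24 * Dmax) ^ 2 * J * (X * J / E₀ + X * (1 + Real.log R) + J * R + (R : ℝ) ^ 2))) :=
    Real.le_sqrt_of_sq_le hfin
  linarith

end PoolUS
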