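import Mathlib

set_option autoImplicit false

/-!
Module Numb (size M). The large sieve error is smaller than the main term (a real inequality).

PROOF. Square: it suffices that 50 lR m (12 X J^2 (384 Pi)^2/sy + (24 D)^2 J (X J/E + X lR + J R + R^2)) ≤
m^2 J^2 (cl/lz)^2 η^2/256, and (cl/lz)^2 η^2 ≥ cl^2/(9 ℓ^4) (lz ≤ ℓ, η ≥ 1/(3ℓ)), so the right side is ≥
m^2 J^2 cl^2/(2304 ℓ^4). Divide by m^2 J^2. With X ≤ 2 m ℓ^k, lR ≤ 3 ℓ, Pi ≤ C ℓ: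
first term ≤ 50·3ℓ·12·2ℓ^k·(384 C ℓ)^2/ℓ^(k+19) ≤ const(C) ℓ^(-16);
the others are ≤ 50·3ℓ·576 D^2 (2ℓ^k/E + 2ℓ^k·3ℓ/J + R/m + R^2/(J m)), with D ≤ P^4, 1/E ≤ 2/P^16,
1/J ≤ 1/P^32, R/m = 2 N D/m ≤ 2 D w ℓ^k/N ≤ 2 P^5 ℓ^k/P^64 (1/m ≤ w ℓ^k/N^2), R^2/(J m) = 4 N^2 D^2/(J m) ≤
4 D^2 w ℓ^k/J ≤ 4 P^9 ℓ^k/P^32. So they are ≤ const ℓ^(k+2) P^(-8) (P ≥ 1), and P ≥ K ℓ^M with M = k + 10 and K
large makes this ≤ half of cl^2/(2304 ℓ^4); ℓ ≥ K does the same for the first.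
-/

namespace PoolUS

private theorem term1 (k : ℕ) (C cl ℓ m X J Pi sy lR : ℝ) (hC : 0 < C) (hcl : 0 < cl)
    (hℓ : 1 ≤ ℓ) (hK : 4608 * (3600 * 384 ^ 2 * C ^ 2) ≤ cl ^ 2 * ℓ) (hm : 0 < m) (hX : 0 ≤ X)
    (hX2 : X ≤ 2 * m * ℓ ^ k) (hPi : 0 ≤ Pi) (hPi2 : Pi ≤ C * ℓ) (hsy : ℓ ^ (k + 19) ≤ sy)
    (hlR : 0 ≤ lR) (hlR2 : lR ≤ 3 * ℓ) :
    (50 * lR * m) * (12 * X * J ^ 2 * (384 * Pi) ^ 2 / sy) * (4608 * ℓ ^ 4) ≤
      cl ^ 2 * m ^ 2 * J ^ 2 := by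
  have hℓ0 : 0 < ℓ := by linarith
  have hp : 0 < ℓ ^ (k + 19) := by positivity
  have hsy0 : 0 < sy := lt_of_lt_of_le hp hsy
  have hJ2 : 0 ≤ J ^ 2 := sq_nonneg J
  have hPis : Pi ^ 2 ≤ (C * ℓ) ^ 2 := pow_le_pow_left₀ hPi hPi2 2
  have h1 : (50 * lR * m) * (12 * X * J ^ 2 * (384 * Pi) ^ 2) ≤
      (50 * (3 * ℓ) * m) * (12 * (2 * m * ℓ ^ k) * J ^ 2 * (384 ^ 2 * (C * ℓ) ^ 2)) := by
    have e1 : 50 * lR * m ≤ 50 * (3 * ℓ) * m := by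
      have := mul_le_mul_of_nonneg_right hlR2 hm.le
      nlinarith
    have e2 : 12 * X * J ^ 2 * (384 * Pi) ^ 2 ≤
        12 * (2 * m * ℓ ^ k) * J ^ 2 * (384 ^ 2 * (C * ℓ) ^ 2) := by
      have a1 : 12 * X * J ^ 2 ≤ 12 * (2 * m * ℓ ^ k) * J ^ 2 := by
        apply mul_le_mul_of_nonneg_right _ hJ2
        linarith
      have a2 : (384 * Pi) ^ 2 ≤ 384 ^ 2 * (C * ℓ) ^ 2 := by
        rw [mul_pow]
        nlinarith
      apply mul_le_mul a1 a2 (by positivity) (by positivity)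
    apply mul_le_mul e1 e2 (by positivity) (by positivity)
  have h2 : (50 * lR * m) * (12 * X * J ^ 2 * (384 * Pi) ^ 2 / sy) ≤
      (50 * (3 * ℓ) * m) * (12 * (2 * m * ℓ ^ k) * J ^ 2 * (384 ^ 2 * (C * ℓ) ^ 2)) /
        ℓ ^ (k + 19) := by
    rw [← mul_div_assoc]
    exact div_le_div₀ (by positivity) h1 hp hsy
  have h3 : (50 * (3 * ℓ) * m) * (12 * (2 * m * ℓ ^ k) * J ^ 2 * (384 ^ 2 * (C * ℓ) ^ 2)) /
        ℓ ^ (k + 19) * (4608 * ℓ ^ 4) =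
      (4608 * (3600 * 384 ^ 2 * C ^ 2)) * (m ^ 2 * J ^ 2) / ℓ ^ 12 := by
    rw [pow_add ℓ k 19]
    field_simp
    ring
  have h4 : (4608 * (3600 * 384 ^ 2 * C ^ 2)) * (m ^ 2 * J ^ 2) / ℓ ^ 12 ≤
      cl ^ 2 * m ^ 2 * J ^ 2 := by
    rw [div_le_iff₀ (by positivity)]
    have hl12 : ℓ ≤ ℓ ^ 12 := by
      calc ℓ = ℓ ^ 1 := (pow_one ℓ).symm
        _ ≤ ℓ ^ 12 := pow_le_pow_right₀ hℓ (by norm_num)
    have e1 : 4608 * (3600 * 384 ^ 2 * C ^ 2) ≤ cl ^ 2 * ℓ ^ 12 :=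
      hK.trans (mul_le_mul_of_nonneg_left hl12 (by positivity))
    have := mul_le_mul_of_nonneg_right e1 (show 0 ≤ m ^ 2 * J ^ 2 by positivity)
    calc _ ≤ cl ^ 2 * ℓ ^ 12 * (m ^ 2 * J ^ 2) := this
      _ = cl ^ 2 * m ^ 2 * J ^ 2 * ℓ ^ 12 := by ring
  calc _ ≤ (50 * (3 * ℓ) * m) * (12 * (2 * m * ℓ ^ k) * J ^ 2 * (384 ^ 2 * (C * ℓ) ^ 2)) /
        ℓ ^ (k + 19) * (4608 * ℓ ^ 4) := mul_le_mul_of_nonneg_right h2 (by positivity)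
    _ ≤ _ := by rw [h3]; exact h4

private theorem term2 (k : ℕ) (cl ℓ m X J R E D w N P lR : ℝ) (hcl : 0 < cl)
    (hℓ : 1 ≤ ℓ) (hP1 : 1 ≤ P) (hK : 4608 * 1382400 * ℓ ^ (k + 6) ≤ cl ^ 2 * P) (hm : 0 < m)
    (hX : 0 ≤ X) (hX2 : X ≤ 2 * m * ℓ ^ k) (hN : N ^ 2 ≤ m * w * ℓ ^ k) (hw : 0 < w) (hwP : w ≤ P)
    (hD : 0 ≤ D) (hD4 : D ≤ P ^ 4) (hJ : P ^ 32 ≤ J) (hE : P ^ 16 ≤ 2 * E) (hNP : P ^ 64 ≤ N)
    (hR : R = 2 * N * D) (hlR : 0 ≤ lR) (hlR2 : lR ≤ 3 * ℓ) :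
    (50 * lR * m) * ((24 * D) ^ 2 * J * (X * J / E + X * lR + J * R + R ^ 2)) * (4608 * ℓ ^ 4) ≤
      cl ^ 2 * m ^ 2 * J ^ 2 := by
  have hℓ0 : 0 < ℓ := by linarith
  have hP0 : 0 < P := by linarith
  have hJ0 : 0 < J := lt_of_lt_of_le (by positivity) hJ
  have hE0 : 0 < E := by
    have : 0 < P ^ 16 := by positivity
    linarith
  have hN0 : 0 < N := lt_of_lt_of_le (by positivity) hNP
  have hR0 : 0 ≤ R := by rw [hR]; positivity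
  have hlk : 0 < ℓ ^ k := by positivity
  have hlk1 : ℓ ^ k ≤ ℓ ^ (k + 1) := pow_le_pow_right₀ hℓ (by omega)
  have hpow : ∀ i j : ℕ, i ≤ j → P ^ i ≤ P ^ j := fun i j h => pow_le_pow_right₀ hP1 h
  have hD2 : D ^ 2 ≤ P ^ 8 := by
    calc D ^ 2 ≤ (P ^ 4) ^ 2 := pow_le_pow_left₀ hD hD4 2
      _ = P ^ 8 := by ring
  have hD20 : 0 ≤ D ^ 2 := sq_nonneg D
  have hN2 : N ^ 2 ≤ m * P * ℓ ^ k := by
    refine hN.trans ?_
    apply mul_le_mul_of_nonneg_right _ hlk.le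
    exact mul_le_mul_of_nonneg_left hwP hm.le
  -- the four terms
  have t1 : D ^ 2 * (X * J / E) * P ^ 8 ≤ 4 * m * ℓ ^ (k + 1) * J := by
    have e1 : X * J / E ≤ 2 * m * ℓ ^ k * J * (2 / P ^ 16) := by
      rw [div_eq_mul_inv]
      have : E⁻¹ ≤ 2 / P ^ 16 := by
        rw [inv_le_comm₀ hE0 (by positivity), inv_div]
        linarith
      apply mul_le_mul _ this (by positivity) (by positivity)
      exact mul_le_mul_of_nonneg_right hX2 hJ0.le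
    calc D ^ 2 * (X * J / E) * P ^ 8 ≤ P ^ 8 * (2 * m * ℓ ^ k * J * (2 / P ^ 16)) * P ^ 8 := by
          apply mul_le_mul_of_nonneg_right _ (by positivity)
          apply mul_le_mul hD2 e1 (by positivity) (by positivity)
      _ = 4 * m * ℓ ^ k * J := by
          field_simp
          ring
      _ ≤ 4 * m * ℓ ^ (k + 1) * J := by
          apply mul_le_mul_of_nonneg_right _ hJ0.le
          exact mul_le_mul_of_nonneg_left hlk1 (by positivity)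
  have t2 : D ^ 2 * (X * lR) * P ^ 8 ≤ 6 * m * ℓ ^ (k + 1) * J := by
    have e1 : X * lR ≤ 2 * m * ℓ ^ k * (3 * ℓ) := mul_le_mul hX2 hlR2 hlR (by positivity)
    calc D ^ 2 * (X * lR) * P ^ 8 ≤ P ^ 8 * (2 * m * ℓ ^ k * (3 * ℓ)) * P ^ 8 := by
          apply mul_le_mul_of_nonneg_right _ (by positivity)
          apply mul_le_mul hD2 e1 (by positivity) (by positivity)
      _ = 6 * m * ℓ ^ (k + 1) * P ^ 16 := by ring
      _ ≤ 6 * m * ℓ ^ (k + 1) * J := by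
          apply mul_le_mul_of_nonneg_left _ (by positivity)
          exact (hpow 16 32 (by norm_num)).trans hJ
  have hNm : N * P ^ 63 ≤ m * ℓ ^ k := by
    have e1 : N * P ^ 64 ≤ m * P * ℓ ^ k := by
      calc N * P ^ 64 ≤ N * N := mul_le_mul_of_nonneg_left hNP hN0.le
        _ = N ^ 2 := by ring
        _ ≤ _ := hN2
    have e2 : (N * P ^ 63) * P ≤ (m * ℓ ^ k) * P := by
      calc (N * P ^ 63) * P = N * P ^ 64 := by ring
        _ ≤ m * P * ℓ ^ k := e1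
        _ = _ := by ring
    exact le_of_mul_le_mul_right e2 hP0
  have hRle : R ≤ 2 * N * P ^ 4 := by
    rw [hR]
    exact mul_le_mul_of_nonneg_left hD4 (by positivity)
  have t3 : D ^ 2 * (J * R) * P ^ 8 ≤ 2 * m * ℓ ^ (k + 1) * J := by
    calc D ^ 2 * (J * R) * P ^ 8 ≤ P ^ 8 * (J * (2 * N * P ^ 4)) * P ^ 8 := by
          apply mul_le_mul_of_nonneg_right _ (by positivity)
          apply mul_le_mul hD2 _ (by positivity) (by positivity)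
          exact mul_le_mul_of_nonneg_left hRle hJ0.le
      _ = 2 * (N * P ^ 20) * J := by ring
      _ ≤ 2 * (m * ℓ ^ (k + 1)) * J := by
          apply mul_le_mul_of_nonneg_right _ hJ0.le
          apply mul_le_mul_of_nonneg_left _ (by norm_num)
          calc N * P ^ 20 ≤ N * P ^ 63 := mul_le_mul_of_nonneg_left (hpow 20 63 (by norm_num)) hN0.le
            _ ≤ m * ℓ ^ k := hNm
            _ ≤ m * ℓ ^ (k + 1) := mul_le_mul_of_nonneg_left hlk1 hm.le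
      _ = _ := by ring
  have t4 : D ^ 2 * (R ^ 2) * P ^ 8 ≤ 4 * m * ℓ ^ (k + 1) * J := by
    have e1 : R ^ 2 ≤ 4 * (m * P * ℓ ^ k) * P ^ 8 := by
      calc R ^ 2 ≤ (2 * N * P ^ 4) ^ 2 := pow_le_pow_left₀ hR0 hRle 2
        _ = 4 * N ^ 2 * P ^ 8 := by ring
        _ ≤ 4 * (m * P * ℓ ^ k) * P ^ 8 := by
            apply mul_le_mul_of_nonneg_right _ (by positivity)
            linarith
    calc D ^ 2 * (R ^ 2) * P ^ 8 ≤ P ^ 8 * (4 * (m * P * ℓ ^ k) * P ^ 8) * P ^ 8 := by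
          apply mul_le_mul_of_nonneg_right _ (by positivity)
          apply mul_le_mul hD2 e1 (by positivity) (by positivity)
      _ = 4 * m * ℓ ^ k * P ^ 25 := by ring
      _ ≤ 4 * m * ℓ ^ (k + 1) * J := by
          apply mul_le_mul _ _ (by positivity) (by positivity)
          · exact mul_le_mul_of_nonneg_left hlk1 (by positivity)
          · exact (hpow 25 32 (by norm_num)).trans hJ
  have hB : D ^ 2 * (X * J / E + X * lR + J * R + R ^ 2) * P ^ 8 ≤ 16 * m * ℓ ^ (k + 1) * J := by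
    have : D ^ 2 * (X * J / E + X * lR + J * R + R ^ 2) * P ^ 8 =
        D ^ 2 * (X * J / E) * P ^ 8 + D ^ 2 * (X * lR) * P ^ 8 + D ^ 2 * (J * R) * P ^ 8 +
          D ^ 2 * (R ^ 2) * P ^ 8 := by ring
    rw [this]
    linarith
  have hA : (50 * lR * m) ≤ 50 * (3 * ℓ) * m := by
    apply mul_le_mul_of_nonneg_right _ hm.le
    linarith
  have hP8 : P ≤ P ^ 8 := by
    calc P = P ^ 1 := (pow_one P).symm
      _ ≤ P ^ 8 := hpow 1 8 (by norm_num)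
  have hfin : ((50 * lR * m) * ((24 * D) ^ 2 * J * (X * J / E + X * lR + J * R + R ^ 2)) *
      (4608 * ℓ ^ 4)) * P ^ 8 ≤ (cl ^ 2 * m ^ 2 * J ^ 2) * P ^ 8 := by
    calc ((50 * lR * m) * ((24 * D) ^ 2 * J * (X * J / E + X * lR + J * R + R ^ 2)) *
      (4608 * ℓ ^ 4)) * P ^ 8
        = (50 * lR * m) * (576 * J * (4608 * ℓ ^ 4) *
          (D ^ 2 * (X * J / E + X * lR + J * R + R ^ 2) * P ^ 8)) := by ring
      _ ≤ (50 * (3 * ℓ) * m) * (576 * J * (4608 * ℓ ^ 4) * (16 * m * ℓ ^ (k + 1) * J)) := by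
          apply mul_le_mul hA _ _ (by positivity)
          · exact mul_le_mul_of_nonneg_left hB (by positivity)
          · positivity
      _ = (4608 * 1382400 * ℓ ^ (k + 6)) * (m ^ 2 * J ^ 2) := by ring
      _ ≤ (cl ^ 2 * P ^ 8) * (m ^ 2 * J ^ 2) := by
          apply mul_le_mul_of_nonneg_right _ (by positivity)
          exact hK.trans (mul_le_mul_of_nonneg_left hP8 (by positivity))
      _ = _ := by ring
  exact le_of_mul_le_mul_right hfin (by positivity)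

theorem numb (k : ℕ) (C cl : ℝ) (hC : 0 < C) (hcl : 0 < cl) : ∃ (K : ℝ) (M : ℕ), 1 ≤ K ∧
    ∀ ℓ m X J R E D w Pi sy lz η N P lR : ℝ, K ≤ ℓ → K * ℓ ^ M ≤ P → 0 < m → 0 ≤ X →
    X ≤ 2 * m * ℓ ^ k → N ^ 2 ≤ m * w * ℓ ^ k → 0 < w → w ≤ P → 0 ≤ D → D ≤ P ^ 4 → P ^ 32 ≤ J →
    P ^ 16 ≤ 2 * E → P ^ 64 ≤ N → R = 2 * N * D → 0 ≤ Pi → Pi ≤ C * ℓ → ℓ ^ (k + 19) ≤ sy →
    0 ≤ lR → lR ≤ 3 * ℓ → 0 < lz → lz ≤ ℓ → 1 ≤ 3 * ℓ * η →
    Real.sqrt ((50 * lR * m) * (12 * X * J ^ 2 * (384 * Pi) ^ 2 / sy +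
      (24 * D) ^ 2 * J * (X * J / E + X * lR + J * R + R ^ 2))) ≤ m * J * (cl / lz) * η / 16 := by
  refine ⟨1 + 4608 * (3600 * 384 ^ 2 * C ^ 2) / cl ^ 2 + 4608 * 1382400 / cl ^ 2, k + 6, ?_, ?_⟩
  · have h1 : 0 ≤ 4608 * (3600 * 384 ^ 2 * C ^ 2) / cl ^ 2 := by positivity
    have h2 : 0 ≤ 4608 * 1382400 / cl ^ 2 := by positivity
    linarith
  intro ℓ m X J R E D w Pi sy lz η N P lR hKℓ hKP hm hX hX2 hN hw hwP hD hD4 hJ hE hNP hR hPi hPi2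
    hsy hlR hlR2 hlz hlz2 hη
  have h1 : 0 ≤ 4608 * (3600 * 384 ^ 2 * C ^ 2) / cl ^ 2 := by positivity
  have h2 : 0 ≤ 4608 * 1382400 / cl ^ 2 := by positivity
  have hcl2 : 0 < cl ^ 2 := by positivity
  have hℓ : 1 ≤ ℓ := by linarith
  have hℓ0 : 0 < ℓ := by linarith
  have hlM : 1 ≤ ℓ ^ (k + 6) := one_le_pow₀ hℓ
  have hP1 : 1 ≤ P := by
    refine le_trans ?_ hKP
    have : (1 : ℝ) * 1 ≤ (1 + 4608 * (3600 * 384 ^ 2 * C ^ 2) / cl ^ 2 + 4608 * 1382400 / cl ^ 2) *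
        ℓ ^ (k + 6) := mul_le_mul (by linarith) hlM (by norm_num) (by linarith)
    linarith
  have hJ0 : 0 < J := lt_of_lt_of_le (by positivity) hJ
  have k1 : 4608 * (3600 * 384 ^ 2 * C ^ 2) ≤ cl ^ 2 * ℓ := by
    have : 4608 * (3600 * 384 ^ 2 * C ^ 2) / cl ^ 2 ≤ ℓ := by linarith
    rw [div_le_iff₀ hcl2] at this
    linarith
  have k2 : 4608 * 1382400 * ℓ ^ (k + 6) ≤ cl ^ 2 * P := by
    have e1 : 4608 * 1382400 / cl ^ 2 * ℓ ^ (k + 6) ≤ P := by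
      refine le_trans ?_ hKP
      apply mul_le_mul_of_nonneg_right _ (by positivity)
      linarith
    have e2 := mul_le_mul_of_nonneg_left e1 hcl2.le
    have e3 : cl ^ 2 * (4608 * 1382400 / cl ^ 2 * ℓ ^ (k + 6)) = 4608 * 1382400 * ℓ ^ (k + 6) := by
      field_simp
    linarith
  have T1 := term1 k C cl ℓ m X J Pi sy lR hC hcl hℓ k1 hm hX hX2 hPi hPi2 hsy hlR hlR2
  have T2 := term2 k cl ℓ m X J R E D w N P lR hcl hℓ hP1 k2 hm hX hX2 hN hw hwP hD hD4 hJ hE hNP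
    hR hlR hlR2
  have hη0 : 1 / (3 * ℓ) ≤ η := by
    rw [div_le_iff₀ (by positivity)]
    linarith
  have hle : m * J * cl / (48 * ℓ ^ 2) ≤ m * J * (cl / lz) * η / 16 := by
    have e1 : cl / ℓ ≤ cl / lz := div_le_div_of_nonneg_left hcl.le hlz hlz2
    have e2 : m * J * (cl / ℓ) * (1 / (3 * ℓ)) ≤ m * J * (cl / lz) * η := by
      apply mul_le_mul _ hη0 (by positivity) (by positivity)
      exact mul_le_mul_of_nonneg_left e1 (by positivity)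
    have e3 : m * J * cl / (48 * ℓ ^ 2) = m * J * (cl / ℓ) * (1 / (3 * ℓ)) / 16 := by
      field_simp
      ring
    rw [e3]
    linarith
  refine le_trans ?_ hle
  apply Real.sqrt_le_iff.2
  refine ⟨by positivity, ?_⟩
  have e1 : (m * J * cl / (48 * ℓ ^ 2)) ^ 2 = (cl ^ 2 * m ^ 2 * J ^ 2) / (2304 * ℓ ^ 4) := by
    field_simp
    ring
  rw [e1, le_div_iff₀ (by positivity)]
  have e2 : (50 * lR * m) * (12 * X * J ^ 2 * (384 * Pi) ^ 2 / sy +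
      (24 * D) ^ 2 * J * (X * J / E + X * lR + J * R + R ^ 2)) * (2304 * ℓ ^ 4) =
      ((50 * lR * m) * (12 * X * J ^ 2 * (384 * Pi) ^ 2 / sy) * (4608 * ℓ ^ 4) +
      (50 * lR * m) * ((24 * D) ^ 2 * J * (X * J / E + X * lR + J * R + R ^ 2)) *
        (4608 * ℓ ^ 4)) / 2 := by ring
  rw [e2]
  linarith

end PoolUS
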