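import Mathlib
import Pool.Agent.Work.MP_c971ef_nt.US.Defs
import Pool.Agent.Work.MP_c971ef_nt.LS.Wts

set_option autoImplicit false

/-!
Module Pure (size M). The small primes: Brun's pure sieve.

PROOF. Use the abstract Brun-Hooley weights of Sv/BHb.lean with ONE block: s = {0}, A 0 = P = PW 3 y W,
b 0 = r even: lp = lw, dp = dw (or directly lp d = (-1)^#d if d ⊆ P, #d ≤ r; dp d = 1 if d ⊆ P, #d = r + 1).
|lp|, |dp| ≤ 1; support: d ⊆ P, #d ≤ r + 1, primes < y, so ∏ ≤ y^(r+1). up, df: lw_sub (or Bonferroni: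
∑_{d ⊆ B, #d ≤ r} (-1)^#d = C(#B - 1, r) for B ≠ ∅). Let L = ∑_{p ∈ P} 1/p. The window sums
∑_{y' ≤ p < y'^2} 1/p are ≤ 8 (`PoolLS.win`), the windows y' = 2^(2^i), i ≤ log2 log2 y, cover all primes, so
L ≤ 8 (log2 log2 y + 2) ≤ 8 (3 + 2 loglog y) (y ≥ 3) (or use any Mertens bound available). Choose r even with
6 L + 2 ≤ r, r + 1 ≤ C (1 + log log y). sum of dp: esum ≤ L^(r+1)/(r+1)! ≤ e^(3L) e^(-(r+1)) ≤ e^(-3L-3)
(pow_div_factorial_le in BHc), V = ∏(1-1/p) ≥ e^(-2L), so it is ≤ e^(-3) V ≤ V/8. lo, hi, d0 as in Bh2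
(sum_lw: the sum of lp is ysum ≥ V; the sum of dp = esum ≥ 0; ysum ≤ V + esum).
-/

namespace PoolUS

open Finset

open Pool.Agent.Work.MP_2dba45_nt.Sv (ysum esum ysum_ge ysum_le esum_le)

open Classical in
/-- upper weights -/
private noncomputable def plp (P : Finset ℕ) (r : ℕ) (d : Finset ℕ) : ℝ :=
  if d ⊆ P ∧ #d ≤ r then (-1) ^ (#d) else 0

open Classical in
/-- error weights -/
private noncomputable def pdp (P : Finset ℕ) (r : ℕ) (d : Finset ℕ) : ℝ :=
  if d ⊆ P ∧ #d = r + 1 then 1 else 0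

private theorem plp_sum (P : Finset ℕ) (r : ℕ) (g : ℕ → ℝ) (B : Finset ℕ) (hB : B ⊆ P) :
    ∑ d ∈ B.powerset, plp P r d * ∏ p ∈ d, g p = ysum r g B := by
  unfold ysum plp
  rw [Finset.sum_filter]
  refine Finset.sum_congr rfl fun d hd => ?_
  have h1 : d ⊆ P := (Finset.mem_powerset.1 hd).trans hB
  by_cases h2 : #d ≤ r
  · rw [if_pos ⟨h1, h2⟩, if_pos h2]
  · rw [if_neg (fun h => h2 h.2), if_neg h2, zero_mul]

private theorem pdp_sum (P : Finset ℕ) (r : ℕ) (g : ℕ → ℝ) (B : Finset ℕ) (hB : B ⊆ P) :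
    ∑ d ∈ B.powerset, pdp P r d * ∏ p ∈ d, g p = esum r g B := by
  unfold esum pdp
  rw [Finset.sum_filter]
  refine Finset.sum_congr rfl fun d hd => ?_
  have h1 : d ⊆ P := (Finset.mem_powerset.1 hd).trans hB
  by_cases h2 : #d = r + 1
  · rw [if_pos ⟨h1, h2⟩, if_pos h2, one_mul]
  · rw [if_neg (fun h => h2 h.2), if_neg h2, zero_mul]

private theorem pure_pow_fact (L : ℝ) (hL : 0 ≤ L) (n : ℕ) :
    L ^ n / n.factorial ≤ Real.exp (3 * L) * Real.exp (-n) := by
  have h1 : (3 * L) ^ n / n.factorial ≤ Real.exp (3 * L) :=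
    Real.pow_div_factorial_le_exp (3 * L) (by linarith) n
  have h2 : Real.exp n ≤ 3 ^ n := by
    have h3 : Real.exp (n : ℝ) = Real.exp 1 ^ n := by
      rw [← Real.exp_nat_mul, mul_one]
    rw [h3]
    exact pow_le_pow_left₀ (Real.exp_pos 1).le Real.exp_one_lt_three.le n
  have hf : (0 : ℝ) < n.factorial := by exact_mod_cast Nat.factorial_pos n
  rw [Real.exp_neg, ← div_eq_mul_inv, le_div_iff₀ (Real.exp_pos _)]
  refine le_trans ?_ h1
  rw [mul_pow, div_mul_eq_mul_div]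
  refine div_le_div_of_nonneg_right ?_ hf.le
  rw [mul_comm]
  exact mul_le_mul_of_nonneg_right h2 (pow_nonneg hL n)

private theorem pure_exp_le (x : ℝ) (h0 : 0 ≤ x) (h1 : x ≤ 1 / 2) :
    Real.exp (-(2 * x)) ≤ 1 - x := by
  have h2 : 1 + 2 * x ≤ Real.exp (2 * x) := by linarith [Real.add_one_le_exp (2 * x)]
  rw [Real.exp_neg]
  have h3 : (Real.exp (2 * x))⁻¹ ≤ (1 + 2 * x)⁻¹ := inv_anti₀ (by linarith) h2
  refine h3.trans ?_
  rw [inv_le_iff_one_le_mul₀ (by linarith)]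
  nlinarith

theorem pure_sieve : ∃ C : ℝ, 0 < C ∧ ∀ y W : ℕ, 3 ≤ y → ∃ (r : ℕ) (lp dp : Finset ℕ → ℝ),
    (r : ℝ) ≤ C * (1 + Real.log (Real.log y)) + C ∧
    SW (PW 3 y W) ((y : ℝ) ^ r) (VV (PW 3 y W)) (1 / 8) lp dp := by
  classical
  obtain ⟨c, hc, hlow⟩ := PoolLS.prod_low
  refine ⟨5 * |Real.log c| + 7, by positivity, ?_⟩
  intro y W hy
  have hy3 : (3 : ℝ) ≤ y := by exact_mod_cast hy
  have hlog1 : 1 < Real.log y := by
    rw [Real.lt_log_iff_exp_lt (by linarith)]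
    exact lt_of_lt_of_le Real.exp_one_lt_three hy3
  have hll : 0 < Real.log (Real.log y) := Real.log_pos hlog1
  set P := PW 3 y W with hP
  have hPp : ∀ p ∈ P, p.Prime ∧ 3 ≤ p ∧ p < y := by
    intro p hp
    rw [hP, PW, mem_filter, mem_range] at hp
    exact ⟨hp.2.1, hp.2.2.1, hp.1⟩
  have hg : ∀ p ∈ P, 0 ≤ (1 : ℝ) / p ∧ (1 : ℝ) / p ≤ 1 / 2 := by
    intro p hp
    have h1 : (2 : ℝ) ≤ p := by exact_mod_cast (hPp p hp).1.two_le
    exact ⟨by positivity, one_div_le_one_div_of_le (by norm_num) h1⟩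
  have hg1 : ∀ p ∈ P, 0 ≤ (1 : ℝ) / p ∧ (1 : ℝ) / p ≤ 1 := fun p hp =>
    ⟨(hg p hp).1, (hg p hp).2.trans (by norm_num)⟩
  have hsub : P ⊆ PoolLS.PP y := by
    intro p hp
    obtain ⟨h1, h2, h3⟩ := hPp p hp
    rw [PoolLS.PP, mem_filter, mem_range]
    exact ⟨h3, h1, by omega⟩
  -- the sum of the reciprocals
  set L : ℝ := ∑ p ∈ P, (1 : ℝ) / p with hL
  have hL0 : 0 ≤ L := Finset.sum_nonneg fun p hp => (hg p hp).1
  set L' : ℝ := Real.log (Real.log y) + |Real.log c| with hL'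
  have hLL : L ≤ L' := by
    have h1 : L ≤ ∑ p ∈ PoolLS.PP y, (1 : ℝ) / p :=
      Finset.sum_le_sum_of_subset_of_nonneg hsub fun p _ _ => by positivity
    have h2 : ∏ p ∈ PoolLS.PP y, (1 - (1 : ℝ) / p) ≤
        Real.exp (-∑ p ∈ PoolLS.PP y, (1 : ℝ) / p) := by
      rw [← Finset.sum_neg_distrib, Real.exp_sum]
      refine Finset.prod_le_prod (fun p hp => ?_) (fun p hp => ?_)
      · rw [PoolLS.PP, mem_filter] at hp
        have h3 : (1 : ℝ) ≤ p := by exact_mod_cast hp.2.1.one_lt.le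
        have h4 : (1 : ℝ) / p ≤ 1 := by
          rw [div_le_one (by linarith)]
          exact h3
        linarith
      · have h5 := Real.add_one_le_exp (-((1 : ℝ) / p))
        linarith
    have h3 := (hlow y hy).trans h2
    have h4 : Real.log (c / Real.log y) ≤ -∑ p ∈ PoolLS.PP y, (1 : ℝ) / p := by
      rw [← Real.log_exp (-∑ p ∈ PoolLS.PP y, (1 : ℝ) / p)]
      exact Real.log_le_log (by positivity) h3
    rw [Real.log_div hc.ne' (by linarith)] at h4
    have h5 := neg_abs_le (Real.log c)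
    rw [hL']
    linarith
  have hL'0 : 0 ≤ L' := hL0.trans hLL
  -- the parameter
  set h : ℕ := ⌈(5 * L' + 3) / 2⌉₊ with hh
  have hh1 : (5 * L' + 3) / 2 ≤ h := Nat.le_ceil _
  have hh2 : (h : ℝ) < (5 * L' + 3) / 2 + 1 := Nat.ceil_lt_add_one (by positivity)
  have heven : Even (2 * h) := even_two_mul h
  have hVV : VV P = ∏ p ∈ P, (1 - (1 : ℝ) / p) := rfl
  have hVlow : Real.exp (-(2 * L)) ≤ VV P := by
    rw [hVV]
    have h1 : ∏ p ∈ P, Real.exp (-(2 * ((1 : ℝ) / p))) ≤ ∏ p ∈ P, (1 - (1 : ℝ) / p) :=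
      Finset.prod_le_prod (fun p _ => (Real.exp_pos _).le)
        (fun p hp => pure_exp_le _ (hg p hp).1 (hg p hp).2)
    rw [← Real.exp_sum, Finset.sum_neg_distrib, ← Finset.mul_sum] at h1
    exact h1
  have hesum : esum (2 * h) (fun p => (1 : ℝ) / p) P ≤ 1 / 8 * VV P := by
    have h1 := esum_le (2 * h) (fun p => (1 : ℝ) / p) P (fun p hp => (hg p hp).1)
    have h2 := pure_pow_fact L hL0 (2 * h + 1)
    have h3 : Real.exp (3 * L) * Real.exp (-((2 * h + 1 : ℕ) : ℝ)) ≤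
        1 / 8 * Real.exp (-(2 * L)) := by
      have h4 : Real.exp (-3) ≤ 1 / 8 := by
        have h5 : Real.exp (-3) = Real.exp (-1) ^ 3 := by
          rw [← Real.exp_nat_mul]
          norm_num
        have he : Real.exp (-1) ≤ 1 / 2 := by
          rw [Real.exp_neg, one_div]
          exact inv_anti₀ (by norm_num) (by linarith [Real.add_one_le_exp (1 : ℝ)])
        rw [h5]
        calc Real.exp (-1) ^ 3 ≤ (1 / 2) ^ 3 := pow_le_pow_left₀ (Real.exp_pos _).le he _
          _ = 1 / 8 := by norm_num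
      rw [← Real.exp_add]
      calc Real.exp (3 * L + -((2 * h + 1 : ℕ) : ℝ)) ≤ Real.exp (-3 + -(2 * L)) := by
            apply Real.exp_le_exp.2
            push_cast
            linarith
        _ = Real.exp (-3) * Real.exp (-(2 * L)) := Real.exp_add _ _
        _ ≤ 1 / 8 * Real.exp (-(2 * L)) := mul_le_mul_of_nonneg_right h4 (Real.exp_pos _).le
    have h6 := mul_le_mul_of_nonneg_left hVlow (by norm_num : (0 : ℝ) ≤ 1 / 8)
    exact h1.trans (h2.trans (h3.trans h6))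
  have hes0 : 0 ≤ esum (2 * h) (fun p => (1 : ℝ) / p) P := by
    unfold esum
    apply Finset.sum_nonneg
    intro T hT
    apply Finset.prod_nonneg
    intro p _
    positivity
  have hprod : ∀ d : Finset ℕ, (1 : ℝ) / ((∏ p ∈ d, p : ℕ) : ℝ) = ∏ p ∈ d, (1 : ℝ) / p := by
    intro d
    rw [Nat.cast_prod, Finset.prod_div_distrib, Finset.prod_const_one]
  have hlpsum : ∑ d ∈ P.powerset, plp P (2 * h) d / ((∏ p ∈ d, p : ℕ) : ℝ) =
      ysum (2 * h) (fun p => (1 : ℝ) / p) P := by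
    rw [← plp_sum P (2 * h) _ P (Finset.Subset.refl P)]
    refine Finset.sum_congr rfl fun d _ => ?_
    rw [← hprod, mul_one_div]
  have hdpsum : ∑ d ∈ P.powerset, pdp P (2 * h) d / ((∏ p ∈ d, p : ℕ) : ℝ) =
      esum (2 * h) (fun p => (1 : ℝ) / p) P := by
    rw [← pdp_sum P (2 * h) _ P (Finset.Subset.refl P)]
    refine Finset.sum_congr rfl fun d _ => ?_
    rw [← hprod, mul_one_div]
  have hind : ∀ B : Finset ℕ, (if B = ∅ then (1 : ℝ) else 0) = ∏ p ∈ B, (1 - (1 : ℝ)) := by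
    intro B
    rw [sub_self, Finset.prod_const]
    by_cases hB : B = ∅
    · rw [if_pos hB, hB]
      simp
    · rw [if_neg hB, zero_pow]
      exact fun h9 => hB (Finset.card_eq_zero.mp h9)
  have hone : ∀ (f : Finset ℕ → ℝ) (B : Finset ℕ), ∑ d ∈ B.powerset, f d =
      ∑ d ∈ B.powerset, f d * ∏ p ∈ d, (fun _ : ℕ => (1 : ℝ)) p := by
    intro f B
    refine Finset.sum_congr rfl fun d _ => ?_
    rw [Finset.prod_const_one, mul_one]
  refine ⟨2 * h + 1, plp P (2 * h), pdp P (2 * h), ?_, ?_⟩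
  · push_cast
    rw [hL'] at hh2
    have h9 := mul_nonneg (abs_nonneg (Real.log c)) hll.le
    nlinarith
  · constructor
    · intro d
      unfold plp
      split_ifs
      · rw [abs_pow, abs_neg, abs_one, one_pow]
      · simp
    · intro d
      unfold pdp
      split_ifs
      · simp
      · simp
    · intro d hd
      have h1 : d ⊆ P ∧ #d ≤ 2 * h + 1 := by
        rcases hd with hd | hd
        · unfold plp at hd
          by_contra hcon
          apply hd
          rw [if_neg]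
          intro h2
          exact hcon ⟨h2.1, by omega⟩
        · unfold pdp at hd
          by_contra hcon
          apply hd
          rw [if_neg]
          intro h2
          exact hcon ⟨h2.1, by omega⟩
      refine ⟨h1.1, ?_⟩
      have h2 : ∏ p ∈ d, p ≤ y ^ (#d) :=
        Finset.prod_le_pow_card d (fun p => p) y (fun p hp => (hPp p (h1.1 hp)).2.2.le)
      have h3 : ∏ p ∈ d, p ≤ y ^ (2 * h + 1) :=
        h2.trans (Nat.pow_le_pow_right (by omega) h1.2)
      exact_mod_cast h3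
    · intro B hB
      rw [hone, plp_sum P (2 * h) _ B hB, hind]
      exact ysum_ge (2 * h) heven (fun _ => (1 : ℝ)) B (fun p _ => ⟨zero_le_one, le_rfl⟩)
    · intro B hB
      rw [hone (plp P (2 * h)), hone (pdp P (2 * h)), plp_sum P (2 * h) _ B hB,
        pdp_sum P (2 * h) _ B hB, hind]
      have h1 := ysum_le (2 * h) heven (fun _ => (1 : ℝ)) B (fun p _ => ⟨zero_le_one, le_rfl⟩)
      linarith
    · rw [hlpsum]
      exact ysum_ge (2 * h) heven _ P hg1
    · rw [hlpsum]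
      have h1 := ysum_le (2 * h) heven (fun p => (1 : ℝ) / p) P hg1
      have h2 : ∏ p ∈ P, (1 - (fun p : ℕ => (1 : ℝ) / p) p) = VV P := rfl
      rw [h2] at h1
      linarith
    · rw [hdpsum]
      exact hes0
    · rw [hdpsum]
      exact hesum

end PoolUS
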