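import Mathlib
import Pool.Agent.Work.MP_c971ef_nt.US.Defs
import Pool.Agent.Work.MP_c971ef_nt.LS.Mert

set_option autoImplicit false

/-!
Module Vup (size M). Products over primes.

PROOF. `PoolLS.prod_low`, `PoolLS.prod_up` (LS/Mert.lean): c/log z ≤ ∏_{p ∈ PP z} (1 - 1/p) ≤ C/log z, PP z = odd
primes < z.
(i) PW 3 y W and PW y z W are disjoint subsets of PP z, so VV · VV ≥ ∏_{PP z} ≥ c/log z.
(ii) ∏_{p ∈ PW y z W} (1 - 1/p) · ∏_{p ∈ PP z, y ≤ p, p ∣ 2W} (1 - 1/p) · ∏_{PP y} (1 - 1/p) = ∏_{PP z}(1 - 1/p)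
≤ C/log z; the third product is ≥ c/log y; the second is ≥ exp(-2 #/y), # the number of primes p ≥ y ≥ 3
dividing W, 2^# ≤ W, so # ≤ log W/log 2 ≤ 2 y, second ≥ exp(-4).
(iii) ∏ (1 + 1/p) ≤ ∏ (1 - 1/p)^(-1) over subsets of PP z: ≤ C' log z.
-/

namespace PoolUS

open Finset

private theorem vup_PW {y z W p : ℕ} (hp : p ∈ PW y z W) :
    p < z ∧ p.Prime ∧ y ≤ p ∧ ¬ p ∣ 2 * W := by
  rw [PW, mem_filter, mem_range] at hp
  exact hp

private theorem vup_PP {z p : ℕ} : p ∈ PoolLS.PP z ↔ p < z ∧ p.Prime ∧ p ≠ 2 := by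
  rw [PoolLS.PP, mem_filter, mem_range]

private theorem vup_sub {y z W : ℕ} : PW y z W ⊆ PoolLS.PP z := by
  intro p hp
  obtain ⟨h1, h2, h3, h4⟩ := vup_PW hp
  rw [vup_PP]
  refine ⟨h1, h2, ?_⟩
  rintro rfl
  exact h4 (dvd_mul_right 2 W)

private theorem vup_fac {p : ℕ} (hp : p.Prime) :
    1 / 2 ≤ 1 - (1 : ℝ) / p ∧ 1 - (1 : ℝ) / p ≤ 1 := by
  have h1 : (2 : ℝ) ≤ p := by exact_mod_cast hp.two_le
  have h2 : (1 : ℝ) / p ≤ 1 / 2 := one_div_le_one_div_of_le (by norm_num) h1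
  have h3 : 0 ≤ (1 : ℝ) / p := by positivity
  exact ⟨by linarith, by linarith⟩

/-- monotonicity of the product -/
private theorem vup_mono {A B : Finset ℕ} (h : A ⊆ B) (hB : ∀ p ∈ B, p.Prime) :
    VV B ≤ VV A := by
  unfold VV
  rw [← Finset.prod_sdiff h]
  have h1 : ∏ p ∈ B \ A, (1 - (1 : ℝ) / p) ≤ 1 :=
    Finset.prod_le_one (fun p hp => by linarith [(vup_fac (hB p (mem_sdiff.1 hp).1)).1])
      (fun p hp => (vup_fac (hB p (mem_sdiff.1 hp).1)).2)
  have h2 : 0 ≤ ∏ p ∈ A, (1 - (1 : ℝ) / p) :=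
    Finset.prod_nonneg fun p hp => by linarith [(vup_fac (hB p (h hp))).1]
  calc (∏ p ∈ B \ A, (1 - (1 : ℝ) / p)) * ∏ p ∈ A, (1 - (1 : ℝ) / p)
      ≤ 1 * ∏ p ∈ A, (1 - (1 : ℝ) / p) := mul_le_mul_of_nonneg_right h1 h2
    _ = ∏ p ∈ A, (1 - (1 : ℝ) / p) := one_mul _

private theorem vup_pos {A : Finset ℕ} (hA : ∀ p ∈ A, p.Prime) : 0 < VV A :=
  Finset.prod_pos fun p hp => by linarith [(vup_fac (hA p hp)).1]

private theorem vup_PPp {z : ℕ} : ∀ p ∈ PoolLS.PP z, p.Prime := fun p hp => (vup_PP.1 hp).2.1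

theorem vlow : ∃ c : ℝ, 0 < c ∧ ∀ y z W : ℕ, 3 ≤ y → y ≤ z →
    c / Real.log z ≤ VV (PW 3 y W) * VV (PW y z W) := by
  classical
  obtain ⟨c, hc, hlow⟩ := PoolLS.prod_low
  refine ⟨c, hc, fun y z W hy hyz => ?_⟩
  have h1 := hlow z (hy.trans hyz)
  have hd : Disjoint (PW 3 y W) (PW y z W) := by
    rw [Finset.disjoint_left]
    intro p hp hp2
    have h2 := (vup_PW hp).1
    have h3 := (vup_PW hp2).2.2.1
    omega
  have h2 : VV (PW 3 y W) * VV (PW y z W) = VV (PW 3 y W ∪ PW y z W) := by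
    unfold VV
    rw [Finset.prod_union hd]
  rw [h2]
  refine h1.trans ?_
  apply vup_mono _ vup_PPp
  apply Finset.union_subset
  · intro p hp
    have h3 := vup_PP.1 (vup_sub hp)
    rw [vup_PP]
    exact ⟨by omega, h3.2⟩
  · exact vup_sub

theorem vup : ∃ C : ℝ, 0 < C ∧ ∀ y z W : ℕ, 3 ≤ y → y ≤ z → 1 ≤ W → Real.log W ≤ y →
    VV (PW y z W) ≤ C * (Real.log y / Real.log z) := by
  classical
  obtain ⟨c, hc, hlow⟩ := PoolLS.prod_low
  obtain ⟨C, hC, hup⟩ := PoolLS.prod_up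
  refine ⟨C / c * Real.exp 4, by positivity, fun y z W hy hyz hW hWy => ?_⟩
  have hyR : (3 : ℝ) ≤ y := by exact_mod_cast hy
  have hzR : (3 : ℝ) ≤ z := by exact_mod_cast hy.trans hyz
  have hly : 0 < Real.log y := Real.log_pos (by linarith)
  have hlz : 0 < Real.log z := Real.log_pos (by linarith)
  set S := (PoolLS.PP z).filter (fun p => y ≤ p ∧ p ∣ 2 * W) with hS
  have hSp : ∀ p ∈ S, p.Prime := fun p hp => vup_PPp p (mem_filter.1 hp).1
  -- the decomposition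
  have hdec : PoolLS.PP z = PW y z W ∪ (S ∪ PoolLS.PP y) := by
    ext p
    rw [mem_union, mem_union, hS, mem_filter, vup_PP, vup_PP, PW, mem_filter, mem_range]
    constructor
    · rintro ⟨h1, h2, h3⟩
      rcases lt_or_ge p y with h4 | h4
      · exact Or.inr (Or.inr ⟨h4, h2, h3⟩)
      · by_cases h5 : p ∣ 2 * W
        · exact Or.inr (Or.inl ⟨⟨h1, h2, h3⟩, h4, h5⟩)
        · exact Or.inl ⟨h1, h2, h4, h5⟩
    · rintro (⟨h1, h2, h3, h4⟩ | ⟨⟨h1, h2, h3⟩, -⟩ | ⟨h1, h2, h3⟩)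
      · exact ⟨h1, h2, fun h5 => h4 (by rw [h5]; exact dvd_mul_right 2 W)⟩
      · exact ⟨h1, h2, h3⟩
      · exact ⟨by omega, h2, h3⟩
  have hd1 : Disjoint S (PoolLS.PP y) := by
    rw [Finset.disjoint_left]
    intro p hp hp2
    have h1 := (mem_filter.1 hp).2.1
    have h2 := (vup_PP.1 hp2).1
    omega
  have hd2 : Disjoint (PW y z W) (S ∪ PoolLS.PP y) := by
    rw [Finset.disjoint_left]
    intro p hp hp2
    have h1 := vup_PW hp
    rcases mem_union.1 hp2 with h2 | h2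
    · exact h1.2.2.2 (mem_filter.1 h2).2.2
    · have h3 := (vup_PP.1 h2).1
      omega
  have hmul : VV (PoolLS.PP z) = VV (PW y z W) * (VV S * VV (PoolLS.PP y)) := by
    unfold VV
    conv_lhs => rw [hdec]
    rw [Finset.prod_union hd2, Finset.prod_union hd1]
  -- the number of elements of S
  have hcard : (#S : ℝ) * Real.log 2 ≤ y := by
    have h1 : ∏ p ∈ S, p ∣ W := by
      apply Finset.prod_primes_dvd
      · intro p hp
        exact (hSp p hp).prime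
      · intro p hp
        have h2 := (mem_filter.1 hp).2.2
        have h3 := (vup_PP.1 (mem_filter.1 hp).1).2
        rcases (h3.1.dvd_mul).1 h2 with h4 | h4
        · exact absurd ((Nat.prime_dvd_prime_iff_eq h3.1 Nat.prime_two).1 h4) h3.2
        · exact h4
    have h2 : ∏ p ∈ S, p ≤ W := Nat.le_of_dvd (by omega) h1
    have h3 : 2 ^ (#S) ≤ ∏ p ∈ S, p :=
      Finset.pow_card_le_prod S (fun p => p) 2 (fun p hp => (hSp p hp).two_le)
    have h4 : (2 : ℝ) ^ (#S) ≤ W := by exact_mod_cast h3.trans h2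
    have h5 := Real.log_le_log (by positivity) h4
    rw [Real.log_pow] at h5
    linarith
  have hSlow : Real.exp (-4) ≤ VV S := by
    have h1 : ∏ p ∈ S, Real.exp (-(2 / (y : ℝ))) ≤ VV S := by
      refine Finset.prod_le_prod (fun p _ => (Real.exp_pos _).le) (fun p hp => ?_)
      have hp1 : (y : ℝ) ≤ p := by exact_mod_cast (mem_filter.1 hp).2.1
      have hx : (1 : ℝ) / p ≤ 1 / y := one_div_le_one_div_of_le (by linarith) hp1
      have h2 : 1 + 2 / (y : ℝ) ≤ Real.exp (2 / (y : ℝ)) := by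
        linarith [Real.add_one_le_exp (2 / (y : ℝ))]
      rw [Real.exp_neg]
      have hy0 : 0 < (y : ℝ) := by linarith
      have h3 : (Real.exp (2 / (y : ℝ)))⁻¹ ≤ (1 + 2 / (y : ℝ))⁻¹ := inv_anti₀ (by positivity) h2
      refine h3.trans ?_
      have h4 : (1 + 2 / (y : ℝ))⁻¹ ≤ 1 - 1 / (y : ℝ) := by
        rw [inv_le_iff_one_le_mul₀ (by positivity)]
        have h5 : (1 - 1 / (y : ℝ)) * (1 + 2 / (y : ℝ)) = 1 + (1 / y) * (1 - 2 / y) := by
          field_simp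
          ring
        rw [h5]
        have h6 : 2 / (y : ℝ) ≤ 1 := by
          rw [div_le_one hy0]
          linarith
        have h7 : 0 ≤ (1 / (y : ℝ)) * (1 - 2 / y) := mul_nonneg (by positivity) (by linarith)
        linarith
      linarith
    rw [Finset.prod_const, ← Real.exp_nat_mul] at h1
    refine le_trans (Real.exp_le_exp.2 ?_) h1
    have hl2 : (0.5 : ℝ) ≤ Real.log 2 := by linarith [Real.log_two_gt_d9]
    have h8 : (#S : ℝ) * (1 / 2) ≤ y := by
      have := mul_le_mul_of_nonneg_left hl2 (Nat.cast_nonneg #S : (0 : ℝ) ≤ #S)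
      linarith
    have hy0 : 0 < (y : ℝ) := by linarith
    have h9 : (#S : ℝ) * (2 / y) ≤ 4 := by
      rw [mul_div_assoc', div_le_iff₀ hy0]
      linarith
    linarith
  have hX3 := hlow y hy
  have hZ := hup z (hy.trans hyz)
  have hZ' : VV (PW y z W) * (VV S * VV (PoolLS.PP y)) ≤ C / Real.log z := by
    rw [← hmul]
    exact hZ
  have hX : Real.exp (-4) * (c / Real.log y) ≤ VV S * VV (PoolLS.PP y) :=
    mul_le_mul hSlow hX3 (by positivity) (vup_pos hSp).le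
  have hPpos : 0 ≤ VV (PW y z W) := (vup_pos (fun p hp => (vup_PW hp).2.1)).le
  have h9 : VV (PW y z W) * (Real.exp (-4) * (c / Real.log y)) ≤ C / Real.log z :=
    (mul_le_mul_of_nonneg_left hX hPpos).trans hZ'
  have h10 : C / c * Real.exp 4 * (Real.log y / Real.log z) =
      (C / Real.log z) / (Real.exp (-4) * (c / Real.log y)) := by
    rw [Real.exp_neg]
    field_simp
  rw [h10, le_div_iff₀ (by positivity)]
  exact h9

theorem piup : ∃ C : ℝ, 0 < C ∧ ∀ y z W : ℕ, 3 ≤ z → PI (PW y z W) ≤ C * Real.log z := by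
  classical
  obtain ⟨c, hc, hlow⟩ := PoolLS.prod_low
  refine ⟨1 / c, by positivity, fun y z W hz => ?_⟩
  have hzR : (3 : ℝ) ≤ z := by exact_mod_cast hz
  have hlz : 0 < Real.log z := Real.log_pos (by linarith)
  have h1 : PI (PW y z W) ≤ (VV (PW y z W))⁻¹ := by
    unfold PI VV
    rw [← Finset.prod_inv_distrib]
    refine Finset.prod_le_prod (fun p _ => by positivity) (fun p hp => ?_)
    have h2 := (vup_fac (vup_PW hp).2.1).1
    rw [← one_div, le_div_iff₀ (by linarith)]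
    have h3 : (1 + (1 : ℝ) / p) * (1 - 1 / p) = 1 - (1 / p) ^ 2 := by ring
    rw [h3]
    have h4 : 0 ≤ ((1 : ℝ) / p) ^ 2 := sq_nonneg _
    linarith
  have h2 : VV (PoolLS.PP z) ≤ VV (PW y z W) := vup_mono vup_sub vup_PPp
  have h3 : c / Real.log z ≤ VV (PW y z W) := (hlow z hz).trans h2
  have h4 : (VV (PW y z W))⁻¹ ≤ (c / Real.log z)⁻¹ := inv_anti₀ (by positivity) h3
  refine (h1.trans h4).trans (le_of_eq ?_)
  rw [inv_div]
  ring

end PoolUS
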