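import Mathlib
import Pool.Agent.Work.MP_c971ef_nt.US.Un
import Pool.Agent.Work.MP_c971ef_nt.US.Mainq
import Pool.Agent.Work.MP_c971ef_nt.US.Bh2
import Pool.Agent.Work.MP_c971ef_nt.US.Pure
import Pool.Agent.Work.MP_c971ef_nt.US.Vup
import Pool.Agent.Work.MP_c971ef_nt.US.Numb
import Pool.Agent.Work.MP_c971ef_nt.US.Asy

set_option autoImplicit false

/-!
Assembly, first part.
-/

namespace PoolUS

open Finset

/-- a positive sifted count gives an element -/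
theorem good_of_pos (U : Finset ℕ) (W : ℕ) (P₁ P₂ : Finset ℕ) (D₁ D₂ V₁ V₂ : ℝ)
    (lp₁ dp₁ lp₂ dp₂ : Finset ℕ → ℝ) (hs₁ : SW P₁ D₁ V₁ (1 / 8) lp₁ dp₁)
    (hs₂ : SW P₂ D₂ V₂ (1 / 8) lp₂ dp₂) (n j : ℕ)
    (h : 0 < SN U W P₁ P₂ (lam lp₁ dp₁ lp₂ dp₂) n j) :
    ∃ u ∈ U, n ∣ u - j ∧ ∀ p ∈ P₁ ∪ P₂, ¬ p ∣ 2 * (W * ((u - j) / n)) + 1 := by
  classical
  by_contra hcon
  push Not at hcon
  refine absurd h (not_lt.2 ?_)
  unfold SN
  refine Finset.sum_nonpos fun u hu => ?_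
  obtain ⟨hu1, hu2⟩ := mem_filter.1 hu
  obtain ⟨p, hp, hpd⟩ := hcon u hu1 hu2
  refine (lam_le P₁ P₂ D₁ D₂ V₁ V₂ lp₁ dp₁ lp₂ dp₂ hs₁ hs₂ _ _ (filter_subset _ _)
    (filter_subset _ _)).trans ?_
  rw [if_neg]
  rintro ⟨h1, h2⟩
  rcases mem_union.1 hp with hp | hp
  · have : p ∈ P₁.filter (fun p => p ∣ 2 * (W * ((u - j) / n)) + 1) := mem_filter.2 ⟨hp, hpd⟩
    rw [h1] at this
    exact absurd this (Finset.notMem_empty _)
  · have : p ∈ P₂.filter (fun p => p ∣ 2 * (W * ((u - j) / n)) + 1) := mem_filter.2 ⟨hp, hpd⟩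
    rw [h2] at this
    exact absurd this (Finset.notMem_empty _)

/-- no prime below `z` divides `2 W k + 1` -/
theorem no_small (W y z k : ℕ) (h : ∀ p ∈ PW 3 y W ∪ PW y z W, ¬ p ∣ 2 * (W * k) + 1) (p : ℕ)
    (hp : p.Prime) (hpd : p ∣ 2 * (W * k) + 1) : z ≤ p := by
  by_contra hlt
  push Not at hlt
  have h2W : ¬ p ∣ 2 * W := by
    intro h1
    have h2 : p ∣ 2 * (W * k) := by
      rw [← mul_assoc]
      exact Dvd.dvd.mul_right h1 k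
    have h3 : p ∣ 1 := (Nat.dvd_add_right h2).1 hpd
    exact hp.one_lt.ne' (Nat.dvd_one.1 h3)
  have h3 : 3 ≤ p := by
    have := hp.two_le
    rcases Nat.lt_or_ge p 3 with h4 | h4
    · have : p = 2 := by omega
      subst this
      exact absurd (Dvd.intro _ rfl) h2W
    · exact h4
  refine h p ?_ hpd
  unfold PW
  rw [mem_union, mem_filter, mem_filter, mem_range, mem_range]
  by_cases hy : p < y
  · exact Or.inl ⟨hy, hp, h3, h2W⟩
  · exact Or.inr ⟨hlt, hp, by omega, h2W⟩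

theorem PW_spec (y z W p : ℕ) (hp : p ∈ PW y z W) : p.Prime ∧ y ≤ p ∧ p < z ∧ ¬ p ∣ 2 * W := by
  unfold PW at hp
  rw [mem_filter, mem_range] at hp
  exact ⟨hp.2.1, hp.2.2.1, hp.1, hp.2.2.2⟩

theorem PW_union (y z W : ℕ) (hy : 3 ≤ y) (hyz : y ≤ z) : PW 3 y W ∪ PW y z W = PW 3 z W := by
  ext p
  unfold PW
  rw [mem_union, mem_filter, mem_filter, mem_filter, mem_range, mem_range]
  constructor
  · rintro (h | h)
    · exact ⟨by omega, h.2.1, h.2.2.1, h.2.2.2⟩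
    · exact ⟨h.1, h.2.1, by omega, h.2.2.2⟩
  · rintro ⟨h1, h2, h3, h4⟩
    by_cases hy : p < y
    · exact Or.inl ⟨hy, h2, h3, h4⟩
    · exact Or.inr ⟨h1, h2, by omega, h4⟩

end PoolUS
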