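import Mathlib
import Pool.Agent.Work.MP_c971ef_nt.US.FinA

set_option autoImplicit false

/-!
Assembly, second part: the pairs.
-/

namespace PoolUS

open Finset

/-- the smoothness level -/
noncomputable def yN (κ₀ N : ℕ) : ℕ := ⌈(Real.log N) ^ (2 * κ₀ + 40)⌉₊

/-- the exponent of the density increment -/
noncomputable def kap (κ₀ N : ℕ) : ℝ :=
  2 * (κ₀ + 2) * Real.log (Real.log N) / (Real.log N) ^ ((3 : ℝ) / 4)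

private theorem exp_sub_one (x : ℝ) (h0 : 0 ≤ x) (h1 : x ≤ 1) : Real.exp x - 1 ≤ 2 * x := by
  have h := Real.abs_exp_sub_one_le (x := x) (by rw [abs_of_nonneg h0]; exact h1)
  rw [abs_of_nonneg h0] at h
  exact (le_abs_self _).trans h

/-- the numerical facts for large `N` -/
theorem facts (κ₀ B : ℕ) (ε Cp Cu Ci cl K : ℝ) (M : ℕ) (hε : 0 < ε) (hε1 : ε ≤ 1) (hCp : 0 < Cp)
    (hCu : 0 < Cu) (hCi : 0 < Ci) (hcl : 0 < cl) (hK : 1 ≤ K) :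
    ∃ N₀ : ℕ, ∀ N : ℕ, N₀ ≤ N → ∀ ℓ Λ P : ℝ, ℓ = Real.log N → Λ = Real.log ℓ →
      P = (N : ℝ) ^ (ε / 64) →
      K ≤ ℓ ∧ 2 ≤ ℓ ∧ 0 ≤ Λ ∧ K * ℓ ^ M ≤ P ∧ 2 ≤ P ∧ Real.exp (ℓ ^ ((3 : ℝ) / 4)) ≤ P ∧
      Cp * (2 * κ₀ + 43) * (2 * κ₀ + 41) * (1 + Λ) ^ 2 ≤ ℓ ^ ((1 : ℝ) / 4) ∧
      12 * Cu * Ci * (8 * (κ₀ + 2)) * 48 / cl * (2 * κ₀ + 41) ^ 2 * (1 + Λ) ^ 3 ≤
        ℓ ^ ((3 : ℝ) / 10) ∧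
      4 * (κ₀ + 2) * (1 + Λ) ^ 1 ≤ ℓ ^ ((1 : ℝ) / 2) ∧
      2 * ℓ ^ (2 * κ₀ + 40) ≤ (N : ℝ) ^ (ε / (64 * (B + 1))) ∧ 3 ≤ (N : ℝ) ^ (ε / (64 * (B + 1))) := by
  obtain ⟨L₁, h₁⟩ := asy1 (Cp * (2 * κ₀ + 43) * (2 * κ₀ + 41)) 2 (1 / 4) (by norm_num)
  obtain ⟨L₂, h₂⟩ := asy1 (12 * Cu * Ci * (8 * (κ₀ + 2)) * 48 / cl * (2 * κ₀ + 41) ^ 2) 3 (3 / 10)
    (by norm_num)
  obtain ⟨L₃, h₃⟩ := asy1 (4 * (κ₀ + 2)) 1 (1 / 2) (by norm_num)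
  obtain ⟨N₁, k₁⟩ := asy2 K M (ε / 64) (by positivity)
  obtain ⟨N₂, k₂⟩ := asy2 2 0 (ε / 64) (by positivity)
  obtain ⟨N₃, k₃⟩ := asy3 (ε / 64) (by positivity)
  obtain ⟨N₄, k₄⟩ := asy2 2 (2 * κ₀ + 40) (ε / (64 * (B + 1))) (by positivity)
  obtain ⟨N₅, k₅⟩ := asy2 3 0 (ε / (64 * (B + 1))) (by positivity)
  obtain ⟨N₆, k₆⟩ := asy4 (max (max L₁ L₂) (max L₃ (max K 3)))
  refine ⟨max (max N₁ N₂) (max (max N₃ N₄) (max N₅ N₆)), ?_⟩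
  intro N hN ℓ Λ P hℓ hΛ hP
  simp only [max_le_iff] at hN
  obtain ⟨⟨hN1, hN2⟩, ⟨hN3, hN4⟩, hN5, hN6⟩ := hN
  have hL := k₆ N hN6
  simp only [max_le_iff] at hL
  obtain ⟨⟨hL1, hL2⟩, hL3, hL4, hL5⟩ := hL
  rw [← hℓ] at hL1 hL2 hL3 hL4 hL5
  refine ⟨hL4, by linarith, ?_, ?_, ?_, ?_, ?_, ?_, ?_, ?_, ?_⟩
  · rw [hΛ]
    exact Real.log_nonneg (by linarith)
  · rw [hℓ, hP]; exact k₁ N hN1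
  · have := k₂ N hN2
    rw [pow_zero, mul_one] at this
    rw [hP]; exact this
  · rw [hℓ, hP]; exact k₃ N hN3
  · rw [hΛ]; exact h₁ ℓ hL1
  · rw [hΛ]; exact h₂ ℓ hL2
  · rw [hΛ]; exact h₃ ℓ hL3
  · rw [hℓ]; exact k₄ N hN4
  · have := k₅ N hN5
    rw [pow_zero, mul_one] at this
    exact this

end PoolUS
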