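import Mathlib
import Pool.Agent.Work.MP_c971ef_nt.US.FinB

set_option autoImplicit false

/-!
Assembly, third part: the bad pairs are few.
-/

namespace PoolUS

open Finset

private theorem exp_sub_one' (x : ℝ) (h0 : 0 ≤ x) (h1 : x ≤ 1) : Real.exp x - 1 ≤ 2 * x := by
  have h := Real.abs_exp_sub_one_le (x := x) (by rw [abs_of_nonneg h0]; exact h1)
  rw [abs_of_nonneg h0] at h
  exact (le_abs_self _).trans h

private theorem div_lt_cast (A W : ℕ) (hW : 1 ≤ W) : (A : ℝ) / W < ((A / W : ℕ) : ℝ) + 1 := by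
  have hWpos : (0 : ℝ) < W := by exact_mod_cast hW
  have h := Nat.lt_mul_div_succ A (show 0 < W by omega)
  have h2 : (A : ℝ) < W * (((A / W : ℕ) : ℝ) + 1) := by exact_mod_cast h
  rw [div_lt_iff₀ hWpos]
  linarith

private theorem sq_sub_one (T : ℝ) (h : 3 ≤ T) : T ≤ T ^ 2 - 1 := by nlinarith

private theorem logy_aux (Y Λ : ℝ) (hY : 0 ≤ Y) (hΛ : 0 ≤ Λ) : 1 + (2 * Y + 40) * Λ ≤
    (2 * Y + 41) * (1 + Λ) := by nlinarith

theorem pairs (κ₀ : ℕ) (ε : ℝ) (hε : 0 < ε) (hε1 : ε ≤ 1) : ∃ (t : ℝ) (N₀ : ℕ), 0 < t ∧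
    ∀ (N A W : ℕ) (U : Finset ℕ), N₀ ≤ N → (N : ℝ) ^ ε ≤ A → 1 ≤ W →
      Real.log W ≤ (Real.log N) ^ ((3 : ℝ) / 4) / 2 → U ⊆ range (N ^ 2 / W + 1) →
      (∀ u ∈ U, A / W ≤ u) → (N : ℝ) ^ 2 ≤ #U * W * (Real.log N) ^ (κ₀ + 1) →
      (∀ d b : ℕ, 1 ≤ d → W * d ≤ N ^ 2 → (zc U d b : ℝ) * d ≤ #U * (d : ℝ) ^ (kap κ₀ N)) →
      ∀ GG : Finset (ℕ × ℕ), GG ⊆ ((Ioc N (2 * N)).filter (fun n =>
        (sm (yN κ₀ N) n : ℝ) ≤ Real.exp ((Real.log N) ^ ((1 : ℝ) / 4)))) ×ˢ range (A / W) →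
      (∀ s ∈ GG, ¬ ∃ u ∈ U, s.1 ∣ u - s.2 ∧ ∀ p : ℕ, p.Prime →
        p ∣ 2 * (W * ((u - s.2) / s.1)) + 1 → (N : ℝ) ^ t ≤ p) →
      (#GG : ℝ) ≤ ((Real.log N) ^ (-(1 : ℝ) / 5) / 3) * N * (A / W : ℕ) := by
  classical
  obtain ⟨B, hB⟩ := bh2
  obtain ⟨Cp, hCp, hpure⟩ := pure_sieve
  obtain ⟨cl, hcl, hvlow⟩ := vlow
  obtain ⟨Cu, hCu, hvup⟩ := vup
  obtain ⟨Ci, hCi, hpi⟩ := piup
  obtain ⟨K, M, hK, hnumb⟩ := numb (κ₀ + 1) Ci cl hCi hcl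
  obtain ⟨N₀, hN₀⟩ := facts κ₀ B ε Cp Cu Ci cl K M hε hε1 hCp hCu hCi hcl hK
  refine ⟨ε / (64 * (B + 1)), max N₀ 3, by positivity, ?_⟩
  intro N A W U hN hA hW hlogW hU hUJ hm hEd GG hGG hbad
  obtain ⟨hN0, hN3⟩ := max_le_iff.1 hN
  have hN3r : (3 : ℝ) ≤ N := by exact_mod_cast hN3
  have hNpos : (0 : ℝ) < N := by linarith
  have hN1 : (1 : ℝ) ≤ N := by linarith
  obtain ⟨ℓ, hℓ⟩ : ∃ ℓ, ℓ = Real.log N := ⟨_, rfl⟩
  obtain ⟨Λ, hΛ⟩ : ∃ Λ, Λ = Real.log ℓ := ⟨_, rfl⟩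
  obtain ⟨P, hP⟩ : ∃ P, P = (N : ℝ) ^ (ε / 64) := ⟨_, rfl⟩
  obtain ⟨t, ht⟩ : ∃ t, t = ε / (64 * ((B : ℝ) + 1)) := ⟨_, rfl⟩
  obtain ⟨T, hT⟩ : ∃ T, T = (N : ℝ) ^ t := ⟨_, rfl⟩
  obtain ⟨f1, f2, f3, f4, f5, f6, f7, f8, f9, f10, f11⟩ := hN₀ N hN0 ℓ Λ P hℓ hΛ hP
  rw [← ht, ← hT] at f10 f11
  rw [← ht, ← hT] at hbad
  rw [← hℓ] at hlogW hm hGG ⊢
  have hℓ1 : (1 : ℝ) ≤ ℓ := by linarith
  have hℓ0 : (0 : ℝ) < ℓ := by linarith
  have hP0 : (0 : ℝ) < P := by linarith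
  have hP1 : (1 : ℝ) ≤ P := by linarith
  have hT0 : (0 : ℝ) < T := by linarith
  have hP64 : P ^ 64 = (N : ℝ) ^ ε := by
    rw [hP, ← Real.rpow_natCast, ← Real.rpow_mul hNpos.le]
    congr 1
    push_cast
    ring
  have hP64N : P ^ 64 ≤ (N : ℝ) := by
    rw [hP64]
    calc (N : ℝ) ^ ε ≤ (N : ℝ) ^ (1 : ℝ) := Real.rpow_le_rpow_of_exponent_le hN1 hε1
      _ = N := Real.rpow_one _
  -- the levels
  obtain ⟨y, hy⟩ : ∃ y, y = yN κ₀ N := ⟨_, rfl⟩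
  obtain ⟨z, hz⟩ : ∃ z : ℕ, z = ⌊T ^ 2⌋₊ := ⟨_, rfl⟩
  have hzle : (z : ℝ) ≤ T ^ 2 := by rw [hz]; exact Nat.floor_le (by positivity)
  have hTz : T ≤ z := by
    have h1 : T ^ 2 - 1 < z := by rw [hz]; linarith [Nat.lt_floor_add_one (T ^ 2)]
    exact (sq_sub_one T f11).trans h1.le
  have hz3 : 3 ≤ z := by
    have : (3 : ℝ) ≤ z := by linarith
    exact_mod_cast this
  have hyl : ℓ ^ (2 * κ₀ + 40) ≤ (y : ℝ) := by
    rw [hy, hℓ]; exact Nat.le_ceil _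
  have hyu : (y : ℝ) ≤ 2 * ℓ ^ (2 * κ₀ + 40) := by
    have h1 : (y : ℝ) < ℓ ^ (2 * κ₀ + 40) + 1 := by
      rw [hy, hℓ]; exact Nat.ceil_lt_add_one (by rw [← hℓ]; positivity)
    have h2 : (1 : ℝ) ≤ ℓ ^ (2 * κ₀ + 40) := one_le_pow₀ hℓ1
    linarith
  have hy3r : (3 : ℝ) ≤ y := by
    have h1 : (2 : ℝ) ^ 2 ≤ ℓ ^ (2 * κ₀ + 40) := by
      calc (2 : ℝ) ^ 2 ≤ 2 ^ (2 * κ₀ + 40) := pow_le_pow_right₀ (by norm_num) (by omega)
        _ ≤ ℓ ^ (2 * κ₀ + 40) := pow_le_pow_left₀ (by norm_num) f2 _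
    linarith
  have hy3 : 3 ≤ y := by exact_mod_cast hy3r
  have hyz : y ≤ z := by
    have : (y : ℝ) ≤ z := by linarith
    exact_mod_cast this
  have hlogy0 : 0 < Real.log y := Real.log_pos (by linarith)
  have hlogy : Real.log y ≤ (2 * κ₀ + 41) * (1 + Λ) := by
    have h1 : Real.log y ≤ Real.log (2 * ℓ ^ (2 * κ₀ + 40)) :=
      Real.log_le_log (by linarith) hyu
    rw [Real.log_mul (by norm_num) (by positivity), Real.log_pow, ← hΛ] at h1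
    have h2 : Real.log 2 ≤ 1 := by linarith [Real.log_two_lt_d9]
    push_cast at h1
    have h3 := logy_aux κ₀ Λ (Nat.cast_nonneg _) f3
    linarith
  have hlogy1 : 1 ≤ Real.log y := by
    rw [← Real.log_exp 1]
    apply Real.log_le_log (Real.exp_pos 1)
    linarith [Real.exp_one_lt_d9]
  have hzN : (z : ℝ) ≤ N := by
    refine hzle.trans ?_
    have h1 : T ^ 2 ≤ P ^ 2 := by
      apply pow_le_pow_left₀ hT0.le
      rw [hT, hP, ht]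
      apply Real.rpow_le_rpow_of_exponent_le hN1
      apply div_le_div_of_nonneg_left hε.le (by norm_num)
      have : (0 : ℝ) ≤ B := Nat.cast_nonneg B
      linarith
    have h2 : P ^ 2 ≤ P ^ 64 := pow_le_pow_right₀ hP1 (by norm_num)
    linarith
  have hlogz : Real.log z ≤ ℓ := by
    rw [hℓ]; exact Real.log_le_log (by linarith) hzN
  have hlogz0 : 0 < Real.log z := Real.log_pos (by linarith)
  -- the weights
  obtain ⟨r, lp₁, dp₁, hr, hs₁⟩ := hpure y W hy3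
  obtain ⟨lp₂, dp₂, hs₂⟩ := hB y z W hz3
  have hrlog : r * Real.log y ≤ ℓ ^ ((1 : ℝ) / 4) := by
    refine le_trans ?_ f7
    have h1 : Real.log (Real.log y) ≤ Real.log y := by
      have := Real.log_le_sub_one_of_pos hlogy0
      linarith
    have h2 : (r : ℝ) ≤ Cp * ((2 * κ₀ + 43) * (1 + Λ)) := by
      have h3 : Cp * (1 + Real.log (Real.log y)) + Cp ≤ Cp * ((2 * κ₀ + 43) * (1 + Λ)) := by
        have h4 : (1 + Real.log (Real.log y)) + 1 ≤ (2 * κ₀ + 43) * (1 + Λ) := by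
          have e1 : (2 * (κ₀ : ℝ) + 43) * (1 + Λ) = (2 * κ₀ + 41) * (1 + Λ) + 2 * (1 + Λ) := by ring
          rw [e1]
          linarith
        have e2 : Cp * (1 + Real.log (Real.log y)) + Cp = Cp * ((1 + Real.log (Real.log y)) + 1) := by
          ring
        rw [e2]
        exact mul_le_mul_of_nonneg_left h4 hCp.le
      linarith
    have h5 : (0 : ℝ) ≤ r := Nat.cast_nonneg _
    calc r * Real.log y ≤ (Cp * ((2 * κ₀ + 43) * (1 + Λ))) * ((2 * κ₀ + 41) * (1 + Λ)) :=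
          mul_le_mul h2 hlogy hlogy0.le (by positivity)
      _ = Cp * (2 * κ₀ + 43) * (2 * κ₀ + 41) * (1 + Λ) ^ 2 := by ring
  obtain ⟨D₁, hD₁⟩ : ∃ D₁ : ℝ, D₁ = (y : ℝ) ^ r := ⟨_, rfl⟩
  obtain ⟨G₀, hG₀⟩ : ∃ G₀ : ℝ, G₀ = Real.exp (ℓ ^ ((1 : ℝ) / 4)) := ⟨_, rfl⟩
  have hD1e : D₁ = Real.exp (r * Real.log y) := by
    rw [hD₁, mul_comm, Real.exp_mul, Real.exp_log (by linarith), Real.rpow_natCast]
  have hℓ14 : 0 ≤ ℓ ^ ((1 : ℝ) / 4) := Real.rpow_nonneg hℓ0.le _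
  have h14_34 : ℓ ^ ((1 : ℝ) / 4) ≤ ℓ ^ ((3 : ℝ) / 4) :=
    Real.rpow_le_rpow_of_exponent_le hℓ1 (by norm_num)
  have hG0P : G₀ ≤ P := by
    rw [hG₀]; exact (Real.exp_le_exp.2 h14_34).trans f6
  have hD1P : D₁ ≤ P := by
    rw [hD1e]; exact (Real.exp_le_exp.2 (hrlog.trans h14_34)).trans f6
  have hG0pos : 0 < G₀ := by rw [hG₀]; exact Real.exp_pos _
  have hD1pos : 0 < D₁ := by rw [hD1e]; exact Real.exp_pos _
  have hWpos : (0 : ℝ) < W := by exact_mod_cast hW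
  have hWP : (W : ℝ) ≤ P := by
    refine le_trans ?_ f6
    rw [← Real.log_le_iff_le_exp hWpos]
    refine hlogW.trans ?_
    have : 0 ≤ ℓ ^ ((3 : ℝ) / 4) := Real.rpow_nonneg hℓ0.le _
    linarith
  -- J
  obtain ⟨J, hJ⟩ : ∃ J : ℕ, J = A / W := ⟨_, rfl⟩
  rw [← hJ] at hUJ hGG ⊢
  have hJ1 : (A : ℝ) / W < J + 1 := by
    rw [hJ]
    exact div_lt_cast A W hW
  have hPJ : P ^ 32 ≤ (J : ℝ) := by
    have h1 : P ^ 63 ≤ (A : ℝ) / W := by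
      rw [le_div_iff₀ hWpos]
      calc P ^ 63 * W ≤ P ^ 63 * P := mul_le_mul_of_nonneg_left hWP (by positivity)
        _ = P ^ 64 := by ring
        _ ≤ A := by rw [hP64]; exact hA
    have h2 : (2 : ℝ) * P ^ 32 ≤ P ^ 63 := by
      calc (2 : ℝ) * P ^ 32 ≤ P ^ 31 * P ^ 32 := by
            apply mul_le_mul_of_nonneg_right _ (by positivity)
            calc (2 : ℝ) ≤ P := f5
              _ = P ^ 1 := (pow_one P).symm
              _ ≤ P ^ 31 := pow_le_pow_right₀ hP1 (by norm_num)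
        _ = P ^ 63 := by ring
    have h3 : (1 : ℝ) ≤ P ^ 32 := one_le_pow₀ hP1
    linarith
  have hJpos : (0 : ℝ) < J := lt_of_lt_of_le (by positivity) hPJ
  -- D, E, R, X
  obtain ⟨Dm, hDm⟩ : ∃ Dm : ℕ, Dm = ⌊P ^ 4⌋₊ := ⟨_, rfl⟩
  obtain ⟨E₀, hE₀⟩ : ∃ E₀ : ℕ, E₀ = ⌊P ^ 16⌋₊ := ⟨_, rfl⟩
  have hDmle : (Dm : ℝ) ≤ P ^ 4 := by rw [hDm]; exact Nat.floor_le (by positivity)
  have hDmge : P ^ 3 ≤ (Dm : ℝ) := by
    have h1 : P ^ 4 - 1 < Dm := by rw [hDm]; linarith [Nat.lt_floor_add_one (P ^ 4)]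
    have h2 : P ^ 3 * 2 ≤ P ^ 4 := by
      calc P ^ 3 * 2 ≤ P ^ 3 * P := mul_le_mul_of_nonneg_left f5 (by positivity)
        _ = P ^ 4 := by ring
    have h3 : (1 : ℝ) ≤ P ^ 3 := one_le_pow₀ hP1
    linarith
  have hElt : P ^ 16 < (E₀ : ℝ) + 1 := by rw [hE₀]; exact Nat.lt_floor_add_one _
  have hEle : (E₀ : ℝ) ≤ P ^ 16 := by rw [hE₀]; exact Nat.floor_le (by positivity)
  have hP16 : (2 : ℝ) ≤ P ^ 16 := by
    calc (2 : ℝ) ≤ P := f5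
      _ = P ^ 1 := (pow_one P).symm
      _ ≤ P ^ 16 := pow_le_pow_right₀ hP1 (by norm_num)
  have hE1r : (1 : ℝ) < E₀ := by linarith
  have hE1 : 1 ≤ E₀ := by
    have : (1 : ℝ) ≤ E₀ := hE1r.le
    exact_mod_cast this
  have hE2 : P ^ 16 ≤ 2 * (E₀ : ℝ) := by linarith
  have hEJ : E₀ ≤ J := by
    have h1 : (E₀ : ℝ) ≤ J := by
      calc (E₀ : ℝ) ≤ P ^ 16 := hEle
        _ ≤ P ^ 32 := pow_le_pow_right₀ hP1 (by norm_num)
        _ ≤ J := hPJ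
    exact_mod_cast h1
  obtain ⟨X, hX⟩ : ∃ X : ℕ, X = N ^ 2 / W + 1 := ⟨_, rfl⟩
  rw [← hX] at hU
  have hX1 : 1 ≤ X := by rw [hX]; exact Nat.succ_pos _
  have hXl : (N : ℝ) ^ 2 / W < X := by
    rw [hX]
    have := div_lt_cast (N ^ 2) W hW
    push_cast at this ⊢
    exact this
  have hXu : (X : ℝ) ≤ 2 * ((N : ℝ) ^ 2 / W) := by
    have h1 : ((N ^ 2 / W : ℕ) : ℝ) ≤ ((N ^ 2 : ℕ) : ℝ) / W := Nat.cast_div_le
    have h2 : (1 : ℝ) ≤ (N : ℝ) ^ 2 / W := by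
      rw [le_div_iff₀ hWpos, one_mul]
      calc (W : ℝ) ≤ P := hWP
        _ = P ^ 1 := (pow_one P).symm
        _ ≤ P ^ 64 := pow_le_pow_right₀ hP1 (by norm_num)
        _ ≤ N := hP64N
        _ ≤ (N : ℝ) ^ 2 := le_self_pow₀ hN1 (by norm_num)
    rw [hX]
    push_cast at h1 ⊢
    linarith
  have hEX : E₀ ^ 2 ≤ X := by
    have h1 : ((E₀ ^ 2 : ℕ) : ℝ) ≤ X := by
      push_cast
      calc (E₀ : ℝ) ^ 2 ≤ (P ^ 16) ^ 2 := pow_le_pow_left₀ (Nat.cast_nonneg _) hEle 2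
        _ = P ^ 32 * 1 := by ring
        _ ≤ P ^ 32 * P ^ 31 := mul_le_mul_of_nonneg_left (one_le_pow₀ hP1) (by positivity)
        _ = P ^ 64 / P := by field_simp
        _ ≤ (N : ℝ) ^ 2 / W := by
            apply div_le_div₀ (by positivity) _ hWpos hWP
            exact hP64N.trans (le_self_pow₀ hN1 (by norm_num))
        _ ≤ X := hXl.le
    exact_mod_cast h1
  obtain ⟨R, hR⟩ : ∃ R : ℕ, R = 2 * N * Dm := ⟨_, rfl⟩
  have hRr : (R : ℝ) = 2 * N * Dm := by rw [hR]; push_cast; ring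
  have hDm1 : (1 : ℝ) ≤ Dm := le_trans (one_le_pow₀ hP1) hDmge
  have hR1 : (1 : ℝ) ≤ R := by
    rw [hRr]
    have : (1 : ℝ) * 1 ≤ (2 * N) * Dm := mul_le_mul (by linarith) hDm1 (by norm_num) (by linarith)
    linarith
  have hlogR0 : 0 ≤ Real.log R := Real.log_nonneg hR1
  have hlogR : 1 + Real.log R ≤ 3 * ℓ := by
    have h1 : (R : ℝ) ≤ (N : ℝ) ^ 2 := by
      rw [hRr]
      have h2 : (2 : ℝ) * Dm ≤ N := by
        calc (2 : ℝ) * Dm ≤ P * P ^ 4 := mul_le_mul f5 hDmle (Nat.cast_nonneg _) hP0.le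
          _ = P ^ 5 := by ring
          _ ≤ P ^ 64 := pow_le_pow_right₀ hP1 (by norm_num)
          _ ≤ N := hP64N
      calc (2 : ℝ) * N * Dm = N * (2 * Dm) := by ring
        _ ≤ N * N := mul_le_mul_of_nonneg_left h2 hNpos.le
        _ = (N : ℝ) ^ 2 := by ring
    have h3 : Real.log R ≤ 2 * ℓ := by
      have h4 := Real.log_le_log (by linarith) h1
      rw [Real.log_pow] at h4
      rw [hℓ]
      push_cast at h4
      exact h4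
    linarith
  -- P₁, P₂, products
  have hc1 : ∀ p ∈ PW 3 y W, p.Prime ∧ p < y ∧ ¬ p ∣ 2 * W := fun p hp => by
    obtain ⟨h1, h2, h3, h4⟩ := PW_spec 3 y W p hp
    exact ⟨h1, h3, h4⟩
  have hc2 : ∀ p ∈ PW y z W, p.Prime ∧ y ≤ p ∧ ¬ p ∣ 2 * W := fun p hp => by
    obtain ⟨h1, h2, h3, h4⟩ := PW_spec y z W p hp
    exact ⟨h1, h2, h4⟩
  have hDD : D₁ * (z : ℝ) ^ B ≤ Dm := by
    have h1 : (z : ℝ) ^ B ≤ P ^ 2 := by
      calc (z : ℝ) ^ B ≤ (T ^ 2) ^ B := pow_le_pow_left₀ (Nat.cast_nonneg _) hzle B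
        _ = (N : ℝ) ^ (t * (2 * B : ℕ)) := by
            rw [← pow_mul, hT, ← Real.rpow_natCast, ← Real.rpow_mul hNpos.le]
        _ ≤ (N : ℝ) ^ (ε / 64 * (2 : ℕ)) := by
            apply Real.rpow_le_rpow_of_exponent_le hN1
            have hB0 : (0 : ℝ) ≤ B := Nat.cast_nonneg _
            have ht1 : t * (B + 1) = ε / 64 := by
              rw [ht]
              field_simp
            have ht0 : 0 ≤ t := by rw [ht]; positivity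
            push_cast
            rw [← ht1]
            linarith
        _ = P ^ 2 := by rw [hP, Real.rpow_mul hNpos.le, Real.rpow_natCast]
    calc D₁ * (z : ℝ) ^ B ≤ P * P ^ 2 := mul_le_mul hD1P h1 (by positivity) hP0.le
      _ = P ^ 3 := by ring
      _ ≤ Dm := hDmge
  -- H
  have hκ0 : 0 ≤ kap κ₀ N := by
    unfold kap
    rw [← hℓ, ← hΛ]
    positivity
  obtain ⟨H, hH⟩ : ∃ H : ℝ, H = (G₀ * D₁) ^ (kap κ₀ N) := ⟨_, rfl⟩
  have hlogGD : Real.log (G₀ * D₁) ≤ 2 * ℓ ^ ((1 : ℝ) / 4) := by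
    rw [Real.log_mul hG0pos.ne' hD1pos.ne', hG₀, hD1e, Real.log_exp, Real.log_exp]
    linarith
  have hlogGD0 : 0 ≤ Real.log (G₀ * D₁) := by
    rw [Real.log_mul hG0pos.ne' hD1pos.ne', hG₀, hD1e, Real.log_exp, Real.log_exp]
    have : (0 : ℝ) ≤ r * Real.log y := by positivity
    linarith
  have hHexp : H = Real.exp (Real.log (G₀ * D₁) * kap κ₀ N) := by
    rw [hH, Real.rpow_def_of_pos (by positivity)]
  have hκb : Real.log (G₀ * D₁) * kap κ₀ N ≤ 4 * (κ₀ + 2) * Λ * ℓ ^ (-(1 : ℝ) / 2) := by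
    have h1 : kap κ₀ N = 2 * (κ₀ + 2) * Λ * ℓ ^ (-(3 : ℝ) / 4) := by
      unfold kap
      rw [← hℓ, ← hΛ, div_eq_mul_inv, ← Real.rpow_neg hℓ0.le]
      congr 2
      ring
    calc Real.log (G₀ * D₁) * kap κ₀ N ≤ (2 * ℓ ^ ((1 : ℝ) / 4)) * kap κ₀ N :=
          mul_le_mul_of_nonneg_right hlogGD hκ0
      _ = 4 * (κ₀ + 2) * Λ * (ℓ ^ ((1 : ℝ) / 4) * ℓ ^ (-(3 : ℝ) / 4)) := by rw [h1]; ring
      _ = 4 * (κ₀ + 2) * Λ * ℓ ^ (-(1 : ℝ) / 2) := by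
          rw [← Real.rpow_add hℓ0]
          norm_num
  have hκb1 : 4 * (κ₀ + 2) * Λ * ℓ ^ (-(1 : ℝ) / 2) ≤ 1 := by
    have h1 : 4 * (κ₀ + 2) * Λ ≤ ℓ ^ ((1 : ℝ) / 2) := by
      refine le_trans ?_ f9
      rw [pow_one]
      have : (0 : ℝ) ≤ 4 * (κ₀ + 2) := by positivity
      exact mul_le_mul_of_nonneg_left (by linarith) this
    calc 4 * (κ₀ + 2) * Λ * ℓ ^ (-(1 : ℝ) / 2) ≤ ℓ ^ ((1 : ℝ) / 2) * ℓ ^ (-(1 : ℝ) / 2) :=
          mul_le_mul_of_nonneg_right h1 (Real.rpow_nonneg hℓ0.le _)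
      _ = 1 := by rw [← Real.rpow_add hℓ0]; norm_num
  have hH1 : 1 ≤ H := by
    rw [hHexp]
    exact Real.one_le_exp (mul_nonneg hlogGD0 hκ0)
  have hHb : H - 1 ≤ 8 * (κ₀ + 2) * Λ * ℓ ^ (-(1 : ℝ) / 2) := by
    rw [hHexp]
    have := exp_sub_one' _ (mul_nonneg hlogGD0 hκ0) (hκb.trans hκb1)
    linarith
  have hE : ∀ g b : ℕ, 1 ≤ g → (g : ℝ) ≤ G₀ * D₁ → (zc U g b : ℝ) * g ≤ #U * H := by
    intro g b hg hgG
    have hg0 : (0 : ℝ) < g := by exact_mod_cast hg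
    refine (hEd g b hg ?_).trans ?_
    · have h1 : ((W * g : ℕ) : ℝ) ≤ ((N ^ 2 : ℕ) : ℝ) := by
        push_cast
        calc (W : ℝ) * g ≤ P * (P * P) := by
              apply mul_le_mul hWP _ hg0.le hP0.le
              exact hgG.trans (mul_le_mul hG0P hD1P hD1pos.le hP0.le)
          _ = P ^ 3 := by ring
          _ ≤ P ^ 64 := pow_le_pow_right₀ hP1 (by norm_num)
          _ ≤ N := hP64N
          _ ≤ (N : ℝ) ^ 2 := le_self_pow₀ hN1 (by norm_num)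
      exact_mod_cast h1
    · apply mul_le_mul_of_nonneg_left _ (Nat.cast_nonneg _)
      rw [hH]
      exact Real.rpow_le_rpow hg0.le hgG hκ0
  have hGJ : G₀ * D₁ ≤ J := by
    calc G₀ * D₁ ≤ P * P := mul_le_mul hG0P hD1P hD1pos.le hP0.le
      _ = P ^ 2 := by ring
      _ ≤ P ^ 32 := pow_le_pow_right₀ hP1 (by norm_num)
      _ ≤ J := hPJ
  -- the main inequality
  have hbad' : ∀ s ∈ GG, SN U W (PW 3 y W) (PW y z W) (lam lp₁ dp₁ lp₂ dp₂) s.1 s.2 ≤ 0 := by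
    intro s hs
    by_contra hcon
    push Not at hcon
    obtain ⟨u, hu, hdu, hpu⟩ := good_of_pos U W (PW 3 y W) (PW y z W) _ _ _ _ lp₁ dp₁ lp₂ dp₂
      hs₁ hs₂ s.1 s.2 hcon
    refine hbad s hs ⟨u, hu, hdu, fun p hp hpd => ?_⟩
    have h1 := no_small W y z ((u - s.2) / s.1) hpu p hp hpd
    have h2 : (z : ℝ) ≤ p := by exact_mod_cast h1
    linarith
  have hmain := mainq U W N J y X R E₀ Dm (PW 3 y W) (PW y z W)
    ((Ioc N (2 * N)).filter (fun n => (sm (yN κ₀ N) n : ℝ) ≤ Real.exp (ℓ ^ ((1 : ℝ) / 4)))) GG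
    D₁ ((z : ℝ) ^ B) (VV (PW 3 y W)) (VV (PW y z W)) H G₀ lp₁ dp₁ lp₂ dp₂ (by rw [hD₁]; exact hs₁)
    hs₂ (by omega) hW hc1 hc2 (filter_subset _ _) (fun n hn => by
      rw [hy, hG₀]; exact (mem_filter.1 hn).2) hGG hbad' hU hUJ hX1 hGJ hH1 hE hDD
    (by rw [hR]) hy3 hE1 hEJ hEX
  -- positivity of #U
  have hm0 : (0 : ℝ) < #U := by
    rcases Nat.eq_zero_or_pos (#U) with h | h
    · rw [h] at hm
      have : (0 : ℝ) < (N : ℝ) ^ 2 := by positivity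
      norm_num at hm
      linarith
    · exact_mod_cast h
  have hXm : (X : ℝ) ≤ 2 * #U * ℓ ^ (κ₀ + 1) := by
    refine hXu.trans ?_
    have h1 : (N : ℝ) ^ 2 / W ≤ #U * ℓ ^ (κ₀ + 1) := by
      rw [div_le_iff₀ hWpos]
      calc (N : ℝ) ^ 2 ≤ #U * W * ℓ ^ (κ₀ + 1) := hm
        _ = #U * ℓ ^ (κ₀ + 1) * W := by ring
    linarith
  obtain ⟨η, hη⟩ : ∃ η, η = ℓ ^ (-(1 : ℝ) / 5) / 3 := ⟨_, rfl⟩
  have hη0 : 0 < η := by rw [hη]; have := Real.rpow_pos_of_pos hℓ0 (-(1 : ℝ) / 5); positivity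
  have hη1 : 1 ≤ 3 * ℓ * η := by
    rw [hη]
    have h1 : 3 * ℓ * (ℓ ^ (-(1 : ℝ) / 5) / 3) = ℓ ^ ((4 : ℝ) / 5) := by
      have h2 : ℓ * ℓ ^ (-(1 : ℝ) / 5) = ℓ ^ ((4 : ℝ) / 5) := by
        nth_rewrite 1 [← Real.rpow_one ℓ]
        rw [← Real.rpow_add hℓ0]
        norm_num
      linarith
    rw [h1]
    exact Real.one_le_rpow hℓ1 (by norm_num)
  have hPi : PI (PW 3 y W ∪ PW y z W) ≤ Ci * ℓ := by
    rw [PW_union y z W hy3 hyz]
    exact (hpi 3 z W hz3).trans (mul_le_mul_of_nonneg_left hlogz hCi.le)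
  have hPi0 : ∀ S : Finset ℕ, 0 ≤ PI S := fun S => by
    unfold PI
    exact Finset.prod_nonneg fun p _ => by positivity
  have hsy : ℓ ^ (κ₀ + 1 + 19) ≤ Real.sqrt y := by
    apply Real.le_sqrt_of_sq_le
    rw [← pow_mul]
    have : (κ₀ + 1 + 19) * 2 = 2 * κ₀ + 40 := by ring
    rw [this]
    exact hyl
  have hnum := hnumb ℓ (#U) X J R E₀ Dm W (PI (PW 3 y W ∪ PW y z W)) (Real.sqrt y) (Real.log z) η N P
    (1 + Real.log R) f1 f4 hm0 (Nat.cast_nonneg _) hXm hm hWpos hWP (Nat.cast_nonneg _) hDmle hPJ hE2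
    hP64N hRr (hPi0 _) hPi hsy (by linarith) hlogR hlogz0 hlogz hη1
  rw [← hη]
  -- the first error
  have hV := hvlow y z W hy3 hyz
  have hV2 := hvup y z W hy3 hyz hW (by
    refine hlogW.trans ?_
    have h1 : ℓ ^ ((3 : ℝ) / 4) ≤ ℓ ^ (1 : ℝ) := Real.rpow_le_rpow_of_exponent_le hℓ1 (by norm_num)
    rw [Real.rpow_one] at h1
    have h2 : ℓ ≤ ℓ ^ (2 * κ₀ + 40) := le_self_pow₀ hℓ1 (by omega)
    linarith)
  have hPi1 := hpi 3 y W hy3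
  have hfirst : 12 * VV (PW y z W) * PI (PW 3 y W) * (H - 1) ≤ cl / Real.log z * η / 16 := by
    have hΛ1 : (1 : ℝ) ≤ 1 + Λ := by linarith
    have a1 : 12 * VV (PW y z W) * PI (PW 3 y W) * (H - 1) ≤
        12 * (Cu * (Real.log y / Real.log z)) * (Ci * Real.log y) *
          (8 * (κ₀ + 2) * Λ * ℓ ^ (-(1 : ℝ) / 2)) := by
      apply mul_le_mul _ hHb (by linarith) (by positivity)
      apply mul_le_mul _ hPi1 (hPi0 _) (by positivity)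
      linarith
    have a2 : 12 * (Cu * (Real.log y / Real.log z)) * (Ci * Real.log y) *
          (8 * (κ₀ + 2) * Λ * ℓ ^ (-(1 : ℝ) / 2)) =
        (12 * Cu * Ci * (8 * (κ₀ + 2)) * (Real.log y) ^ 2 * Λ) * ℓ ^ (-(1 : ℝ) / 2) / Real.log z := by
      ring
    have a3 : 12 * Cu * Ci * (8 * (κ₀ + 2)) * (Real.log y) ^ 2 * Λ ≤
        12 * Cu * Ci * (8 * (κ₀ + 2)) * ((2 * κ₀ + 41) * (1 + Λ)) ^ 2 * (1 + Λ) := by
      apply mul_le_mul _ (by linarith) f3 (by positivity)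
      apply mul_le_mul_of_nonneg_left _ (by positivity)
      exact pow_le_pow_left₀ hlogy0.le hlogy 2
    have a4 : 12 * Cu * Ci * (8 * (κ₀ + 2)) * ((2 * κ₀ + 41) * (1 + Λ)) ^ 2 * (1 + Λ) ≤
        cl / 48 * ℓ ^ ((3 : ℝ) / 10) := by
      have h1 : 12 * Cu * Ci * (8 * (κ₀ + 2)) * ((2 * κ₀ + 41) * (1 + Λ)) ^ 2 * (1 + Λ) =
          cl / 48 * (12 * Cu * Ci * (8 * (κ₀ + 2)) * 48 / cl * (2 * κ₀ + 41) ^ 2 * (1 + Λ) ^ 3) := by
        field_simp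
      rw [h1]
      exact mul_le_mul_of_nonneg_left f8 (by positivity)
    have a5 : cl / 48 * ℓ ^ ((3 : ℝ) / 10) * ℓ ^ (-(1 : ℝ) / 2) / Real.log z =
        cl / Real.log z * η / 16 := by
      have h1 : ℓ ^ ((3 : ℝ) / 10) * ℓ ^ (-(1 : ℝ) / 2) = ℓ ^ (-(1 : ℝ) / 5) := by
        rw [← Real.rpow_add hℓ0]
        norm_num
      rw [mul_assoc, h1, hη]
      ring
    rw [← a5]
    refine a1.trans ?_
    rw [a2]
    apply div_le_div_of_nonneg_right _ hlogz0.le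
    exact mul_le_mul_of_nonneg_right (a3.trans a4) (Real.rpow_nonneg hℓ0.le _)
  -- conclusion
  by_contra hcon
  push Not at hcon
  have hv0 : 0 < cl / Real.log z := div_pos hcl hlogz0
  have c1 : #U * (VV (PW 3 y W) * VV (PW y z W) / 2) * (#GG / (2 * (N : ℝ))) ≤
      #U * J * (cl / Real.log z * η / 8) := by
    refine hmain.trans ?_
    have b1 : 12 * VV (PW y z W) * PI (PW 3 y W) * J * #U * (H - 1) ≤
        #U * J * (cl / Real.log z * η / 16) := by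
      calc 12 * VV (PW y z W) * PI (PW 3 y W) * J * #U * (H - 1) =
          (#U * J) * (12 * VV (PW y z W) * PI (PW 3 y W) * (H - 1)) := by ring
        _ ≤ (#U * J) * (cl / Real.log z * η / 16) :=
            mul_le_mul_of_nonneg_left hfirst (by positivity)
    have b2 : #U * (J : ℝ) * (cl / Real.log z) * η / 16 = #U * J * (cl / Real.log z * η / 16) := by
      ring
    rw [b2] at hnum
    linarith
  have c2 : #U * (cl / Real.log z / 2) * (η * J / 2) <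
      #U * (VV (PW 3 y W) * VV (PW y z W) / 2) * (#GG / (2 * (N : ℝ))) := by
    have b1 : η * J / 2 < #GG / (2 * (N : ℝ)) := by
      rw [lt_div_iff₀ (by positivity)]
      linarith
    calc #U * (cl / Real.log z / 2) * (η * J / 2) < #U * (cl / Real.log z / 2) * (#GG / (2 * (N : ℝ))) :=
          mul_lt_mul_of_pos_left b1 (by positivity)
      _ ≤ _ := by
          apply mul_le_mul_of_nonneg_right _ (by positivity)
          apply mul_le_mul_of_nonneg_left _ hm0.le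
          linarith
  have c3 : #U * (cl / Real.log z / 2) * (η * J / 2) = 2 * (#U * J * (cl / Real.log z * η / 8)) := by
    ring
  have c4 : 0 < #U * J * (cl / Real.log z * η / 8) := by positivity
  linarith

end PoolUS
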