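import Mathlib
import Pool.Agent.Work.MP_c971ef_nt.US.Defs

set_option autoImplicit false

/-!
Module Inc (size M). Density increment by maximality.

PROOF. Among the finitely many pairs (W, c) with 1 ≤ W ≤ X, c < W choose one maximising
Φ(W,c) = #{m ∈ I : m % W = c} · W^(1-κ). (The pair (1,0) is allowed because X ≥ 1 as I is nonempty; it
gives Φ(1,0) = #I.) Let U = {u ∈ range (X+1) : c + W u ∈ I}; m ↦ (m - c)/W is a bijection from
{m ∈ I : m % W = c} to U, so #U = #{m ∈ I : m % W = c}.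
(i) c + W u ∈ I implies u ≤ X, so u ∈ U ↔ c + W u ∈ I for all u.
(ii) #I = Φ(1,0) ≤ #U W^(1-κ), i.e. #I W^κ ≤ #U W.
(iii) #U ≤ X/W + 1 ≤ 2 X/W (elements of I ⊆ [1,X] in one class mod W), so #I ≤ Φ ≤ 2 X W^(-κ).
(iv) for d ≥ 1 with W d ≤ X and b: we may replace b by b % d (zc U d b depends on b % d only).
{u ∈ U : u % d = b} is in bijection with {m ∈ I : m % (W d) = c + W b} (c + W b < W d), so by maximality
zc U d b (W d)^(1-κ) ≤ #U W^(1-κ), i.e. zc U d b · d ≤ #U d^κ.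
-/

namespace PoolUS

open Finset

theorem inc (X : ℕ) (I : Finset ℕ) (hI : I ⊆ Icc 1 X) (hne : I.Nonempty) (κ : ℝ) (h0 : 0 < κ)
    (h1 : κ ≤ 1) : ∃ (W c : ℕ) (U : Finset ℕ), 1 ≤ W ∧ W ≤ X ∧ c < W ∧
      (W : ℝ) ^ κ * #I ≤ 2 * X ∧ (∀ u, u ∈ U ↔ c + W * u ∈ I) ∧
      (#I : ℝ) * (W : ℝ) ^ κ ≤ #U * W ∧
      ∀ d b : ℕ, 1 ≤ d → W * d ≤ X → (zc U d b : ℝ) * d ≤ #U * (d : ℝ) ^ κ := by
  classical
  have hX : 1 ≤ X := by
    obtain ⟨m, hm⟩ := hne
    have := mem_Icc.1 (hI hm)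
    omega
  set P : Finset (ℕ × ℕ) := ((Icc 1 X) ×ˢ (range X)).filter (fun p => p.2 < p.1) with hP
  set Φ : ℕ × ℕ → ℝ := fun p =>
    (#(I.filter (fun m => m % p.1 = p.2)) : ℝ) * (p.1 : ℝ) ^ (1 - κ) with hΦ
  have h10 : ((1, 0) : ℕ × ℕ) ∈ P := by
    rw [hP, mem_filter, mem_product]
    exact ⟨⟨mem_Icc.2 ⟨le_refl _, hX⟩, mem_range.2 hX⟩, by norm_num⟩
  obtain ⟨⟨W, c⟩, hWc, hmax⟩ := exists_max_image P Φ ⟨_, h10⟩
  rw [hP, mem_filter, mem_product, mem_Icc, mem_range] at hWc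
  obtain ⟨⟨⟨hW1, hWX⟩, hcX⟩, hcW⟩ := hWc
  simp only at hW1 hWX hcX hcW
  have hWpos : (0 : ℝ) < W := by exact_mod_cast hW1
  set U : Finset ℕ := (range (X + 1)).filter (fun u => c + W * u ∈ I) with hUdef
  have hU : ∀ u, u ∈ U ↔ c + W * u ∈ I := by
    intro u
    rw [hUdef, mem_filter, mem_range]
    refine ⟨fun h => h.2, fun h => ⟨?_, h⟩⟩
    have h2 := (mem_Icc.1 (hI h)).2
    have h3 : u ≤ W * u := Nat.le_mul_of_pos_left u hW1
    omega
  have hcard : #(I.filter (fun m => m % W = c)) = #U := by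
    symm
    apply card_bij (fun u _ => c + W * u)
    · intro u hu
      rw [mem_filter]
      refine ⟨(hU u).1 hu, ?_⟩
      rw [Nat.add_mul_mod_self_left, Nat.mod_eq_of_lt hcW]
    · intro u _ v _ huv
      have : W * u = W * v := by omega
      exact Nat.eq_of_mul_eq_mul_left hW1 this
    · intro m hm
      rw [mem_filter] at hm
      have hm2 : c + W * (m / W) = m := by
        rw [← hm.2]
        exact Nat.mod_add_div m W
      exact ⟨m / W, (hU _).2 (by rw [hm2]; exact hm.1), hm2⟩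
  have hΦW : Φ (W, c) = (#U : ℝ) * (W : ℝ) ^ (1 - κ) := by
    simp only [hΦ, hcard]
  have hWW : (W : ℝ) ^ (1 - κ) * (W : ℝ) ^ κ = W := by
    rw [← Real.rpow_add hWpos]
    norm_num
  have hii : (#I : ℝ) * (W : ℝ) ^ κ ≤ #U * W := by
    have h := hmax (1, 0) h10
    rw [hΦW] at h
    have hI1 : I.filter (fun m => m % 1 = 0) = I := by
      apply filter_true_of_mem
      intro m _
      exact Nat.mod_one m
    have h2 : (#I : ℝ) ≤ (#U : ℝ) * (W : ℝ) ^ (1 - κ) := by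
      have h3 : Φ (1, 0) = (#I : ℝ) := by
        simp only [hΦ, hI1]
        simp
      rw [h3] at h
      exact h
    have hk : (0 : ℝ) ≤ (W : ℝ) ^ κ := Real.rpow_nonneg hWpos.le _
    calc (#I : ℝ) * (W : ℝ) ^ κ ≤ ((#U : ℝ) * (W : ℝ) ^ (1 - κ)) * (W : ℝ) ^ κ :=
          mul_le_mul_of_nonneg_right h2 hk
      _ = #U * ((W : ℝ) ^ (1 - κ) * (W : ℝ) ^ κ) := by ring
      _ = #U * W := by rw [hWW]
  have hUsmall : (#U : ℝ) * W ≤ 2 * X := by
    have hsub : U ⊆ range (X / W + 1) := by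
      intro u hu
      rw [mem_range, Nat.lt_succ_iff, Nat.le_div_iff_mul_le hW1]
      have h2 := (mem_Icc.1 (hI ((hU u).1 hu))).2
      nlinarith
    have h1 : #U ≤ X / W + 1 := by
      have := card_le_card hsub
      rwa [card_range] at this
    have h2 : #U * W ≤ (X / W + 1) * W := Nat.mul_le_mul_right W h1
    have h3 : (X / W + 1) * W ≤ 2 * X := by
      have := Nat.div_mul_le_self X W
      nlinarith
    exact_mod_cast h2.trans h3
  refine ⟨W, c, U, hW1, hWX, hcW, ?_, hU, hii, ?_⟩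
  · calc (W : ℝ) ^ κ * #I = #I * (W : ℝ) ^ κ := by ring
      _ ≤ #U * W := hii
      _ ≤ 2 * X := hUsmall
  · intro d b hd hWd
    have hdpos : (0 : ℝ) < d := by exact_mod_cast hd
    have hb : b % d < d := Nat.mod_lt b hd
    have hc' : c + W * (b % d) < W * d := by
      have : W * (b % d) + W ≤ W * d := by
        have : W * (b % d + 1) ≤ W * d := Nat.mul_le_mul_left W hb
        nlinarith
      omega
    have hmem : ((W * d, c + W * (b % d)) : ℕ × ℕ) ∈ P := by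
      rw [hP, mem_filter, mem_product, mem_Icc, mem_range]
      exact ⟨⟨⟨Nat.mul_pos hW1 hd, hWd⟩, by omega⟩, hc'⟩
    have h := hmax _ hmem
    rw [hΦW] at h
    have hle : zc U d b ≤ #(I.filter (fun m => m % (W * d) = c + W * (b % d))) := by
      unfold zc
      apply card_le_card_of_injOn (fun u => c + W * u)
      · intro u hu
        have hu' := mem_filter.1 (mem_coe.1 hu)
        rw [mem_coe, mem_filter]
        refine ⟨(hU u).1 hu'.1, ?_⟩
        have hmod : u % d = b % d := hu'.2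
        have hu2 : u = b % d + d * (u / d) := by
          rw [← hmod]
          exact (Nat.mod_add_div u d).symm
        have hu3 : c + W * u = (c + W * (b % d)) + (W * d) * (u / d) := by
          conv_lhs => rw [hu2]
          ring
        simp only
        rw [hu3, Nat.add_mul_mod_self_left, Nat.mod_eq_of_lt hc']
      · intro u _ v _ huv
        have : W * u = W * v := by
          simp only at huv
          omega
        exact Nat.eq_of_mul_eq_mul_left hW1 this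
    have hle' : (zc U d b : ℝ) ≤ (#(I.filter (fun m => m % (W * d) = c + W * (b % d))) : ℝ) := by
      exact_mod_cast hle
    have hsplit : ((W * d : ℕ) : ℝ) ^ (1 - κ) = (W : ℝ) ^ (1 - κ) * (d : ℝ) ^ (1 - κ) := by
      rw [Nat.cast_mul, Real.mul_rpow hWpos.le hdpos.le]
    have hWk : (0 : ℝ) < (W : ℝ) ^ (1 - κ) := Real.rpow_pos_of_pos hWpos _
    have hdk : (0 : ℝ) < (d : ℝ) ^ (1 - κ) := Real.rpow_pos_of_pos hdpos _
    have hdk' : (0 : ℝ) < (d : ℝ) ^ κ := Real.rpow_pos_of_pos hdpos _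
    have h5 : (zc U d b : ℝ) * ((W : ℝ) ^ (1 - κ) * (d : ℝ) ^ (1 - κ)) ≤
        (#U : ℝ) * (W : ℝ) ^ (1 - κ) := by
      calc (zc U d b : ℝ) * ((W : ℝ) ^ (1 - κ) * (d : ℝ) ^ (1 - κ))
          ≤ (#(I.filter (fun m => m % (W * d) = c + W * (b % d))) : ℝ) *
            ((W : ℝ) ^ (1 - κ) * (d : ℝ) ^ (1 - κ)) :=
            mul_le_mul_of_nonneg_right hle' (mul_nonneg hWk.le hdk.le)
        _ = Φ (W * d, c + W * (b % d)) := by
            simp only [hΦ]
            rw [hsplit]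
        _ ≤ _ := h
    have h6 : (zc U d b : ℝ) * (d : ℝ) ^ (1 - κ) ≤ #U := by
      have h7 : ((zc U d b : ℝ) * (d : ℝ) ^ (1 - κ)) * (W : ℝ) ^ (1 - κ) ≤
          (#U : ℝ) * (W : ℝ) ^ (1 - κ) := by
        calc ((zc U d b : ℝ) * (d : ℝ) ^ (1 - κ)) * (W : ℝ) ^ (1 - κ)
            = (zc U d b : ℝ) * ((W : ℝ) ^ (1 - κ) * (d : ℝ) ^ (1 - κ)) := by ring
          _ ≤ _ := h5
      exact le_of_mul_le_mul_right h7 hWk
    have hdd : (d : ℝ) ^ (1 - κ) * (d : ℝ) ^ κ = d := by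
      rw [← Real.rpow_add hdpos]
      norm_num
    calc (zc U d b : ℝ) * d = ((zc U d b : ℝ) * (d : ℝ) ^ (1 - κ)) * (d : ℝ) ^ κ := by
          rw [mul_assoc, hdd]
      _ ≤ #U * (d : ℝ) ^ κ := mul_le_mul_of_nonneg_right h6 hdk'.le

end PoolUS
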