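import Mathlib
import Pool.Agent.Work.MP_c971ef_nt.US.Smf

set_option autoImplicit false

/-!
Module Mark (size M). Few n have a large smooth part.

PROOF. Markov: #{n : G < sm y n} log G ≤ ∑_{n ≤ 2N} log (sm y n) (all terms ≥ 0 as sm ≥ 1).
log (sm y n) = ∑_{p<y} v_p(n) log p = ∑_{p < y} ∑_{i ≥ 1, p^i ∣ n} log p; summing over n ≤ 2N:
≤ 2N ∑_{p<y} log p ∑_{i≥1} p^(-i) = 2N ∑_{p<y} log p/(p-1) ≤ 4N ∑_{p<y} log p/p ≤ C N log y (Mertens, upper
bound; e.g. Pool.Agent.Work.MP_c971ef_nt.Mertens or any other file, search `log p / p`; a crude way: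
∏_{p<y} p^(v_p(m!)) ∣ m! gives ∑_{p ≤ m} log p/p ≤ log m + C with m = y).
-/

namespace PoolUS

open Finset

private theorem sum_fact' (p M : ℕ) :
    ∑ n ∈ Ioc 0 M, n.factorization p = (Nat.factorial M).factorization p := by
  induction M with
  | zero => simp
  | succ M ih =>
    rw [Finset.sum_Ioc_succ_top (Nat.zero_le M), ih, Nat.factorial_succ,
      Nat.factorization_mul (Nat.succ_ne_zero M) (Nat.factorial_ne_zero M), Finsupp.add_apply,
      add_comm]

private theorem fact_le' {p M : ℕ} (hp : p.Prime) :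
    ((Nat.factorial M).factorization p : ℝ) ≤ 2 * M / p := by
  haveI := Fact.mk hp
  have h1 := sub_one_mul_padicValNat_factorial (p := p) M
  rw [← Nat.factorization_def _ hp] at h1
  have h2 : (p - 1) * (Nat.factorial M).factorization p ≤ M := by omega
  have h3 : ((p : ℝ) - 1) * ((Nat.factorial M).factorization p : ℝ) ≤ M := by
    have h4 : ((p - 1 : ℕ) : ℝ) = (p : ℝ) - 1 := by
      rw [Nat.cast_sub hp.one_lt.le, Nat.cast_one]
    rw [← h4]
    exact_mod_cast h2
  have hp2 : (2 : ℝ) ≤ p := by exact_mod_cast hp.two_le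
  rw [le_div_iff₀ (by linarith)]
  have h5 : (0 : ℝ) ≤ ((Nat.factorial M).factorization p : ℝ) := Nat.cast_nonneg _
  nlinarith

private theorem sum_log_le' (P : Finset ℕ) (hP : ∀ p ∈ P, p.Prime) (m : ℕ) :
    ∑ p ∈ P, (m.factorization p : ℝ) * Real.log p ≤ Real.log m := by
  rw [Real.log_nat_eq_sum_factorization, Finsupp.sum]
  have h1 : ∑ p ∈ P, (m.factorization p : ℝ) * Real.log p =
      ∑ p ∈ P.filter (fun p => p ∈ m.factorization.support),
        (m.factorization p : ℝ) * Real.log p := by
    rw [Finset.sum_filter_of_ne]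
    intro p _ h
    rw [Finsupp.mem_support_iff]
    rintro h2
    rw [h2] at h
    simp at h
  rw [h1]
  refine Finset.sum_le_sum_of_subset_of_nonneg (fun p hp => (mem_filter.1 hp).2) ?_
  intro p _ _
  exact mul_nonneg (Nat.cast_nonneg _) (Real.log_natCast_nonneg _)

private theorem mertens' (y : ℕ) (hy : 1 ≤ y) :
    ∑ p ∈ (range y).filter (fun p => p.Prime), Real.log p / p ≤ 2 * Real.log y := by
  have hy0 : (0 : ℝ) < y := by exact_mod_cast hy
  have h1 : ∑ p ∈ (range y).filter (fun p => p.Prime),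
      ((Nat.factorial y).factorization p : ℝ) * Real.log p ≤ Real.log (Nat.factorial y : ℕ) :=
    sum_log_le' _ (fun p hp => (mem_filter.1 hp).2) _
  have h2 : Real.log (Nat.factorial y : ℕ) ≤ y * Real.log y := by
    rw [← Real.log_pow]
    refine Real.log_le_log (by exact_mod_cast Nat.factorial_pos y) ?_
    exact_mod_cast Nat.factorial_le_pow y
  have h3 : ∀ p ∈ (range y).filter (fun p => p.Prime),
      Real.log p / p ≤ 2 / y * (((Nat.factorial y).factorization p : ℝ) * Real.log p) := by
    intro p hp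
    rw [mem_filter, mem_range] at hp
    have hp0 : (0 : ℝ) < p := by exact_mod_cast hp.2.pos
    have h4 : y / p ≤ (Nat.factorial y).factorization p := by
      rw [← sum_fact', ← Nat.Ioc_filter_dvd_card_eq_div, Finset.card_filter]
      refine Finset.sum_le_sum fun n hn => ?_
      rw [mem_Ioc] at hn
      split_ifs with hd
      · exact (hp.2.dvd_iff_one_le_factorization (by omega)).1 hd
      · exact Nat.zero_le _
    have h5 : (y : ℝ) / p ≤ 2 * ((Nat.factorial y).factorization p : ℝ) := by
      have h6 : 1 ≤ y / p := (Nat.one_le_div_iff hp.2.pos).2 hp.1.le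
      have h7 : y < p * (y / p + 1) := Nat.lt_mul_div_succ y hp.2.pos
      have h8 : y ≤ 2 * (Nat.factorial y).factorization p * p := by nlinarith
      rw [div_le_iff₀ hp0]
      exact_mod_cast h8
    have h9 : 0 ≤ Real.log p := Real.log_natCast_nonneg _
    calc Real.log p / p = (1 / y) * (((y : ℝ) / p) * Real.log p) := by
          field_simp
      _ ≤ (1 / y) * ((2 * ((Nat.factorial y).factorization p : ℝ)) * Real.log p) := by
          refine mul_le_mul_of_nonneg_left ?_ (by positivity)
          exact mul_le_mul_of_nonneg_right h5 h9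
      _ = 2 / y * (((Nat.factorial y).factorization p : ℝ) * Real.log p) := by ring
  calc ∑ p ∈ (range y).filter (fun p => p.Prime), Real.log p / p
      ≤ ∑ p ∈ (range y).filter (fun p => p.Prime),
        2 / y * (((Nat.factorial y).factorization p : ℝ) * Real.log p) := Finset.sum_le_sum h3
    _ = 2 / y * ∑ p ∈ (range y).filter (fun p => p.Prime),
        ((Nat.factorial y).factorization p : ℝ) * Real.log p := by rw [Finset.mul_sum]
    _ ≤ 2 / y * (y * Real.log y) := by
        refine mul_le_mul_of_nonneg_left (h1.trans h2) (by positivity)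
    _ = 2 * Real.log y := by field_simp

private theorem log_sm' (y n : ℕ) :
    Real.log (sm y n : ℕ) ≤ ∑ p ∈ (range y).filter (fun p => p.Prime),
      (n.factorization p : ℝ) * Real.log p := by
  unfold sm
  rw [Nat.cast_prod, Real.log_prod]
  · have h1 : ∀ p ∈ n.primeFactors.filter (fun p => p < y),
        Real.log ((p ^ n.factorization p : ℕ) : ℝ) = (n.factorization p : ℝ) * Real.log p := by
      intro p _
      rw [Nat.cast_pow, Real.log_pow]
    rw [Finset.sum_congr rfl h1]
    refine Finset.sum_le_sum_of_subset_of_nonneg ?_ ?_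
    · intro p hp
      rw [mem_filter] at hp ⊢
      exact ⟨mem_range.2 hp.2, Nat.prime_of_mem_primeFactors hp.1⟩
    · intro p _ _
      exact mul_nonneg (Nat.cast_nonneg _) (Real.log_natCast_nonneg _)
  · intro p hp
    have h2 := (Nat.prime_of_mem_primeFactors (mem_filter.1 hp).1).pos
    exact_mod_cast (pow_pos h2 _).ne'

theorem mark : ∃ C : ℝ, 0 < C ∧ ∀ (N y : ℕ) (G : ℝ), 3 ≤ y → 1 < G →
    (#((Ioc N (2 * N)).filter (fun n => G < (sm y n : ℝ))) : ℝ) * Real.log G ≤ C * N * Real.log y := by
  refine ⟨8, by norm_num, ?_⟩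
  intro N y G hy hG
  have hpos : ∀ n : ℕ, 0 ≤ Real.log (sm y n : ℕ) := fun n => Real.log_natCast_nonneg _
  have h1 : (#((Ioc N (2 * N)).filter (fun n => G < (sm y n : ℝ))) : ℝ) * Real.log G ≤
      ∑ n ∈ (Ioc N (2 * N)).filter (fun n => G < (sm y n : ℝ)), Real.log (sm y n : ℕ) := by
    rw [← nsmul_eq_mul]
    refine Finset.card_nsmul_le_sum _ _ _ fun n hn => ?_
    exact Real.log_le_log (by linarith) (mem_filter.1 hn).2.le
  have h2 : ∑ n ∈ (Ioc N (2 * N)).filter (fun n => G < (sm y n : ℝ)), Real.log (sm y n : ℕ) ≤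
      ∑ n ∈ Ioc 0 (2 * N), Real.log (sm y n : ℕ) := by
    refine Finset.sum_le_sum_of_subset_of_nonneg ?_ fun n _ _ => hpos n
    intro n hn
    have h3 := mem_Ioc.1 (mem_filter.1 hn).1
    exact mem_Ioc.2 ⟨by omega, h3.2⟩
  have h3 : ∑ n ∈ Ioc 0 (2 * N), Real.log (sm y n : ℕ) ≤
      ∑ p ∈ (range y).filter (fun p => p.Prime),
        ((Nat.factorial (2 * N)).factorization p : ℝ) * Real.log p := by
    calc ∑ n ∈ Ioc 0 (2 * N), Real.log (sm y n : ℕ)
        ≤ ∑ n ∈ Ioc 0 (2 * N), ∑ p ∈ (range y).filter (fun p => p.Prime),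
          (n.factorization p : ℝ) * Real.log p := Finset.sum_le_sum fun n _ => log_sm' y n
      _ = ∑ p ∈ (range y).filter (fun p => p.Prime),
          ((Nat.factorial (2 * N)).factorization p : ℝ) * Real.log p := by
          rw [Finset.sum_comm]
          refine Finset.sum_congr rfl fun p _ => ?_
          rw [← Finset.sum_mul, ← sum_fact']
          push_cast
          rfl
  have h4 : ∑ p ∈ (range y).filter (fun p => p.Prime),
      ((Nat.factorial (2 * N)).factorization p : ℝ) * Real.log p ≤
      4 * N * ∑ p ∈ (range y).filter (fun p => p.Prime), Real.log p / p := by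
    rw [Finset.mul_sum]
    refine Finset.sum_le_sum fun p hp => ?_
    have hp' := (mem_filter.1 hp).2
    have h5 := fact_le' (M := 2 * N) hp'
    push_cast at h5
    calc ((Nat.factorial (2 * N)).factorization p : ℝ) * Real.log p
        ≤ (2 * (2 * N) / p) * Real.log p :=
          mul_le_mul_of_nonneg_right h5 (Real.log_natCast_nonneg _)
      _ = 4 * N * (Real.log p / p) := by ring
  have h5 := mertens' y (by omega)
  have h6 : (4 : ℝ) * N * ∑ p ∈ (range y).filter (fun p => p.Prime), Real.log p / p ≤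
      4 * N * (2 * Real.log y) := mul_le_mul_of_nonneg_left h5 (by positivity)
  linarith

end PoolUS
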