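import Mathlib
import Pool.Agent.Work.MP_c971ef_nt.US.FinC
import Pool.Agent.Work.MP_c971ef_nt.US.Inc
import Pool.Agent.Work.MP_c971ef_nt.US.Mark
import Pool.Agent.Work.MP_c971ef_nt.US.Cnt
import Pool.Agent.Work.MP_c971ef_nt.LS.A

set_option autoImplicit false

/-!
Assembly, last part.
-/

namespace PoolUS

open Finset

open Classical in
/-- the statement for one `N`, for an arbitrary dense set `M` of integers -/
theorem dense_shift (κ₀ : ℕ) (c₁ ε : ℝ) (hc₁ : 0 < c₁) (hε : 0 < ε) (hε1 : ε ≤ 1) :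
    ∃ (t : ℝ) (N₀ : ℕ), 0 < t ∧ ∀ (N A : ℕ) (M : Finset ℕ), N₀ ≤ N → (N : ℝ) ^ ε ≤ A → A ≤ N →
      M ⊆ Icc 1 (N ^ 2) → c₁ * ((N ^ 2 : ℕ) / (Real.log (N ^ 2 : ℕ)) ^ κ₀) ≤ (#M : ℝ) →
      (A : ℝ) * Real.exp (-(Real.log N) ^ ((3 : ℝ) / 4)) ≤ #((range A).filter (fun a =>
        (#((Ioc N (2 * N)).filter (fun n => ¬ ∃ k : ℕ, (N : ℝ) / (Real.log N) ^ (κ₀ + 3) ≤ k ∧
          k ≤ N ∧ (∀ q : ℕ, q.Prime → q ∣ 2 * k + 1 → (N : ℝ) ^ t ≤ q) ∧ k * n + a ∈ M)) : ℝ) ≤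
        N * (Real.log N) ^ (-(1 : ℝ) / 5))) := by
  classical
  obtain ⟨t, N₁, ht, hpairs⟩ := pairs κ₀ ε hε hε1
  obtain ⟨Cm, hCm, hmark⟩ := mark
  obtain ⟨L₁, hL₁⟩ := asy1 (3 * Cm * (2 * κ₀ + 41)) 1 (1 / 20) (by norm_num)
  obtain ⟨L₂, hL₂⟩ := asy1 (2 * (κ₀ + 2)) 1 (3 / 4) (by norm_num)
  obtain ⟨N₂, hN₂⟩ := asy4 (max (max L₁ L₂) (max (2 ^ (κ₀ + 1) / c₁) 8))
  obtain ⟨N₃, hN₃⟩ := asy3 (ε / 2) (by positivity)
  obtain ⟨N₄, hN₄⟩ := asy2 2 0 (ε / 2) (by positivity)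
  obtain ⟨N₅, hN₅⟩ := asy2 4 (κ₀ + 3) 1 (by norm_num)
  refine ⟨t, max (max (max N₁ N₂) (max N₃ N₄)) (max N₅ 3), ht, ?_⟩
  intro N A M hN hA hAN hM hMc
  simp only [max_le_iff] at hN
  obtain ⟨⟨⟨hN1, hN2⟩, hN3, hN4⟩, hN5, hN6⟩ := hN
  have hN3r : (3 : ℝ) ≤ N := by exact_mod_cast hN6
  have hNpos : (0 : ℝ) < N := by linarith
  have hN1r : (1 : ℝ) ≤ N := by linarith
  have g2 := hN₂ N hN2
  have g3 := hN₃ N hN3
  have g4 := hN₄ N hN4
  have g5 := hN₅ N hN5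
  rw [pow_zero, mul_one] at g4
  rw [Real.rpow_one] at g5
  obtain ⟨ℓ, hℓ⟩ : ∃ ℓ, ℓ = Real.log N := ⟨_, rfl⟩
  rw [← hℓ] at g2 g3 g5 ⊢
  simp only [max_le_iff] at g2
  obtain ⟨⟨g21, g22⟩, g23, g24⟩ := g2
  have h1 := hL₁ ℓ g21
  have h2 := hL₂ ℓ g22
  obtain ⟨Λ, hΛ⟩ : ∃ Λ, Λ = Real.log ℓ := ⟨_, rfl⟩
  rw [← hΛ, pow_one] at h1 h2
  have hℓ0 : (0 : ℝ) < ℓ := by linarith
  have hℓ1 : (1 : ℝ) ≤ ℓ := by linarith
  have hΛ0 : 0 < Λ := by rw [hΛ]; exact Real.log_pos (by linarith)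
  have hlogX : Real.log ((N ^ 2 : ℕ) : ℝ) = 2 * ℓ := by
    push_cast
    rw [Real.log_pow, hℓ]
    push_cast
    ring
  rw [hlogX] at hMc
  push_cast at hMc
  -- the set I
  obtain ⟨I, hI⟩ : ∃ I : Finset ℕ, I = M.filter (fun m : ℕ => (N : ℝ) ^ 2 / ℓ ^ (κ₀ + 2) < (m : ℝ)) := ⟨_, rfl⟩
  have hIM : I ⊆ M := by rw [hI]; exact filter_subset _ _
  have hIc : (N : ℝ) ^ 2 / ℓ ^ (κ₀ + 1) ≤ #I := by
    have a1 : (#M : ℝ) ≤ #I + (N : ℝ) ^ 2 / ℓ ^ (κ₀ + 2) := by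
      have b1 : #(M.filter (fun m : ℕ => ¬ (N : ℝ) ^ 2 / ℓ ^ (κ₀ + 2) < (m : ℝ))) ≤
          #(Icc 1 ⌊(N : ℝ) ^ 2 / ℓ ^ (κ₀ + 2)⌋₊) := by
        apply card_le_card
        intro m hm
        obtain ⟨hm1, hm2⟩ := mem_filter.1 hm
        rw [not_lt] at hm2
        exact mem_Icc.2 ⟨(mem_Icc.1 (hM hm1)).1, Nat.le_floor hm2⟩
      rw [Nat.card_Icc, Nat.add_sub_cancel] at b1
      have b2 : ((⌊(N : ℝ) ^ 2 / ℓ ^ (κ₀ + 2)⌋₊ : ℕ) : ℝ) ≤ (N : ℝ) ^ 2 / ℓ ^ (κ₀ + 2) :=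
        Nat.floor_le (by positivity)
      have b3 := card_filter_add_card_filter_not (s := M)
        (fun m : ℕ => (N : ℝ) ^ 2 / ℓ ^ (κ₀ + 2) < (m : ℝ))
      rw [← hI] at b3
      have b4 : (#M : ℝ) = #I + #(M.filter (fun m : ℕ => ¬ (N : ℝ) ^ 2 / ℓ ^ (κ₀ + 2) < (m : ℝ))) := by
        exact_mod_cast b3.symm
      have b5 : (#(M.filter (fun m : ℕ => ¬ (N : ℝ) ^ 2 / ℓ ^ (κ₀ + 2) < (m : ℝ))) : ℝ) ≤
          ((⌊(N : ℝ) ^ 2 / ℓ ^ (κ₀ + 2)⌋₊ : ℕ) : ℝ) := by exact_mod_cast b1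
      linarith
    have a2 : 2 * ((N : ℝ) ^ 2 / ℓ ^ (κ₀ + 1)) ≤ c₁ * ((N : ℝ) ^ 2 / (2 * ℓ) ^ κ₀) := by
      rw [div_le_iff₀ hc₁] at g23
      have b1 : c₁ * ((N : ℝ) ^ 2 / (2 * ℓ) ^ κ₀) = (ℓ * c₁ / 2 ^ κ₀) * ((N : ℝ) ^ 2 / ℓ ^ (κ₀ + 1)) := by
        rw [mul_pow, pow_succ ℓ κ₀]
        field_simp
      rw [b1]
      apply mul_le_mul_of_nonneg_right _ (by positivity)
      rw [le_div_iff₀ (by positivity)]
      calc (2 : ℝ) * 2 ^ κ₀ = 2 ^ (κ₀ + 1) := by ring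
        _ ≤ ℓ * c₁ := g23
    have a3 : (N : ℝ) ^ 2 / ℓ ^ (κ₀ + 2) ≤ (N : ℝ) ^ 2 / ℓ ^ (κ₀ + 1) := by
      apply div_le_div_of_nonneg_left (by positivity) (by positivity)
      exact pow_le_pow_right₀ hℓ1 (by omega)
    linarith
  have hI0 : (0 : ℝ) < #I := lt_of_lt_of_le (by positivity) hIc
  have hIne : I.Nonempty := by
    rw [← card_pos]
    exact_mod_cast hI0
  have hκ0 : 0 < kap κ₀ N := by
    unfold kap
    rw [← hℓ, ← hΛ]
    have := Real.rpow_pos_of_pos hℓ0 ((3 : ℝ) / 4)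
    positivity
  have hκ1 : kap κ₀ N ≤ 1 := by
    unfold kap
    rw [← hℓ, ← hΛ, div_le_one (Real.rpow_pos_of_pos hℓ0 _)]
    refine le_trans ?_ h2
    apply mul_le_mul_of_nonneg_left (by linarith) (by positivity)
  obtain ⟨W, c, U, hW1, hWX, hcW, hWk, hUI, hUk, hUd⟩ := inc (N ^ 2) I (hIM.trans hM) hIne
    (kap κ₀ N) hκ0 hκ1
  have hWpos : (0 : ℝ) < W := by exact_mod_cast hW1
  have hW1r : (1 : ℝ) ≤ W := by exact_mod_cast hW1
  have hlogW : Real.log W ≤ ℓ ^ ((3 : ℝ) / 4) / 2 := by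
    have a1 : (W : ℝ) ^ (kap κ₀ N) ≤ ℓ ^ (κ₀ + 2) := by
      have b1 : (W : ℝ) ^ (kap κ₀ N) * ((N : ℝ) ^ 2 / ℓ ^ (κ₀ + 1)) ≤ 2 * (N : ℝ) ^ 2 := by
        refine (mul_le_mul_of_nonneg_left hIc (Real.rpow_nonneg hWpos.le _)).trans ?_
        push_cast at hWk
        exact hWk
      have b2 : (W : ℝ) ^ (kap κ₀ N) ≤ 2 * ℓ ^ (κ₀ + 1) := by
        rw [← mul_div_assoc, div_le_iff₀ (by positivity)] at b1
        have b3 : (0 : ℝ) < (N : ℝ) ^ 2 := by positivity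
        have b4 : (W : ℝ) ^ (kap κ₀ N) * (N : ℝ) ^ 2 ≤ (2 * ℓ ^ (κ₀ + 1)) * (N : ℝ) ^ 2 := by
          linarith
        exact le_of_mul_le_mul_right b4 b3
      calc (W : ℝ) ^ (kap κ₀ N) ≤ 2 * ℓ ^ (κ₀ + 1) := b2
        _ ≤ ℓ * ℓ ^ (κ₀ + 1) := mul_le_mul_of_nonneg_right (by linarith) (by positivity)
        _ = ℓ ^ (κ₀ + 2) := by ring
    have a2 := Real.log_le_log (Real.rpow_pos_of_pos hWpos _) a1
    rw [Real.log_rpow hWpos, Real.log_pow, ← hΛ] at a2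
    unfold kap at a2
    rw [← hℓ, ← hΛ] at a2
    push_cast at a2
    have h34 : 0 < ℓ ^ ((3 : ℝ) / 4) := Real.rpow_pos_of_pos hℓ0 _
    have hq : (0 : ℝ) < (κ₀ + 2) * Λ := by positivity
    have a3 : ((κ₀ + 2) * Λ) * (Real.log W * 2 / ℓ ^ ((3 : ℝ) / 4)) ≤ ((κ₀ + 2) * Λ) * 1 := by
      calc ((κ₀ + 2) * Λ) * (Real.log W * 2 / ℓ ^ ((3 : ℝ) / 4)) =
          2 * (κ₀ + 2) * Λ / ℓ ^ ((3 : ℝ) / 4) * Real.log W := by ring
        _ ≤ (κ₀ + 2) * Λ := a2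
        _ = _ := (mul_one _).symm
    have a4 := le_of_mul_le_mul_left a3 hq
    rw [div_le_one h34] at a4
    linarith
  have hUX : U ⊆ range (N ^ 2 / W + 1) := by
    intro u hu
    have a1 := hM (hIM ((hUI u).1 hu))
    have a2 := (mem_Icc.1 a1).2
    rw [mem_range, Nat.lt_succ_iff, Nat.le_div_iff_mul_le (by omega)]
    have : u * W = W * u := by ring
    omega
  have hℓN : 4 * ℓ ^ (κ₀ + 2) ≤ (N : ℝ) := by
    refine le_trans ?_ g5
    apply mul_le_mul_of_nonneg_left _ (by norm_num)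
    exact pow_le_pow_right₀ hℓ1 (by omega)
  have hNle : 4 * (N : ℝ) ≤ (N : ℝ) ^ 2 / ℓ ^ (κ₀ + 2) := by
    rw [le_div_iff₀ (by positivity)]
    calc 4 * (N : ℝ) * ℓ ^ (κ₀ + 2) = N * (4 * ℓ ^ (κ₀ + 2)) := by ring
      _ ≤ N * N := mul_le_mul_of_nonneg_left hℓN hNpos.le
      _ = (N : ℝ) ^ 2 := by ring
  have hIbig : ∀ m ∈ I, (N : ℝ) ^ 2 / ℓ ^ (κ₀ + 2) < m := by
    intro m hm
    rw [hI] at hm
    exact (mem_filter.1 hm).2
  have hUJ : ∀ u ∈ U, A / W ≤ u := by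
    intro u hu
    by_contra hlt
    push Not at hlt
    have a1 : W * (u + 1) ≤ A := by
      have := Nat.div_mul_le_self A W
      calc W * (u + 1) ≤ W * (A / W) := Nat.mul_le_mul_left _ hlt
        _ = A / W * W := by ring
        _ ≤ A := this
    have a2 := hIbig _ ((hUI u).1 hu)
    have a3 : ((c + W * u : ℕ) : ℝ) ≤ N := by
      have : c + W * u ≤ N := by nlinarith
      exact_mod_cast this
    linarith
  have hm : (N : ℝ) ^ 2 ≤ #U * W * ℓ ^ (κ₀ + 1) := by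
    have a1 : (#I : ℝ) ≤ #U * W := by
      have b1 : (1 : ℝ) ≤ (W : ℝ) ^ (kap κ₀ N) := Real.one_le_rpow hW1r hκ0.le
      calc (#I : ℝ) = #I * 1 := (mul_one _).symm
        _ ≤ #I * (W : ℝ) ^ (kap κ₀ N) := mul_le_mul_of_nonneg_left b1 hI0.le
        _ ≤ #U * W := hUk
    rw [div_le_iff₀ (by positivity)] at hIc
    exact hIc.trans (mul_le_mul_of_nonneg_right a1 (by positivity))
  -- the pairs
  obtain ⟨J, hJ⟩ : ∃ J : ℕ, J = A / W := ⟨_, rfl⟩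
  obtain ⟨G, hG⟩ : ∃ G : Finset ℕ, G = (Ioc N (2 * N)).filter (fun n =>
    (sm (yN κ₀ N) n : ℝ) ≤ Real.exp (ℓ ^ ((1 : ℝ) / 4))) := ⟨_, rfl⟩
  obtain ⟨GG, hGG⟩ : ∃ GG : Finset (ℕ × ℕ), GG = (G ×ˢ range J).filter (fun s => ¬ ∃ u ∈ U,
    s.1 ∣ u - s.2 ∧ ∀ p : ℕ, p.Prime → p ∣ 2 * (W * ((u - s.2) / s.1)) + 1 → (N : ℝ) ^ t ≤ p) :=
    ⟨_, rfl⟩
  have hGGc : (#GG : ℝ) ≤ (ℓ ^ (-(1 : ℝ) / 5) / 3) * N * J := by
    have := hpairs N A W U hN1 hA hW1 (by rw [← hℓ]; exact hlogW) hUX hUJ (by rw [← hℓ]; exact hm)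
      hUd GG (by rw [← hℓ, ← hG, ← hJ, hGG]; exact filter_subset _ _) (by
        intro s hs
        rw [hGG] at hs
        exact (mem_filter.1 hs).2)
    rw [← hℓ, ← hJ] at this
    exact this
  have hη0 : 0 ≤ ℓ ^ (-(1 : ℝ) / 5) / 3 := by
    have := Real.rpow_pos_of_pos hℓ0 (-(1 : ℝ) / 5)
    positivity
  have hcnt := cnt G J GG (by rw [hGG]; exact filter_subset _ _) (ℓ ^ (-(1 : ℝ) / 5) / 3) N hη0
    hNpos.le hGGc
  -- J is large
  have hexp2 : (4 : ℝ) ≤ Real.exp (ℓ ^ ((3 : ℝ) / 4) / 2) := by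
    have a1 : (4 : ℝ) ≤ ℓ ^ ((3 : ℝ) / 4) := by
      calc (4 : ℝ) ≤ 8 ^ ((3 : ℝ) / 4) := by
            rw [show (8 : ℝ) = 2 ^ (3 : ℝ) by norm_num, ← Real.rpow_mul (by norm_num),
              show (4 : ℝ) = 2 ^ (2 : ℝ) by norm_num]
            exact Real.rpow_le_rpow_of_exponent_le (by norm_num) (by norm_num)
        _ ≤ ℓ ^ ((3 : ℝ) / 4) := Real.rpow_le_rpow (by norm_num) g24 (by norm_num)
    have a2 : Real.exp 2 ≤ Real.exp (ℓ ^ ((3 : ℝ) / 4) / 2) := Real.exp_le_exp.2 (by linarith)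
    have a3 : (4 : ℝ) ≤ Real.exp 2 := by
      have := Real.add_one_le_exp (1 : ℝ)
      have e : Real.exp 2 = Real.exp 1 * Real.exp 1 := by rw [← Real.exp_add]; norm_num
      rw [e]
      nlinarith
    linarith
  have hWe : (W : ℝ) ≤ Real.exp (ℓ ^ ((3 : ℝ) / 4) / 2) := by
    rw [← Real.log_le_iff_le_exp hWpos]
    exact hlogW
  have h34 : 0 ≤ ℓ ^ ((3 : ℝ) / 4) := Real.rpow_nonneg hℓ0.le _
  have hA2 : 2 * (W : ℝ) ≤ A := by
    calc 2 * (W : ℝ) ≤ (N : ℝ) ^ (ε / 2) * (N : ℝ) ^ (ε / 2) := by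
          apply mul_le_mul g4 _ hWpos.le (Real.rpow_nonneg hNpos.le _)
          refine hWe.trans (le_trans (Real.exp_le_exp.2 (by linarith)) g3)
      _ = (N : ℝ) ^ ε := by rw [← Real.rpow_add hNpos]; congr 1; ring
      _ ≤ A := hA
  have hJA : (A : ℝ) / (2 * W) ≤ J := by
    have a1 : (A : ℝ) < W * (((A / W : ℕ) : ℝ) + 1) := by
      exact_mod_cast Nat.lt_mul_div_succ A (show 0 < W by omega)
    rw [← hJ] at a1
    rw [div_le_iff₀ (by positivity)]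
    nlinarith
  have hfin : (A : ℝ) * Real.exp (-ℓ ^ ((3 : ℝ) / 4)) ≤ (J : ℝ) / 2 := by
    have a1 : (A : ℝ) * Real.exp (-ℓ ^ ((3 : ℝ) / 4)) ≤ A / (4 * W) := by
      rw [le_div_iff₀ (by positivity)]
      have b1 : Real.exp (-ℓ ^ ((3 : ℝ) / 4)) * (4 * W) ≤ 1 := by
        calc Real.exp (-ℓ ^ ((3 : ℝ) / 4)) * (4 * W) ≤ Real.exp (-ℓ ^ ((3 : ℝ) / 4)) *
              (Real.exp (ℓ ^ ((3 : ℝ) / 4) / 2) * Real.exp (ℓ ^ ((3 : ℝ) / 4) / 2)) := by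
              apply mul_le_mul_of_nonneg_left _ (Real.exp_pos _).le
              exact mul_le_mul hexp2 hWe hWpos.le (Real.exp_pos _).le
          _ = 1 := by rw [← Real.exp_add, ← Real.exp_add]; ring_nf; exact Real.exp_zero
      calc (A : ℝ) * Real.exp (-ℓ ^ ((3 : ℝ) / 4)) * (4 * W) =
          A * (Real.exp (-ℓ ^ ((3 : ℝ) / 4)) * (4 * W)) := by ring
        _ ≤ A * 1 := mul_le_mul_of_nonneg_left b1 (Nat.cast_nonneg _)
        _ = A := mul_one _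
    have a2 : (A : ℝ) / (4 * W) = A / (2 * W) / 2 := by field_simp; norm_num
    linarith
  refine hfin.trans (hcnt.trans ?_)
  -- the injection j ↦ c + W j
  refine Nat.cast_le.2 ?_
  apply card_le_card_of_injOn (fun j => c + W * j)
  · intro j hj
    obtain ⟨hj1, hj2⟩ := mem_filter.1 (mem_coe.1 hj)
    rw [mem_range] at hj1
    apply mem_coe.2
    rw [mem_filter, mem_range]
    refine ⟨?_, ?_⟩
    · have a1 : W * (j + 1) ≤ A := by
        calc W * (j + 1) ≤ W * (A / W) := Nat.mul_le_mul_left _ (by omega)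
          _ = A / W * W := by ring
          _ ≤ A := Nat.div_mul_le_self A W
      nlinarith
    · -- bad n
      have hsub : (Ioc N (2 * N)).filter (fun n => ¬ ∃ k : ℕ, (N : ℝ) / ℓ ^ (κ₀ + 3) ≤ k ∧
          k ≤ N ∧ (∀ q : ℕ, q.Prime → q ∣ 2 * k + 1 → (N : ℝ) ^ t ≤ q) ∧ k * n + (c + W * j) ∈ M) ⊆
          (Ioc N (2 * N)).filter (fun n => Real.exp (ℓ ^ ((1 : ℝ) / 4)) < (sm (yN κ₀ N) n : ℝ)) ∪
          G.filter (fun n => (n, j) ∈ GG) := by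
        intro n hn
        obtain ⟨hn1, hn2⟩ := mem_filter.1 hn
        obtain ⟨hn3, hn4⟩ := mem_Ioc.1 hn1
        rw [mem_union]
        by_contra hcon
        push Not at hcon
        obtain ⟨hc1, hc2⟩ := hcon
        have hnG : n ∈ G := by
          rw [hG, mem_filter]
          refine ⟨hn1, ?_⟩
          by_contra h
          rw [not_le] at h
          exact hc1 (mem_filter.2 ⟨hn1, h⟩)
        have hnGG : (n, j) ∉ GG := fun h => hc2 (mem_filter.2 ⟨hnG, h⟩)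
        have hex : ∃ u ∈ U, n ∣ u - j ∧ ∀ p : ℕ, p.Prime →
            p ∣ 2 * (W * ((u - j) / n)) + 1 → (N : ℝ) ^ t ≤ p := by
          by_contra h
          apply hnGG
          rw [hGG, mem_filter, mem_product, mem_range]
          exact ⟨⟨hnG, hj1⟩, h⟩
        obtain ⟨u, hu, hdu, hpu⟩ := hex
        apply hn2
        have huj : j ≤ u := by
          have := hUJ u hu
          omega
        have hkn : W * ((u - j) / n) * n + (c + W * j) = c + W * u := by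
          have b1 : (u - j) / n * n = u - j := Nat.div_mul_cancel hdu
          calc W * ((u - j) / n) * n + (c + W * j) = W * ((u - j) / n * n) + (c + W * j) := by ring
            _ = W * (u - j) + (c + W * j) := by rw [b1]
            _ = c + W * ((u - j) + j) := by ring
            _ = c + W * u := by rw [Nat.sub_add_cancel huj]
        have hmI := (hUI u).1 hu
        have hmM := hIM hmI
        have hmX := (mem_Icc.1 (hM hmM)).2
        have hmb := hIbig _ hmI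
        refine ⟨W * ((u - j) / n), ?_, ?_, hpu, ?_⟩
        · -- lower bound for k
          have hn4r : (n : ℝ) ≤ 2 * N := by exact_mod_cast hn4
          have hn0 : (0 : ℝ) < n := by
            have : (N : ℝ) < n := by exact_mod_cast hn3
            linarith
          have b2 : ((c + W * j : ℕ) : ℝ) ≤ N := by
            have : c + W * j ≤ A := by
              have a1 : W * (j + 1) ≤ A := by
                calc W * (j + 1) ≤ W * (A / W) := Nat.mul_le_mul_left _ (by omega)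
                  _ = A / W * W := by ring
                  _ ≤ A := Nat.div_mul_le_self A W
              nlinarith
            exact_mod_cast this.trans hAN
          have b3 : (((W * ((u - j) / n) : ℕ) : ℝ)) * n + ((c + W * j : ℕ) : ℝ) =
              ((c + W * u : ℕ) : ℝ) := by
            exact_mod_cast hkn
          have b4 : (N : ℝ) ^ 2 / ℓ ^ (κ₀ + 2) - N < ((W * ((u - j) / n) : ℕ) : ℝ) * (2 * N) := by
            have : ((W * ((u - j) / n) : ℕ) : ℝ) * n ≤ ((W * ((u - j) / n) : ℕ) : ℝ) * (2 * N) :=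
              mul_le_mul_of_nonneg_left hn4r (Nat.cast_nonneg _)
            linarith
          have b5 : (N : ℝ) / ℓ ^ (κ₀ + 3) * (2 * N) ≤ (N : ℝ) ^ 2 / ℓ ^ (κ₀ + 2) - N := by
            have e1 : (N : ℝ) / ℓ ^ (κ₀ + 3) * (2 * N) = 2 / ℓ * ((N : ℝ) ^ 2 / ℓ ^ (κ₀ + 2)) := by
              rw [pow_succ ℓ (κ₀ + 2)]
              field_simp
            have e2 : 2 / ℓ ≤ 1 / 4 := by
              rw [div_le_div_iff₀ hℓ0 (by norm_num)]
              linarith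
            have e3 : 2 / ℓ * ((N : ℝ) ^ 2 / ℓ ^ (κ₀ + 2)) ≤ 1 / 4 * ((N : ℝ) ^ 2 / ℓ ^ (κ₀ + 2)) :=
              mul_le_mul_of_nonneg_right e2 (by positivity)
            linarith
          have b6 : (N : ℝ) / ℓ ^ (κ₀ + 3) * (2 * N) < ((W * ((u - j) / n) : ℕ) : ℝ) * (2 * N) :=
            lt_of_le_of_lt b5 b4
          exact (lt_of_mul_lt_mul_right b6 (by positivity)).le
        · -- upper bound for k
          by_contra h
          push Not at h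
          have b1 : N * N < W * ((u - j) / n) * n := by
            calc N * N < W * ((u - j) / n) * n := Nat.mul_lt_mul'' h hn3
              _ = _ := rfl
          have b2 : N ^ 2 = N * N := by ring
          omega
        · rw [hkn]
          exact hmM
      have hbad := card_le_card hsub
      have hbad2 := hbad.trans (card_union_le _ _)
      have hbad3 : (#((Ioc N (2 * N)).filter (fun n => ¬ ∃ k : ℕ, (N : ℝ) / ℓ ^ (κ₀ + 3) ≤ k ∧
          k ≤ N ∧ (∀ q : ℕ, q.Prime → q ∣ 2 * k + 1 → (N : ℝ) ^ t ≤ q) ∧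
          k * n + (c + W * j) ∈ M)) : ℝ) ≤
          (#((Ioc N (2 * N)).filter (fun n => Real.exp (ℓ ^ ((1 : ℝ) / 4)) <
            (sm (yN κ₀ N) n : ℝ))) : ℝ) + (#(G.filter (fun n => (n, j) ∈ GG)) : ℝ) := by
        exact_mod_cast hbad2
      refine hbad3.trans ?_
      have h14 : 0 < ℓ ^ ((1 : ℝ) / 4) := Real.rpow_pos_of_pos hℓ0 _
      -- the smooth part
      have hy3 : 3 ≤ yN κ₀ N := by
        have a1 : (3 : ℝ) ≤ yN κ₀ N := by
          unfold yN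
          rw [← hℓ]
          refine le_trans ?_ (Nat.le_ceil _)
          calc (3 : ℝ) ≤ ℓ := by linarith
            _ ≤ ℓ ^ (2 * κ₀ + 40) := le_self_pow₀ hℓ1 (by omega)
        exact_mod_cast a1
      have hmk := hmark N (yN κ₀ N) (Real.exp (ℓ ^ ((1 : ℝ) / 4))) hy3
        (Real.one_lt_exp_iff.2 h14)
      rw [Real.log_exp] at hmk
      have hlogy : Real.log (yN κ₀ N) ≤ (2 * κ₀ + 41) * (1 + Λ) := by
        have a1 : ((yN κ₀ N : ℕ) : ℝ) ≤ 2 * ℓ ^ (2 * κ₀ + 40) := by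
          have b1 : ((yN κ₀ N : ℕ) : ℝ) < ℓ ^ (2 * κ₀ + 40) + 1 := by
            unfold yN
            rw [← hℓ]
            exact Nat.ceil_lt_add_one (by positivity)
          have b2 : (1 : ℝ) ≤ ℓ ^ (2 * κ₀ + 40) := one_le_pow₀ hℓ1
          linarith
        have a2 : Real.log (yN κ₀ N) ≤ Real.log (2 * ℓ ^ (2 * κ₀ + 40)) := by
          apply Real.log_le_log _ a1
          have : (3 : ℝ) ≤ yN κ₀ N := by exact_mod_cast hy3
          linarith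
        rw [Real.log_mul (by norm_num) (by positivity), Real.log_pow, ← hΛ] at a2
        have a3 : Real.log 2 ≤ 1 := by linarith [Real.log_two_lt_d9]
        push_cast at a2
        have a4 : (0 : ℝ) ≤ κ₀ := Nat.cast_nonneg _
        have a5 : (2 * (κ₀ : ℝ) + 41) * (1 + Λ) = (2 * κ₀ + 40) * Λ + Λ + (2 * κ₀ + 41) := by ring
        linarith
      have hs : (#((Ioc N (2 * N)).filter (fun n => Real.exp (ℓ ^ ((1 : ℝ) / 4)) <
            (sm (yN κ₀ N) n : ℝ))) : ℝ) ≤ (ℓ ^ (-(1 : ℝ) / 5) / 3) * N := by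
        have a1 : Cm * N * Real.log (yN κ₀ N) ≤ (ℓ ^ (-(1 : ℝ) / 5) / 3) * N * ℓ ^ ((1 : ℝ) / 4) := by
          have b1 : Cm * Real.log (yN κ₀ N) ≤ ℓ ^ ((1 : ℝ) / 20) / 3 := by
            have c1 : Cm * Real.log (yN κ₀ N) ≤ Cm * ((2 * κ₀ + 41) * (1 + Λ)) :=
              mul_le_mul_of_nonneg_left hlogy hCm.le
            linarith
          have b2 : ℓ ^ (-(1 : ℝ) / 5) * ℓ ^ ((1 : ℝ) / 4) = ℓ ^ ((1 : ℝ) / 20) := by
            rw [← Real.rpow_add hℓ0]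
            norm_num
          calc Cm * N * Real.log (yN κ₀ N) = N * (Cm * Real.log (yN κ₀ N)) := by ring
            _ ≤ N * (ℓ ^ ((1 : ℝ) / 20) / 3) := mul_le_mul_of_nonneg_left b1 hNpos.le
            _ = (ℓ ^ (-(1 : ℝ) / 5) / 3) * N * ℓ ^ ((1 : ℝ) / 4) := by rw [← b2]; ring
        exact le_of_mul_le_mul_right (hmk.trans a1) h14
      have e : (N : ℝ) * ℓ ^ (-(1 : ℝ) / 5) = (ℓ ^ (-(1 : ℝ) / 5) / 3) * N +
          2 * (ℓ ^ (-(1 : ℝ) / 5) / 3) * N := by ring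
      rw [e]
      linarith
  · intro j₁ _ j₂ _ hj
    have h : c + W * j₁ = c + W * j₂ := hj
    have h' : W * j₁ = W * j₂ := by omega
    exact Nat.eq_of_mul_eq_mul_left (by omega) h'

end PoolUS
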